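import Mathlib

/-!
# The cube hypergraph `H(k,n)`: structure of edges and an explicit 2-colouring
-/

namespace Pool.Agent.helper45.Cube

open Finset

/-- The point of `ℝ^n` given by a vertex: coordinates in `{1,…,k}`. -/
def pt {k n : ℕ} (x : Fin n → Fin k) : Fin n → ℝ := fun i => ((x i : ℕ) : ℝ) + 1

/-- Edges of `H(k,n)`. -/
def IsEdge {k n : ℕ} (e : Finset (Fin n → Fin k)) : Prop :=
  e.card = k ∧ Collinear ℝ (pt '' (e : Set (Fin n → Fin k)))

/-- `H(k,n)` is 2-colourable. -/
def TwoColorable (k n : ℕ) : Prop :=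
  ∃ c : (Fin n → Fin k) → Bool, ∀ e : Finset (Fin n → Fin k), IsEdge e →
    ∃ x ∈ e, ∃ y ∈ e, c x ≠ c y

/-- the kind of a coordinate along a line: `some a` constant `a` -/
inductive Kind (k : ℕ) where
  | const : Fin k → Kind k
  | fwd : Kind k
  | bwd : Kind k

/-- the value at time `t` -/
def Kind.val {k : ℕ} : Kind k → Fin k → Fin k
  | .const a, _ => a
  | .fwd, t => t
  | .bwd, t => t.rev

def Kind.active {k : ℕ} : Kind k → Bool
  | .const _ => false
  | .fwd => true
  | .bwd => true

/-- Structure of edges. -/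
theorem edge_structure {k n : ℕ} (hk : 2 ≤ k) {e : Finset (Fin n → Fin k)} (he : IsEdge e) :
    ∃ K : Fin n → Kind k, (∃ i, (K i).active = true) ∧ ∀ t : Fin k, (fun i => (K i).val t) ∈ e := by
  classical
  obtain ⟨hcard, hcol⟩ := he
  rw [collinear_iff_exists_forall_eq_smul_vadd] at hcol
  obtain ⟨p0, v, hv⟩ := hcol
  have hv' : ∀ x ∈ e, ∃ r : ℝ, ∀ i, pt x i = r * v i + p0 i := by
    intro x hx
    obtain ⟨r, hr⟩ := hv (pt x) ⟨x, hx, rfl⟩
    refine ⟨r, fun i => ?_⟩
    rw [hr]; simp
  choose! r hr using hv'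
  have h1 : 1 < e.card := by omega
  obtain ⟨x, hx, y, hy, hxy⟩ := Finset.one_lt_card.mp h1
  obtain ⟨i0, hi0⟩ := Function.ne_iff.mp hxy
  have hvi0 : v i0 ≠ 0 := by
    intro h0
    have e1 := hr x hx i0
    have e2 := hr y hy i0
    rw [h0] at e1 e2
    apply hi0
    have : pt x i0 = pt y i0 := by rw [e1, e2]; ring
    simp only [pt] at this
    exact Fin.ext (by exact_mod_cast (add_right_cancel this))
  -- injectivity of the coordinate `i0`
  have hinj : ∀ x ∈ e, ∀ y ∈ e, x i0 = y i0 → x = y := by
    intro x hx y hy h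
    have e1 := hr x hx i0
    have e2 := hr y hy i0
    have e3 : pt x i0 = pt y i0 := by simp only [pt, h]
    have e4 : r x = r y := by
      rw [e1, e2] at e3
      have := add_right_cancel e3
      exact mul_right_cancel₀ hvi0 this
    funext i
    have e5 := hr x hx i
    have e6 := hr y hy i
    have : pt x i = pt y i := by rw [e5, e6, e4]
    simp only [pt] at this
    exact Fin.ext (by exact_mod_cast (add_right_cancel this))
  have himg : e.image (fun x => x i0) = Finset.univ := by
    apply Finset.eq_univ_of_card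
    rw [Finset.card_image_of_injOn (fun x hx y hy h => hinj x hx y hy h), hcard, Fintype.card_fin]
  have hex : ∀ t : Fin k, ∃ x ∈ e, x i0 = t := by
    intro t
    have : t ∈ e.image (fun x => x i0) := by rw [himg]; exact Finset.mem_univ _
    obtain ⟨x, hx, h⟩ := Finset.mem_image.mp this
    exact ⟨x, hx, h⟩
  choose P hP hPt using hex
  -- each coordinate is affine in t
  have haff : ∀ (i : Fin n), ∃ α β : ℝ, ∀ t : Fin k, ((P t i : ℕ) : ℝ) = α + β * (t : ℕ) := by
    intro i
    refine ⟨(v i / v i0) * (1 - p0 i0) + p0 i - 1, v i / v i0, fun t => ?_⟩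
    have e1 := hr (P t) (hP t) i0
    have e2 := hr (P t) (hP t) i
    simp only [pt, hPt t] at e1 e2
    have e3 : r (P t) = (((t : ℕ) : ℝ) + 1 - p0 i0) / v i0 := by
      rw [eq_div_iff hvi0]; linarith
    rw [e3] at e2
    have e4 : ((P t i : ℕ) : ℝ) = (((t : ℕ) : ℝ) + 1 - p0 i0) / v i0 * v i + p0 i - 1 := by linarith
    rw [e4]; field_simp; ring
  have hkind : ∀ i : Fin n, ∃ κ : Kind k, ∀ t : Fin k, P t i = κ.val t := by
    intro i
    obtain ⟨α, β, hab⟩ := haff i
    let z : Fin k := ⟨0, by omega⟩
    let o : Fin k := ⟨1, by omega⟩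
    let l : Fin k := ⟨k - 1, by omega⟩
    have hz := hab z
    have ho := hab o
    have hl := hab l
    have hzv : ((z : ℕ) : ℝ) = 0 := by simp [z]
    have hov : ((o : ℕ) : ℝ) = 1 := by simp [o]
    have hlv : ((l : ℕ) : ℝ) = (k : ℝ) - 1 := by
      simp only [l]; push_cast [Nat.cast_sub (by omega : 1 ≤ k)]; ring
    rw [hzv] at hz
    rw [hov] at ho
    rw [hlv] at hl
    -- integers
    obtain ⟨b, hb⟩ : ∃ b : ℤ, β = b := ⟨(P o i : ℕ) - (P z i : ℕ), by push_cast; linarith⟩
    have hk1 : (1 : ℤ) ≤ (k : ℤ) - 1 := by omega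
    have hlz : ((P l i : ℕ) : ℤ) = (P z i : ℕ) + b * ((k : ℤ) - 1) := by
      have : ((P l i : ℕ) : ℝ) = (P z i : ℕ) + b * ((k : ℝ) - 1) := by rw [hl, hz, hb]; ring
      exact_mod_cast this
    have hPl := (P l i).isLt
    have hPz := (P z i).isLt
    have hb1 : b ≤ 1 := by
      by_contra hcon
      push Not at hcon
      nlinarith
    have hb2 : -1 ≤ b := by
      by_contra hcon
      push Not at hcon
      nlinarith
    have hgen : ∀ t : Fin k, ((P t i : ℕ) : ℤ) = (P z i : ℕ) + b * (t : ℕ) := by
      intro t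
      have : ((P t i : ℕ) : ℝ) = (P z i : ℕ) + b * (t : ℕ) := by rw [hab t, hz, hb]; ring
      exact_mod_cast this
    have hb3 : b = 0 ∨ b = 1 ∨ b = -1 := by omega
    rcases hb3 with rfl | rfl | rfl
    · refine ⟨.const (P z i), fun t => ?_⟩
      apply Fin.ext
      have := hgen t
      simp only [Kind.val]
      omega
    · refine ⟨.fwd, fun t => ?_⟩
      apply Fin.ext
      have := hgen t
      simp only [Kind.val]
      omega
    · refine ⟨.bwd, fun t => ?_⟩
      apply Fin.ext
      have := hgen t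
      have ht := t.isLt
      simp only [Kind.val, Fin.val_rev]
      omega
  choose K hK using hkind
  refine ⟨K, ⟨i0, ?_⟩, fun t => ?_⟩
  · by_contra hcon
    have hc : ∃ a, K i0 = .const a := by
      cases h : K i0 with
      | const a => exact ⟨a, rfl⟩
      | fwd => rw [h] at hcon; exact absurd rfl hcon
      | bwd => rw [h] at hcon; exact absurd rfl hcon
    obtain ⟨a, ha⟩ := hc
    have e1 := hK i0 ⟨0, by omega⟩
    have e2 := hK i0 ⟨1, by omega⟩
    rw [hPt, ha] at e1 e2
    simp only [Kind.val] at e1 e2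
    have := e1.trans e2.symm
    simp at this
  · have : (fun i => (K i).val t) = P t := by
      funext i; exact (hK i t).symm
    rw [this]; exact hP t

/-- Converse: the parametrised combinatorial lines are edges. -/
theorem edge_of_kinds {k n : ℕ} (K : Fin n → Kind k) (i0 : Fin n)
    (h0 : (K i0).active = true) :
    IsEdge (Finset.univ.image (fun t : Fin k => (fun i => (K i).val t : Fin n → Fin k))) := by
  classical
  constructor
  · rw [Finset.card_image_of_injective, Finset.card_univ, Fintype.card_fin]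
    intro s t hst
    have := congrFun hst i0
    simp only at this
    cases h : K i0 with
    | const a => rw [h] at h0; exact absurd h0 (by simp [Kind.active])
    | fwd => rw [h] at this; exact this
    | bwd => rw [h] at this; exact Fin.rev_injective this
  · rw [collinear_iff_exists_forall_eq_smul_vadd]
    refine ⟨fun i => match K i with
      | .const a => ((a : ℕ) : ℝ) + 1
      | .fwd => 1
      | .bwd => (k : ℝ), fun i => match K i with
      | .const _ => 0
      | .fwd => 1
      | .bwd => -1, ?_⟩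
    rintro _ ⟨x, hx, rfl⟩
    rw [Finset.coe_image] at hx
    obtain ⟨t, _, rfl⟩ := hx
    refine ⟨((t : ℕ) : ℝ), ?_⟩
    funext i
    simp only [pt, Pi.vadd_apply', vadd_eq_add, Pi.add_apply, Pi.smul_apply, smul_eq_mul]
    cases h : K i with
    | const a => simp [Kind.val]
    | fwd => simp [Kind.val]
    | bwd =>
      simp only [Kind.val, Fin.val_rev]
      have := t.isLt
      push_cast [Nat.cast_sub (by omega : (t : ℕ) + 1 ≤ k)]
      ring

end Pool.Agent.helper45.Cube
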