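import Mathlib
import Pool.Agent.helper45.CubeA

/-!
# A bit-parallel check that a bitmask is a 2-colouring of `H(4,n)`, and monotonicity in `n`
-/

namespace Pool.Agent.helper45.Cube

/-- base-4 index of a vertex -/
def idx4 : (n : ℕ) → (Fin n → Fin 4) → ℕ
  | 0, _ => 0
  | n + 1, x => (x 0 : ℕ) * 4 ^ n + idx4 n (fun i => x i.succ)

/-- the checker: `F` is the set of allowed positions given by the constant coordinates, `A t` is
the colour mask shifted by the position of the active coordinates at time `t` -/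
def pchk : (n : ℕ) → (act : Bool) → (F A0 A1 A2 A3 : ℕ) → Bool
  | 0, act, F, A0, A1, A2, A3 =>
    !act || ((A0 &&& A1 &&& A2 &&& A3 &&& F) == 0 && ((A0 ||| A1 ||| A2 ||| A3) &&& F) == F)
  | n + 1, act, F, A0, A1, A2, A3 =>
    pchk n act (F ||| (F <<< 4 ^ n) ||| (F <<< (2 * 4 ^ n)) ||| (F <<< (3 * 4 ^ n))) A0 A1 A2 A3 &&
    pchk n true F A0 (A1 >>> 4 ^ n) (A2 >>> (2 * 4 ^ n)) (A3 >>> (3 * 4 ^ n)) &&
    pchk n true F (A0 >>> (3 * 4 ^ n)) (A1 >>> (2 * 4 ^ n)) (A2 >>> 4 ^ n) A3

theorem pchk_sound : ∀ (n : ℕ) (act : Bool) (F A0 A1 A2 A3 : ℕ),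
    pchk n act F A0 A1 A2 A3 = true → ∀ K : Fin n → Kind 4,
    (act = true ∨ ∃ i, (K i).active = true) → ∀ p : ℕ, F.testBit p = true →
    ¬ (A0.testBit (p + idx4 n (fun i => (K i).val 0)) =
        A1.testBit (p + idx4 n (fun i => (K i).val 1)) ∧
      A1.testBit (p + idx4 n (fun i => (K i).val 1)) =
        A2.testBit (p + idx4 n (fun i => (K i).val 2)) ∧
      A2.testBit (p + idx4 n (fun i => (K i).val 2)) =
        A3.testBit (p + idx4 n (fun i => (K i).val 3)))
  | 0, act, F, A0, A1, A2, A3, h, K, hK, p, hp => by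
    have hact : act = true := by
      rcases hK with h | ⟨i, _⟩
      · exact h
      · exact i.elim0
    subst hact
    simp only [pchk, Bool.not_true, Bool.false_or, Bool.and_eq_true, beq_iff_eq] at h
    obtain ⟨h1, h2⟩ := h
    have e1 := congrArg (fun z => z.testBit p) h1
    have e2 := congrArg (fun z => z.testBit p) h2
    simp only [Nat.testBit_and, Nat.testBit_or, hp, Bool.and_true, Nat.zero_testBit] at e1 e2
    simp only [idx4, add_zero]
    rintro ⟨g1, g2, g3⟩
    rw [g1, g2, g3] at e1 e2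
    simp at e1 e2
    rw [e1] at e2
    exact absurd e2 (by simp)
  | n + 1, act, F, A0, A1, A2, A3, h, K, hK, p, hp => by
    simp only [pchk, Bool.and_eq_true] at h
    obtain ⟨⟨h1, h2⟩, h3⟩ := h
    cases h0 : K 0 with
    | const a =>
      have hK' : act = true ∨ ∃ i, (K (Fin.succ i)).active = true := by
        rcases hK with hK | ⟨i, hi⟩
        · exact Or.inl hK
        · right
          rcases Fin.eq_zero_or_eq_succ i with rfl | ⟨j, rfl⟩
          · rw [h0] at hi; exact absurd hi (by simp [Kind.active])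
          · exact ⟨j, hi⟩
      have hp' : (F ||| (F <<< 4 ^ n) ||| (F <<< (2 * 4 ^ n)) ||| (F <<< (3 * 4 ^ n))).testBit
          (p + (a : ℕ) * 4 ^ n) = true := by
        have ha := a.isLt
        have hcases : (a : ℕ) = 0 ∨ (a : ℕ) = 1 ∨ (a : ℕ) = 2 ∨ (a : ℕ) = 3 := by omega
        simp only [Nat.testBit_or, Bool.or_eq_true, Nat.testBit_shiftLeft]
        rcases hcases with h | h | h | h <;> rw [h]
        · left; left; left; simpa using hp
        · left; left; right
          rw [one_mul, Nat.add_sub_cancel, hp]; simp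
        · left; right
          rw [Nat.add_sub_cancel, hp]; simp
        · right
          rw [Nat.add_sub_cancel, hp]; simp
      have := pchk_sound n _ _ _ _ _ _ h1 (fun i => K i.succ) hK' _ hp'
      have hv : ∀ t, (K 0).val t = a := fun t => by rw [h0]; rfl
      simp only [idx4, hv, ← add_assoc]
      exact this
    | fwd =>
      have := pchk_sound n _ _ _ _ _ _ h2 (fun i => K i.succ) (Or.inl rfl) p hp
      simp only [Nat.testBit_shiftRight] at this
      have hv : ∀ t, (K 0).val t = t := fun t => by rw [h0]; rfl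
      simp only [idx4, hv]
      intro hcon
      apply this
      have e0 : p + (((0 : Fin 4) : ℕ) * 4 ^ n + idx4 n (fun i => (K i.succ).val 0)) =
          p + idx4 n (fun i => (K i.succ).val 0) := by simp
      have e1 : p + (((1 : Fin 4) : ℕ) * 4 ^ n + idx4 n (fun i => (K i.succ).val 1)) =
          4 ^ n + (p + idx4 n (fun i => (K i.succ).val 1)) := by simp; ring
      have e2 : p + (((2 : Fin 4) : ℕ) * 4 ^ n + idx4 n (fun i => (K i.succ).val 2)) =
          2 * 4 ^ n + (p + idx4 n (fun i => (K i.succ).val 2)) := by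
        rw [show ((2 : Fin 4) : ℕ) = 2 from rfl]; ring
      have e3 : p + (((3 : Fin 4) : ℕ) * 4 ^ n + idx4 n (fun i => (K i.succ).val 3)) =
          3 * 4 ^ n + (p + idx4 n (fun i => (K i.succ).val 3)) := by
        rw [show ((3 : Fin 4) : ℕ) = 3 from rfl]; ring
      rw [e0, e1, e2, e3] at hcon
      exact hcon
    | bwd =>
      have := pchk_sound n _ _ _ _ _ _ h3 (fun i => K i.succ) (Or.inl rfl) p hp
      simp only [Nat.testBit_shiftRight] at this
      have hv : ∀ t, (K 0).val t = t.rev := fun t => by rw [h0]; rfl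
      simp only [idx4, hv]
      intro hcon
      apply this
      have e0 : p + (((0 : Fin 4).rev : ℕ) * 4 ^ n + idx4 n (fun i => (K i.succ).val 0)) =
          3 * 4 ^ n + (p + idx4 n (fun i => (K i.succ).val 0)) := by
        rw [show (((0 : Fin 4).rev : Fin 4) : ℕ) = 3 from rfl]; ring
      have e1 : p + (((1 : Fin 4).rev : ℕ) * 4 ^ n + idx4 n (fun i => (K i.succ).val 1)) =
          2 * 4 ^ n + (p + idx4 n (fun i => (K i.succ).val 1)) := by
        rw [show (((1 : Fin 4).rev : Fin 4) : ℕ) = 2 from rfl]; ring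
      have e2 : p + (((2 : Fin 4).rev : ℕ) * 4 ^ n + idx4 n (fun i => (K i.succ).val 2)) =
          4 ^ n + (p + idx4 n (fun i => (K i.succ).val 2)) := by
        rw [show (((2 : Fin 4).rev : Fin 4) : ℕ) = 1 from rfl]; ring
      have e3 : p + (((3 : Fin 4).rev : ℕ) * 4 ^ n + idx4 n (fun i => (K i.succ).val 3)) =
          p + idx4 n (fun i => (K i.succ).val 3) := by
        rw [show (((3 : Fin 4).rev : Fin 4) : ℕ) = 0 from rfl]; ring
      rw [e0, e1, e2, e3] at hcon
      exact hcon

theorem colorable_of_pchk {n M : ℕ} (h : pchk n false 1 M M M M = true) : TwoColorable 4 n := by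
  refine ⟨fun x => M.testBit (idx4 n x), fun e he => ?_⟩
  obtain ⟨K, hact, hK⟩ := edge_structure (by norm_num) he
  have := pchk_sound n _ _ _ _ _ _ h K (Or.inr hact) 0 (by simp)
  by_contra hcon
  push Not at hcon
  apply this
  have hall : ∀ s t : Fin 4, M.testBit (idx4 n (fun i => (K i).val s)) =
      M.testBit (idx4 n (fun i => (K i).val t)) := fun s t => hcon _ (hK s) _ (hK t)
  simp only [zero_add]
  exact ⟨hall 0 1, hall 1 2, hall 2 3⟩

/-- monotonicity in the dimension -/
theorem colorable_of_succ {k n : ℕ} (hk : 2 ≤ k) (h : TwoColorable k (n + 1)) :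
    TwoColorable k n := by
  obtain ⟨c, hc⟩ := h
  let z : Fin k := ⟨0, by omega⟩
  refine ⟨fun x => c (Fin.cons z x), fun e he => ?_⟩
  obtain ⟨K, ⟨i0, hi0⟩, hK⟩ := edge_structure hk he
  let K' : Fin (n + 1) → Kind k := Fin.cons (Kind.const z) K
  have hK' : ∀ t : Fin k, (fun i => (K' i).val t) = Fin.cons z (fun i => (K i).val t) := by
    intro t
    funext i
    rcases Fin.eq_zero_or_eq_succ i with rfl | ⟨j, rfl⟩
    · simp [K', Kind.val]
    · simp [K']
  obtain ⟨x, hx, y, hy, hxy⟩ := hc _ (edge_of_kinds K' i0.succ (by simpa [K'] using hi0))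
  rw [Finset.mem_image] at hx hy
  obtain ⟨s, _, rfl⟩ := hx
  obtain ⟨t, _, rfl⟩ := hy
  refine ⟨_, hK s, _, hK t, ?_⟩
  rw [hK', hK'] at hxy
  exact hxy

theorem colorable_mono {k n m : ℕ} (hk : 2 ≤ k) (hnm : n ≤ m) (h : TwoColorable k m) :
    TwoColorable k n := by
  induction m, hnm using Nat.le_induction with
  | base => exact h
  | succ m _ ih => exact ih (colorable_of_succ hk h)

end Pool.Agent.helper45.Cube
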