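import Mathlib
import Pool.Agent.helper45.CubeA

/-!
# `H(3,n)` is not 2-colourable for `n ≥ 3`
-/

namespace Pool.Agent.helper45.Cube

/-- decision trees -/
inductive Tr where
  | leaf : ℕ → Tr
  | node : ℕ → Tr → Tr → Tr

/-- lookup in a partial assignment -/
def look (σ : List (ℕ × Bool)) (v : ℕ) : Option Bool :=
  match σ with
  | [] => none
  | (u, b) :: σ => if u == v then some b else look σ v

/-- the 49 lines of `{0,1,2}^3`, codes `0,1,2` constant, `3` forward, `4` backward -/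
def codes : List (ℕ × ℕ × ℕ) := [(0, 0, 3), (0, 1, 3), (0, 2, 3), (0, 3, 0), (0, 3, 1), (0, 3,
  2), (0, 3, 3), (0, 3, 4), (1, 0, 3), (1, 1, 3), (1, 2, 3), (1, 3, 0), (1, 3, 1), (1, 3, 2),
  (1, 3, 3), (1, 3, 4), (2, 0, 3), (2, 1, 3), (2, 2, 3), (2, 3, 0), (2, 3, 1), (2, 3, 2), (2, 3,
  3), (2, 3, 4), (3, 0, 0), (3, 0, 1), (3, 0, 2), (3, 0, 3), (3, 0, 4), (3, 1, 0), (3, 1, 1),
  (3, 1, 2), (3, 1, 3), (3, 1, 4), (3, 2, 0), (3, 2, 1), (3, 2, 2), (3, 2, 3), (3, 2, 4), (3, 3,
  0), (3, 3, 1), (3, 3, 2), (3, 3, 3), (3, 3, 4), (3, 4, 0), (3, 4, 1), (3, 4, 2), (3, 4, 3),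
  (3, 4, 4)]

/-- coordinate with code `a` at time `t` -/
def cval (a t : ℕ) : ℕ := if a < 3 then a else if a = 3 then t else 2 - t

/-- index of the point at time `t` on the line with the given code -/
def pidx (K : ℕ × ℕ × ℕ) (t : ℕ) : ℕ := 9 * cval K.1 t + 3 * cval K.2.1 t + cval K.2.2 t

def mono (σ : List (ℕ × Bool)) (K : ℕ × ℕ × ℕ) : Bool :=
  match look σ (pidx K 0), look σ (pidx K 1), look σ (pidx K 2) with
  | some a, some b, some c => a == b && b == c
  | _, _, _ => false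

def refute : Tr → List (ℕ × Bool) → Bool
  | .leaf i, σ => match codes[i]? with
    | some K => mono σ K
    | none => false
  | .node v l r, σ => refute l ((v, true) :: σ) && refute r ((v, false) :: σ)

theorem look_sound {σ : List (ℕ × Bool)} {p : ℕ → Bool} (h : ∀ q ∈ σ, p q.1 = q.2) {v : ℕ}
    {b : Bool} (hb : look σ v = some b) : p v = b := by
  induction σ with
  | nil => simp [look] at hb
  | cons q σ ih =>
    obtain ⟨u, c⟩ := q
    simp only [look] at hb
    split_ifs at hb with huv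
    · have h1 := h (u, c) (by simp)
      simp only [beq_iff_eq] at huv
      subst huv
      simp only [Option.some.injEq] at hb
      rw [← hb]; exact h1
    · exact ih (fun q hq => h q (List.mem_cons_of_mem _ hq)) hb

theorem refute_sound {p : ℕ → Bool} : ∀ (T : Tr) (σ : List (ℕ × Bool)), refute T σ = true →
    (∀ q ∈ σ, p q.1 = q.2) → ∃ K ∈ codes, p (pidx K 0) = p (pidx K 1) ∧ p (pidx K 1) = p (pidx K 2)
  | .leaf i, σ, h, hp => by
    simp only [refute] at h
    cases hi : codes[i]? with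
    | none => rw [hi] at h; exact absurd h (by simp)
    | some K =>
      rw [hi] at h
      simp only [mono] at h
      refine ⟨K, List.mem_of_getElem? hi, ?_⟩
      cases h0 : look σ (pidx K 0) with
      | none => rw [h0] at h; exact absurd h (by simp)
      | some a =>
        cases h1 : look σ (pidx K 1) with
        | none => rw [h0, h1] at h; exact absurd h (by simp)
        | some b =>
          cases h2 : look σ (pidx K 2) with
          | none => rw [h0, h1, h2] at h; exact absurd h (by simp)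
          | some c =>
            rw [h0, h1, h2] at h
            simp only [Bool.and_eq_true, beq_iff_eq] at h
            rw [look_sound hp h0, look_sound hp h1, look_sound hp h2]
            exact h
  | .node v l r, σ, h, hp => by
    simp only [refute, Bool.and_eq_true] at h
    cases hv : p v with
    | true =>
      refine refute_sound l _ h.1 ?_
      intro q hq
      rcases List.mem_cons.mp hq with rfl | hq
      · exact hv
      · exact hp q hq
    | false =>
      refine refute_sound r _ h.2 ?_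
      intro q hq
      rcases List.mem_cons.mp hq with rfl | hq
      · exact hv
      · exact hp q hq

def tree : Tr := (.node 0 (.node 1 (.node 2 (.leaf 0) (.node 6 (.node 3 (.leaf 3) (.node 10
  (.node 19 (.leaf 25) (.node 20 (.leaf 27) (.node 18 (.node 9 (.leaf 24) (.node 11 (.node 12
  (.leaf 44) (.node 15 (.node 13 (.leaf 15) (.node 14 (.node 17 (.leaf 13) (.leaf 14)) (.leaf
  9))) (.leaf 11))) (.leaf 26))) (.leaf 16)))) (.node 18 (.node 9 (.leaf 24) (.node 11 (.node 12
  (.leaf 44) (.node 15 (.node 13 (.leaf 15) (.node 14 (.node 16 (.node 17 (.leaf 10) (.leaf 14))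
  (.leaf 12)) (.leaf 9))) (.leaf 11))) (.leaf 8))) (.leaf 28)))) (.node 4 (.node 7 (.leaf 4)
  (.node 8 (.leaf 6) (.leaf 2))) (.leaf 7)))) (.node 7 (.node 13 (.node 26 (.leaf 42) (.node 19
  (.leaf 45) (.node 10 (.node 16 (.leaf 12) (.node 20 (.leaf 27) (.node 18 (.node 23 (.node 9
  (.leaf 24) (.node 2 (.leaf 28) (.node 11 (.node 15 (.leaf 15) (.node 17 (.node 12 (.node 14
  (.leaf 9) (.leaf 41)) (.leaf 11)) (.leaf 10))) (.leaf 26)))) (.leaf 21)) (.leaf 16)))) (.leaf
  25)))) (.node 25 (.node 16 (.leaf 35) (.node 10 (.node 20 (.leaf 27) (.node 6 (.node 8 (.leaf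
  2) (.node 3 (.leaf 3) (.node 23 (.node 24 (.node 26 (.leaf 18) (.node 15 (.leaf 34) (.node 17
  (.node 11 (.node 9 (.leaf 8) (.node 12 (.leaf 39) (.leaf 11))) (.leaf 15)) (.leaf 10))))
  (.leaf 38)) (.leaf 32)))) (.leaf 47))) (.leaf 12))) (.leaf 40))) (.node 4 (.node 8 (.leaf 6)
  (.node 6 (.node 3 (.leaf 3) (.node 2 (.leaf 7) (.node 5 (.node 10 (.node 20 (.leaf 27) (.node
  11 (.node 9 (.leaf 8) (.node 14 (.node 17 (.leaf 13) (.node 13 (.node 12 (.leaf 9) (.node 15
  (.leaf 15) (.leaf 11))) (.leaf 14))) (.leaf 46))) (.leaf 26))) (.node 19 (.node 18 (.node 20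
  (.leaf 16) (.node 9 (.leaf 24) (.node 11 (.node 12 (.leaf 44) (.node 15 (.node 13 (.leaf 15)
  (.node 14 (.node 16 (.node 17 (.leaf 10) (.leaf 14)) (.leaf 12)) (.leaf 9))) (.leaf 11)))
  (.leaf 8)))) (.leaf 28)) (.leaf 25))) (.leaf 5)))) (.leaf 2))) (.leaf 4)))) (.node 1 (.node 7
  (.node 4 (.leaf 4) (.node 8 (.node 6 (.leaf 2) (.node 3 (.node 2 (.node 5 (.leaf 5) (.node 10
  (.node 19 (.leaf 25) (.node 18 (.leaf 28) (.node 20 (.node 9 (.node 11 (.leaf 8) (.node 12
  (.node 15 (.leaf 11) (.node 13 (.node 14 (.leaf 9) (.node 16 (.leaf 12) (.node 17 (.leaf 14)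
  (.leaf 10)))) (.leaf 15))) (.leaf 44))) (.leaf 24)) (.leaf 16)))) (.node 20 (.node 11 (.leaf
  26) (.node 9 (.node 14 (.leaf 46) (.node 17 (.node 13 (.leaf 14) (.node 12 (.node 15 (.leaf
  11) (.leaf 15)) (.leaf 9))) (.leaf 13))) (.leaf 8))) (.leaf 27)))) (.leaf 7)) (.leaf 3)))
  (.leaf 6))) (.node 13 (.node 25 (.leaf 40) (.node 16 (.node 10 (.leaf 12) (.node 20 (.node 6
  (.leaf 47) (.node 8 (.node 3 (.node 23 (.leaf 32) (.node 24 (.leaf 38) (.node 26 (.node 15
  (.node 17 (.leaf 10) (.node 11 (.leaf 15) (.node 9 (.node 12 (.leaf 11) (.leaf 39)) (.leaf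
  8)))) (.leaf 34)) (.leaf 18)))) (.leaf 3)) (.leaf 2))) (.leaf 27))) (.leaf 35))) (.node 26
  (.node 19 (.node 10 (.leaf 25) (.node 16 (.node 20 (.node 18 (.leaf 16) (.node 23 (.leaf 21)
  (.node 9 (.node 2 (.node 11 (.leaf 26) (.node 15 (.node 17 (.leaf 10) (.node 12 (.leaf 11)
  (.node 14 (.leaf 41) (.leaf 9)))) (.leaf 15))) (.leaf 28)) (.leaf 24)))) (.leaf 27)) (.leaf
  12))) (.leaf 45)) (.leaf 42)))) (.node 2 (.node 6 (.node 4 (.leaf 7) (.node 7 (.node 8 (.leaf
  2) (.leaf 6)) (.leaf 4))) (.node 3 (.node 10 (.node 18 (.leaf 28) (.node 9 (.node 11 (.leaf 8)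
  (.node 12 (.node 15 (.leaf 11) (.node 13 (.node 14 (.leaf 9) (.node 16 (.leaf 12) (.node 17
  (.leaf 14) (.leaf 10)))) (.leaf 15))) (.leaf 44))) (.leaf 24))) (.node 19 (.node 20 (.node 18
  (.leaf 16) (.node 9 (.node 11 (.leaf 26) (.node 12 (.node 15 (.leaf 11) (.node 13 (.node 14
  (.leaf 9) (.node 17 (.leaf 14) (.leaf 13))) (.leaf 15))) (.leaf 44))) (.leaf 24))) (.leaf 27))
  (.leaf 25))) (.leaf 3))) (.leaf 0))))

theorem refute_tree : refute tree [] = true := by decide +kernel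

/-- the kind of a code -/
def kindOf (a : ℕ) : Kind 3 :=
  if a = 0 then .const 0 else if a = 1 then .const 1 else if a = 2 then .const 2
  else if a = 3 then .fwd else .bwd

theorem kindOf_val : ∀ a : Fin 5, ∀ t : Fin 3, (((kindOf a).val t : Fin 3) : ℕ) = cval a t := by
  decide +kernel

theorem codes_ok : ∀ K ∈ codes, K.1 < 5 ∧ K.2.1 < 5 ∧ K.2.2 < 5 ∧
    ((kindOf K.1).active = true ∨ (kindOf K.2.1).active = true ∨ (kindOf K.2.2).active = true) := by
  decide +kernel

theorem not_colorable_three {n : ℕ} (hn : 3 ≤ n) : ¬ TwoColorable 3 n := by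
  rintro ⟨c, hc⟩
  -- the vertex with index `v`
  let vx : ℕ → (Fin n → Fin 3) := fun v i =>
    if (i : ℕ) = 0 then ⟨v / 9 % 3, by omega⟩ else if (i : ℕ) = 1 then ⟨v / 3 % 3, by omega⟩
    else if (i : ℕ) = 2 then ⟨v % 3, by omega⟩ else 0
  obtain ⟨K, hK, h01, h12⟩ := refute_sound (p := fun v => c (vx v)) tree [] refute_tree (by simp)
  obtain ⟨k1, k2, k3, hact⟩ := codes_ok K hK
  let KK : Fin n → Kind 3 := fun i =>
    if (i : ℕ) = 0 then kindOf K.1 else if (i : ℕ) = 1 then kindOf K.2.1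
    else if (i : ℕ) = 2 then kindOf K.2.2 else .const 0
  have hpt : ∀ t : Fin 3, (fun i => (KK i).val t) = vx (pidx K t) := by
    intro t
    have e1 := kindOf_val ⟨K.1, k1⟩ t
    have e2 := kindOf_val ⟨K.2.1, k2⟩ t
    have e3 := kindOf_val ⟨K.2.2, k3⟩ t
    simp only at e1 e2 e3
    have b1 := ((kindOf K.1).val t).isLt
    have b2 := ((kindOf K.2.1).val t).isLt
    have b3 := ((kindOf K.2.2).val t).isLt
    funext i
    apply Fin.ext
    simp only [KK, vx, pidx]
    by_cases h0 : (i : ℕ) = 0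
    · simp only [h0, if_true]
      rw [e1] at b1 ⊢
      rw [e2] at b2; rw [e3] at b3
      omega
    · by_cases h1 : (i : ℕ) = 1
      · simp only [h1, if_true, if_neg (show ¬ (1 = 0) by norm_num)]
        rw [e1] at b1; rw [e2] at b2 ⊢; rw [e3] at b3
        omega
      · by_cases h2 : (i : ℕ) = 2
        · simp only [h2, if_true, if_neg (show ¬ (2 = 0) by norm_num),
            if_neg (show ¬ (2 = 1) by norm_num)]
          rw [e1] at b1; rw [e2] at b2; rw [e3] at b3 ⊢
          omega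
        · simp only [if_neg h0, if_neg h1, if_neg h2, Kind.val]
  have hactive : ∃ i, (KK i).active = true := by
    rcases hact with h | h | h
    · exact ⟨⟨0, by omega⟩, by simpa [KK] using h⟩
    · exact ⟨⟨1, by omega⟩, by simpa [KK] using h⟩
    · exact ⟨⟨2, by omega⟩, by simpa [KK] using h⟩
  obtain ⟨i0, hi0⟩ := hactive
  obtain ⟨x, hx, y, hy, hxy⟩ := hc _ (edge_of_kinds KK i0 hi0)
  rw [Finset.mem_image] at hx hy
  obtain ⟨s, _, rfl⟩ := hx
  obtain ⟨t, _, rfl⟩ := hy
  apply hxy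
  have hall : ∀ t : Fin 3, c (fun i => (KK i).val t) = c (vx (pidx K 1)) := by
    intro t
    rw [hpt t]
    fin_cases t
    · exact h01
    · rfl
    · exact h12.symm
  exact (hall s).trans (hall t).symm

end Pool.Agent.helper45.Cube
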