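import Mathlib
import Pool.Agent.helper45.CubeA

/-!
# `H(k,n)` is 2-colourable for `k ≥ 2⌊log₂ n⌋ + 2`
-/

namespace Pool.Agent.helper45.Cube

open Finset

/-- sum of weights over a line: `C + j w(t) + l w(k-1-t)` -/
theorem line_sum {k n : ℕ} (w : Fin k → ℕ) (K : Fin n → Kind k) :
    ∃ C j l : ℕ, j + l ≤ n ∧ ((∃ i, (K i).active = true) → 1 ≤ j + l) ∧
      ∀ t : Fin k, ∑ i, w ((K i).val t) = C + j * w t + l * w t.rev := by
  induction n with
  | zero =>
    refine ⟨0, 0, 0, le_refl _, ?_, fun t => by simp⟩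
    rintro ⟨i, _⟩; exact i.elim0
  | succ n ih =>
    obtain ⟨C, j, l, h1, h2, h3⟩ := ih (fun i => K i.succ)
    have hact : (∃ i, (K i).active = true) → (K 0).active = true ∨ ∃ i, (K (Fin.succ i)).active = true := by
      rintro ⟨i, hi⟩
      rcases Fin.eq_zero_or_eq_succ i with rfl | ⟨j, rfl⟩
      · exact Or.inl hi
      · exact Or.inr ⟨j, hi⟩
    cases h0 : K 0 with
    | const a =>
      refine ⟨C + w a, j, l, by omega, ?_, fun t => ?_⟩
      · intro h
        rcases hact h with h | h
        · rw [h0] at h; exact absurd h (by simp [Kind.active])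
        · exact h2 h
      · rw [Fin.sum_univ_succ, h3 t, h0]
        have : (Kind.const a).val t = a := rfl
        rw [this]; ring
    | fwd =>
      refine ⟨C, j + 1, l, by omega, fun _ => by omega, fun t => ?_⟩
      rw [Fin.sum_univ_succ, h3 t, h0]
      have : (Kind.fwd : Kind k).val t = t := rfl
      rw [this]; ring
    | bwd =>
      refine ⟨C, j, l + 1, by omega, fun _ => by omega, fun t => ?_⟩
      rw [Fin.sum_univ_succ, h3 t, h0]
      have : (Kind.bwd : Kind k).val t = t.rev := rfl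
      rw [this]; ring

/-- adding an odd multiple of `2^r` flips bit `r` -/
theorem testBit_add_odd_mul (r x q : ℕ) (hq : Odd q) :
    (x + 2 ^ r * q).testBit r = !x.testBit r := by
  rw [Nat.testBit_eq_decide_div_mod_eq, Nat.testBit_eq_decide_div_mod_eq,
    Nat.add_mul_div_left _ _ (by positivity)]
  obtain ⟨m, rfl⟩ := hq
  rcases Nat.mod_two_eq_zero_or_one (x / 2 ^ r) with h | h
  · have : (x / 2 ^ r + (2 * m + 1)) % 2 = 1 := by omega
    simp [h, this]
  · have : (x / 2 ^ r + (2 * m + 1)) % 2 = 0 := by omega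
    simp [h, this]

/-- the weights: `2^(r-t) + 1` for `t < r-1`, `2` at `r-1`, `0` at `k-r`, and `1` elsewhere -/
def wt (k r : ℕ) (t : Fin k) : ℕ :=
  if (t : ℕ) + 1 < r then 2 ^ (r - t) + 1 else if (t : ℕ) + 1 = r then 2
  else if (t : ℕ) + r = k then 0 else 1

theorem colorable_of_pow {k n r : ℕ} (hr : 1 ≤ r) (hn : n < 2 ^ r) (hk : 2 * r ≤ k) :
    TwoColorable k n := by
  refine ⟨fun x => (∑ i, wt k r (x i)).testBit r, fun e he => ?_⟩
  obtain ⟨K, hact, hK⟩ := edge_structure (by omega) he
  obtain ⟨C, j, l, h1, h2, h3⟩ := line_sum (wt k r) K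
  have h2' := h2 hact
  by_contra hcon
  push Not at hcon
  have key : ∀ s t : Fin k, (C + j * wt k r s + l * wt k r s.rev).testBit r =
      (C + j * wt k r t + l * wt k r t.rev).testBit r := by
    intro s t
    rw [← h3 s, ← h3 t]
    exact hcon _ (hK s) _ (hK t)
  -- a contradiction from two positions whose values differ by an odd multiple of `2^r`
  have fin : ∀ (s t : Fin k) (q : ℕ), Odd q →
      C + j * wt k r s + l * wt k r s.rev = C + j * wt k r t + l * wt k r t.rev + 2 ^ r * q →
      False := by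
    intro s t q hq h
    have := key s t
    rw [h, testBit_add_odd_mul _ _ _ hq] at this
    cases hh : (C + j * wt k r t + l * wt k r t.rev).testBit r <;> rw [hh] at this <;>
      simp at this
  -- values of the weights
  have wlow : ∀ t : Fin k, (t : ℕ) + 1 < r → wt k r t = 2 ^ (r - t) + 1 := by
    intro t ht; rw [wt, if_pos ht]
  have wlow' : ∀ t : Fin k, (t : ℕ) + 1 < r → wt k r t.rev = 1 := by
    intro t ht
    have e : (t.rev : ℕ) = k - (t + 1) := Fin.val_rev t
    rw [wt, if_neg (by omega), if_neg (by omega), if_neg (by omega)]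
  have wmid : ∀ t : Fin k, (t : ℕ) + 1 = r → wt k r t = 2 := by
    intro t ht; rw [wt, if_neg (by omega), if_pos ht]
  have wmid' : ∀ t : Fin k, (t : ℕ) + 1 = r → wt k r t.rev = 0 := by
    intro t ht
    have e : (t.rev : ℕ) = k - (t + 1) := Fin.val_rev t
    rw [wt, if_neg (by omega), if_neg (by omega), if_pos (by omega)]
  -- the case `l < j`
  have caseA : ∀ d : ℕ, 0 < d → d ≤ n →
      (∃ u q : ℕ, Odd q ∧ d = 2 ^ u * q ∧ u < r) := by
    intro d hd hdn
    obtain ⟨u, q, hq, hu⟩ := Nat.exists_eq_two_pow_mul_odd (n := d) (by omega)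
    refine ⟨u, q, hq, hu, ?_⟩
    by_contra hcon2
    push Not at hcon2
    have g1 : 2 ^ r ≤ 2 ^ u := Nat.pow_le_pow_right (by norm_num) hcon2
    have g2 : 2 ^ u * 1 ≤ 2 ^ u * q := Nat.mul_le_mul_left _ hq.pos
    omega
  have hpow : ∀ u, u < r → 2 ^ u * 2 ^ (r - u) = 2 ^ r := by
    intro u hu; rw [← pow_add]; congr 1; omega
  rcases lt_trichotomy j l with hjl | hjl | hjl
  · obtain ⟨u, q, hq, hd, hu⟩ := caseA (l - j) (by omega) (by omega)
    let s : Fin k := ⟨u, by omega⟩
    have hl : l = j + 2 ^ u * q := by omega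
    by_cases hu' : u + 1 < r
    · refine fin s.rev s q hq ?_
      rw [Fin.rev_rev, wlow s hu', wlow' s hu', hl]
      simp only [s]
      rw [← hpow u hu]; ring
    · have hu2 : u + 1 = r := by omega
      refine fin s.rev s q hq ?_
      rw [Fin.rev_rev, wmid s hu2, wmid' s hu2, hl]
      rw [show 2 ^ r = 2 * 2 ^ u by rw [← hu2, pow_succ]; ring]; ring
  · -- `j = l`
    subst hjl
    obtain ⟨u, q, hq, hd, _⟩ := caseA j (by omega) (by omega)
    have hu : u + 1 < r := by
      by_contra hcon2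
      have g0 : 2 ^ r ≤ 2 ^ (u + 1) := Nat.pow_le_pow_right (by norm_num) (by omega)
      have g2 : 2 ^ u * 1 ≤ 2 ^ u * q := Nat.mul_le_mul_left _ hq.pos
      rw [pow_succ] at g0
      omega
    let s : Fin k := ⟨u, by omega⟩
    let t : Fin k := ⟨r - 1, by omega⟩
    refine fin s t q hq ?_
    rw [wlow s hu, wlow' s hu, wmid t (by simp only [t]; omega), wmid' t (by simp only [t]; omega)]
    simp only [s]
    rw [← hpow u (by omega), hd]; ring
  · obtain ⟨u, q, hq, hd, hu⟩ := caseA (j - l) (by omega) (by omega)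
    let s : Fin k := ⟨u, by omega⟩
    have hl : j = l + 2 ^ u * q := by omega
    by_cases hu' : u + 1 < r
    · refine fin s s.rev q hq ?_
      rw [Fin.rev_rev, wlow s hu', wlow' s hu', hl]
      simp only [s]
      rw [← hpow u hu]; ring
    · have hu2 : u + 1 = r := by omega
      refine fin s s.rev q hq ?_
      rw [Fin.rev_rev, wmid s hu2, wmid' s hu2, hl]
      rw [show 2 ^ r = 2 * 2 ^ u by rw [← hu2, pow_succ]; ring]; ring

/-- The explicit bound. -/
theorem colorable_log2 {k n : ℕ} (hk : 2 * Nat.log 2 n + 2 ≤ k) : TwoColorable k n :=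
  colorable_of_pow (r := Nat.log 2 n + 1) (by omega)
    (Nat.lt_pow_succ_log_self (by norm_num) n) (by omega)

end Pool.Agent.helper45.Cube
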