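import Mathlib

/-! Reduced simplicial homology of order complexes of posets, in low degrees. -/

namespace Pool.Agent.helper45.OC

open Finsupp

/-- The chains with `n` elements of a poset `Q`, listed increasingly. -/
abbrev Chain (Q : Type*) [PartialOrder Q] (n : ℕ) := {c : Fin n → Q // StrictMono c}

/-- Delete the `i`-th element of a chain. -/
def Chain.erase {Q : Type*} [PartialOrder Q] {n : ℕ} (c : Chain Q (n + 1)) (i : Fin (n + 1)) :
    Chain Q n :=
  ⟨c.1 ∘ i.succAbove, c.2.comp i.strictMono_succAbove⟩

/-- The boundary map of the augmented simplicial chain complex (with coefficients in `k`) of the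
order complex of `Q`.  The chains with `n` elements are its simplices of dimension `n - 1`. -/
noncomputable def boundary (k : Type*) [Field k] (Q : Type*) [PartialOrder Q] (n : ℕ) :
    (Chain Q (n + 1) →₀ k) →ₗ[k] (Chain Q n →₀ k) :=
  Finsupp.linearCombination k
    (fun c => ∑ i : Fin (n + 1), (-1 : k) ^ (i : ℕ) • Finsupp.single (c.erase i) 1)

/-- `HomologyVanishes k Q n` says that the reduced homology of the order complex of `Q` with
coefficients in `k` vanishes in dimension `n - 1`. -/
def HomologyVanishes (k : Type*) [Field k] (Q : Type*) [PartialOrder Q] : ℕ → Prop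
  | 0 => Function.Surjective (boundary k Q 0)
  | n + 1 => ∀ z, boundary k Q n z = 0 → ∃ w, boundary k Q (n + 1) w = z

/-- The poset whose order complex is the link of the simplex `c` in the order complex of `Q`. -/
abbrev Link {Q : Type*} [PartialOrder Q] {m : ℕ} (c : Chain Q m) :=
  {x : Q // ∀ i, x < c.1 i ∨ c.1 i < x}

/-- The order complex of `Q` is Cohen-Macaulay over `k` (Reisner's criterion): for every simplex
(the empty one included) the reduced homology of its link vanishes below the dimension of the
link. -/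
def CohenMacaulay (k : Type*) [Field k] (Q : Type*) [PartialOrder Q] : Prop :=
  ∀ (m : ℕ) (c : Chain Q m) (n : ℕ), Nonempty (Chain (Link c) (n + 1)) →
    HomologyVanishes k (Link c) n

section

variable {k : Type*} [Field k] {Q : Type*} [PartialOrder Q]

lemma boundary_single (n : ℕ) (c : Chain Q (n + 1)) :
    boundary k Q n (Finsupp.single c 1) =
      ∑ i : Fin (n + 1), (-1 : k) ^ (i : ℕ) • Finsupp.single (c.erase i) 1 := by
  unfold boundary
  rw [Finsupp.linearCombination_single, one_smul]

/-- one-element chain -/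
def ch1 (a : Q) : Chain Q 1 := ⟨![a], by
  intro i j h
  have : i = j := Subsingleton.elim i j
  exact absurd h (by rw [this]; exact lt_irrefl _)⟩

lemma strictMono_two {a b : Q} (h : a < b) : StrictMono ![a, b] := by
  intro i j hij
  fin_cases i <;> fin_cases j <;> simp_all

lemma strictMono_three {a b c : Q} (h : a < b) (h' : b < c) : StrictMono ![a, b, c] := by
  intro i j hij
  fin_cases i <;> fin_cases j <;> simp_all [lt_trans h h']

/-- two-element chain -/
def ch2 (a b : Q) (h : a < b) : Chain Q 2 := ⟨![a, b], strictMono_two h⟩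

/-- three-element chain -/
def ch3 (a b c : Q) (h : a < b) (h' : b < c) : Chain Q 3 := ⟨![a, b, c], strictMono_three h h'⟩

lemma eq_ch1 (c : Chain Q 1) : c = ch1 (c.1 0) := by
  apply Subtype.ext
  funext i
  have : i = 0 := Subsingleton.elim _ _
  rw [this]
  rfl

lemma eq_ch2 (c : Chain Q 2) : c = ch2 (c.1 0) (c.1 1) (c.2 (by decide)) := by
  apply Subtype.ext
  funext i
  fin_cases i <;> rfl

lemma boundary_ch2 {a b : Q} (h : a < b) :
    boundary k Q 1 (Finsupp.single (ch2 a b h) 1) =
      Finsupp.single (ch1 b) 1 - Finsupp.single (ch1 a) 1 := by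
  rw [boundary_single]
  rw [Fin.sum_univ_two]
  have e0 : (ch2 a b h).erase 0 = ch1 b := by
    apply Subtype.ext; funext i; fin_cases i; rfl
  have e1 : (ch2 a b h).erase 1 = ch1 a := by
    apply Subtype.ext; funext i; fin_cases i; rfl
  rw [e0, e1]
  simp [sub_eq_add_neg]

lemma boundary_ch3 {a b c : Q} (h : a < b) (h' : b < c) :
    boundary k Q 2 (Finsupp.single (ch3 a b c h h') 1) =
      Finsupp.single (ch2 b c h') 1 - Finsupp.single (ch2 a c (h.trans h')) 1
        + Finsupp.single (ch2 a b h) 1 := by
  rw [boundary_single]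
  rw [Fin.sum_univ_three]
  have e0 : (ch3 a b c h h').erase 0 = ch2 b c h' := by
    apply Subtype.ext; funext i; fin_cases i <;> rfl
  have e1 : (ch3 a b c h h').erase 1 = ch2 a c (h.trans h') := by
    apply Subtype.ext; funext i; fin_cases i <;> rfl
  have e2 : (ch3 a b c h h').erase 2 = ch2 a b h := by
    apply Subtype.ext; funext i; fin_cases i <;> rfl
  rw [e0, e1, e2]
  simp [sub_eq_add_neg]

lemma hv_zero_of_nonempty (h : Nonempty Q) : HomologyVanishes k Q 0 := by
  obtain ⟨q⟩ := h
  intro z
  have hsub : Subsingleton (Chain Q 0) := ⟨fun a b => Subtype.ext (funext fun i => i.elim0)⟩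
  let e : Chain Q 0 := (ch1 q).erase 0
  refine ⟨Finsupp.single (ch1 q) (z e), ?_⟩
  unfold boundary
  rw [Finsupp.linearCombination_single]
  ext c
  have hc : c = e := Subsingleton.elim _ _
  subst hc
  simp [e]

lemma hv_one_of_conn (hQ : ∀ f : Q → k, (∀ a b, a < b → f a = f b) → ∀ a b, f a = f b) :
    HomologyVanishes k Q 1 := by
  intro z hz
  by_contra hcon
  have hz' : z ∉ LinearMap.range (boundary k Q 1) := by
    rintro ⟨w, hw⟩
    exact hcon ⟨w, hw⟩
  obtain ⟨φ, hφ, hφr⟩ := Submodule.exists_le_ker_of_notMem hz'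
  apply hφ
  let f : Q → k := fun q => φ (Finsupp.single (ch1 q) 1)
  have hf : ∀ a b, a < b → f a = f b := by
    intro a b hab
    have h1 : φ (boundary k Q 1 (Finsupp.single (ch2 a b hab) 1)) = 0 :=
      hφr ⟨_, rfl⟩
    rw [boundary_ch2, map_sub] at h1
    exact (sub_eq_zero.mp h1).symm
  have hconst := hQ f hf
  rcases isEmpty_or_nonempty Q with hE | ⟨⟨q⟩⟩
  · have : z = 0 := by
      ext c
      exact (hE.false (c.1 0)).elim
    rw [this, map_zero]
  · let e : Chain Q 0 := (ch1 q).erase 0
    have hsub : Subsingleton (Chain Q 0) := ⟨fun a b => Subtype.ext (funext fun i => i.elim0)⟩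
    have key : φ = (f q) • ((Finsupp.lapply e : (Chain Q 0 →₀ k) →ₗ[k] k) ∘ₗ boundary k Q 0) := by
      apply Finsupp.lhom_ext
      intro c b
      have hb : (Finsupp.single c b : Chain Q 1 →₀ k) = b • Finsupp.single c 1 := by simp
      rw [hb, map_smul, map_smul]
      congr 1
      rw [eq_ch1 c]
      have h1 : φ (Finsupp.single (ch1 (c.1 0)) 1) = f q := hconst (c.1 0) q
      rw [h1]
      simp only [LinearMap.smul_apply, LinearMap.comp_apply, boundary_single]
      have h2 : (ch1 (c.1 0)).erase 0 = e := Subsingleton.elim _ _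
      simp [h2]
    rw [key]
    simp [hz]

lemma hv_two_of_sc (hQ : ∀ g : Q → Q → k, (∀ a b c, a < b → b < c → g a c = g a b + g b c) →
      ∃ f : Q → k, ∀ a b, a < b → g a b = f b - f a) :
    HomologyVanishes k Q 2 := by
  classical
  intro z hz
  by_contra hcon
  have hz' : z ∉ LinearMap.range (boundary k Q 2) := by
    rintro ⟨w, hw⟩
    exact hcon ⟨w, hw⟩
  obtain ⟨φ, hφ, hφr⟩ := Submodule.exists_le_ker_of_notMem hz'
  apply hφ
  let g : Q → Q → k := fun a b => if h : a < b then φ (Finsupp.single (ch2 a b h) 1) else 0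
  have hg : ∀ a b (h : a < b), g a b = φ (Finsupp.single (ch2 a b h) 1) := by
    intro a b h
    simp only [g, h, dite_true]
  obtain ⟨f, hf⟩ := hQ g (by
    intro a b c hab hbc
    have h1 : φ (boundary k Q 2 (Finsupp.single (ch3 a b c hab hbc) 1)) = 0 :=
      hφr ⟨_, rfl⟩
    rw [boundary_ch3, map_add, map_sub, ← hg, ← hg, ← hg] at h1
    linear_combination (-1 : k) * h1)
  have key : φ = (Finsupp.linearCombination k (fun c : Chain Q 1 => f (c.1 0))) ∘ₗ
      boundary k Q 1 := by
    apply Finsupp.lhom_ext
    intro c b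
    have hb : (Finsupp.single c b : Chain Q 2 →₀ k) = b • Finsupp.single c 1 := by simp
    rw [hb, map_smul, map_smul]
    congr 1
    have hc := eq_ch2 c
    rw [hc, ← hg, hf _ _ (c.2 (by decide)), LinearMap.comp_apply, boundary_ch2, map_sub,
      Finsupp.linearCombination_single, Finsupp.linearCombination_single]
    simp [ch1]
  rw [key, LinearMap.comp_apply, hz, map_zero]

end

end Pool.Agent.helper45.OC
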