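import Mathlib
import Pool.Agent.helper45.OC1

/-! A Cohen-Macaulay criterion for posets of rank three, and list-based checks. -/

namespace Pool.Agent.helper45.OC

lemma cohenMacaulay_of_rank_three {k : Type*} [Field k] {Q : Type*} [PartialOrder Q]
    (ρ : Q → Fin 3) (hρ : ∀ a b : Q, a < b → ρ a < ρ b)
    (h1 : ∀ f : Q → k, (∀ a b, a < b → f a = f b) → ∀ a b, f a = f b)
    (h2 : ∀ g : Q → Q → k, (∀ a b c, a < b → b < c → g a c = g a b + g b c) →
      ∃ f : Q → k, ∀ a b, a < b → g a b = f b - f a)
    (h3 : ∀ c : Chain Q 1, ∀ f : Link c → k, (∀ a b, a < b → f a = f b) → ∀ a b, f a = f b) :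
    CohenMacaulay k Q := by
  intro m c n ⟨d⟩
  have hle : n + 1 + m ≤ 3 := by
    let φ : Fin (n + 1) ⊕ Fin m → Fin 3 := Sum.elim (fun i => ρ (d.1 i).1) (fun j => ρ (c.1 j))
    have hφ : Function.Injective φ := by
      rintro (i | i) (j | j) hij
      · simp only [φ, Sum.elim_inl] at hij
        congr 1
        by_contra hne
        rcases lt_or_gt_of_ne hne with h | h
        · have := hρ _ _ (d.2 h : (d.1 i).1 < (d.1 j).1)
          rw [hij] at this; exact lt_irrefl _ this
        · have := hρ _ _ (d.2 h : (d.1 j).1 < (d.1 i).1)
          rw [hij] at this; exact lt_irrefl _ this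
      · simp only [φ, Sum.elim_inl, Sum.elim_inr] at hij
        rcases (d.1 i).2 j with h | h
        · have := hρ _ _ h
          rw [hij] at this; exact absurd this (lt_irrefl _)
        · have := hρ _ _ h
          rw [hij] at this; exact absurd this (lt_irrefl _)
      · simp only [φ, Sum.elim_inl, Sum.elim_inr] at hij
        rcases (d.1 j).2 i with h | h
        · have := hρ _ _ h
          rw [hij] at this; exact absurd this (lt_irrefl _)
        · have := hρ _ _ h
          rw [hij] at this; exact absurd this (lt_irrefl _)
      · simp only [φ, Sum.elim_inr] at hij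
        congr 1
        by_contra hne
        rcases lt_or_gt_of_ne hne with h | h
        · have := hρ _ _ (c.2 h)
          rw [hij] at this; exact lt_irrefl _ this
        · have := hρ _ _ (c.2 h)
          rw [hij] at this; exact lt_irrefl _ this
    have := Fintype.card_le_of_injective φ hφ
    simpa using this
  have hne : Nonempty (Link c) := ⟨d.1 0⟩
  match n, m, c, hle, hne with
  | 0, _, _, _, hne => exact hv_zero_of_nonempty hne
  | 1, 0, c, _, _ =>
    apply hv_one_of_conn
    intro f hf a b
    have := h1 (fun q => f ⟨q, fun i => i.elim0⟩) (fun a b hab => hf _ _ hab) a.1 b.1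
    exact this
  | 1, 1, c, _, _ => exact hv_one_of_conn (h3 c)
  | 1, m + 2, _, hle, _ => omega
  | 2, 0, c, _, _ =>
    apply hv_two_of_sc
    intro g hg
    obtain ⟨f, hf⟩ := h2 (fun a b => g ⟨a, fun i => i.elim0⟩ ⟨b, fun i => i.elim0⟩)
      (fun a b c hab hbc => hg _ _ _ hab hbc)
    exact ⟨fun q => f q.1, fun a b hab => hf a.1 b.1 hab⟩
  | 2, m + 1, _, hle, _ => omega
  | n + 3, _, _, hle, _ => omega

/-- comparability -/
def cmp (lt : ℕ → ℕ → Bool) (x y : ℕ) : Bool := lt x y || lt y x

/-- flood fill -/
def connAux (lt : ℕ → ℕ → Bool) : ℕ → List ℕ → List ℕ → Bool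
  | 0, _, rest => rest.isEmpty
  | f + 1, cur, rest =>
      connAux lt f (cur ++ rest.filter (fun y => cur.any fun x => cmp lt x y))
        (rest.filter (fun y => !(cur.any fun x => cmp lt x y)))

/-- the comparability graph on the list is nonempty and connected -/
def conn (lt : ℕ → ℕ → Bool) : List ℕ → Bool
  | [] => false
  | a :: l => connAux lt 12 [a] l

lemma connAux_sound {k : Type*} (lt : ℕ → ℕ → Bool) (F : ℕ → k) (t : k) :
    ∀ (f : ℕ) (cur rest : List ℕ),
      (∀ x ∈ cur ++ rest, ∀ y ∈ cur ++ rest, lt x y = true → F x = F y) →
      (∀ x ∈ cur, F x = t) → connAux lt f cur rest = true → ∀ x ∈ rest, F x = t := by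
  intro f
  induction f with
  | zero =>
    intro cur rest _ _ h x hx
    simp only [connAux, List.isEmpty_iff] at h
    rw [h] at hx
    simp at hx
  | succ f ih =>
    intro cur rest hF hcur h x hx
    simp only [connAux] at h
    set A := rest.filter (fun y => cur.any fun x => cmp lt x y) with hA
    set B := rest.filter (fun y => !(cur.any fun x => cmp lt x y)) with hB
    have hA' : ∀ y ∈ A, F y = t := by
      intro y hy
      rw [hA, List.mem_filter] at hy
      obtain ⟨hy1, hy2⟩ := hy
      rw [List.any_eq_true] at hy2
      obtain ⟨z, hz, hzy⟩ := hy2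
      simp only [cmp, Bool.or_eq_true] at hzy
      rcases hzy with h' | h'
      · rw [← hF z (by simp [hz]) y (by simp [hy1]) h']; exact hcur z hz
      · rw [hF y (by simp [hy1]) z (by simp [hz]) h']; exact hcur z hz
    have hmem : ∀ y, y ∈ (cur ++ A) ++ B → y ∈ cur ++ rest := by
      intro y hy
      simp only [List.mem_append] at hy ⊢
      rcases hy with (hy | hy) | hy
      · exact Or.inl hy
      · right; rw [hA, List.mem_filter] at hy; exact hy.1
      · right; rw [hB, List.mem_filter] at hy; exact hy.1
    have hrec := ih (cur ++ A) B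
      (fun x hx y hy => hF x (hmem x hx) y (hmem y hy))
      (by
        intro y hy
        rcases List.mem_append.mp hy with h' | h'
        · exact hcur y h'
        · exact hA' y h') h
    by_cases hxA : x ∈ A
    · exact hA' x hxA
    · apply hrec
      rw [hB, List.mem_filter]
      refine ⟨hx, ?_⟩
      rw [hA, List.mem_filter] at hxA
      push Not at hxA
      have := hxA hx
      simpa using this

lemma conn_sound {k : Type*} (lt : ℕ → ℕ → Bool) (F : ℕ → k) (l : List ℕ)
    (h : conn lt l = true) (hF : ∀ x ∈ l, ∀ y ∈ l, lt x y = true → F x = F y) :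
    ∀ x ∈ l, ∀ y ∈ l, F x = F y := by
  cases l with
  | nil => simp [conn] at h
  | cons a l =>
    simp only [conn] at h
    have hc := connAux_sound lt F (F a) 12 [a] l (by simpa using hF) (by simp) h
    have hall : ∀ x ∈ a :: l, F x = F a := by
      intro x hx
      rcases List.mem_cons.mp hx with rfl | hx
      · rfl
      · exact hc x hx
    intro x hx y hy
    rw [hall x hx, hall y hy]

lemma conn_nonempty {lt : ℕ → ℕ → Bool} {l : List ℕ} (h : conn lt l = true) : ∃ x, x ∈ l := by
  cases l with
  | nil => simp [conn] at h
  | cons a l => exact ⟨a, by simp⟩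

/-- simple connectivity in homology: elements are added one at a time along connected links -/
def sc (lt : ℕ → ℕ → Bool) : List ℕ → Bool
  | [] => true
  | x :: l => (l.isEmpty || conn lt (l.filter (fun y => cmp lt x y))) && sc lt l

lemma sc_sound {k : Type*} [Field k] (lt : ℕ → ℕ → Bool)
    (htrans : ∀ a b c, lt a b = true → lt b c = true → lt a c = true)
    (hasymm : ∀ a b, lt a b = true → lt b a = false) (G : ℕ → ℕ → k) :
    ∀ l : List ℕ, l.Nodup → sc lt l = true →
      (∀ a ∈ l, ∀ b ∈ l, ∀ c ∈ l, lt a b = true → lt b c = true → G a c = G a b + G b c) →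
      ∃ F : ℕ → k, ∀ a ∈ l, ∀ b ∈ l, lt a b = true → G a b = F b - F a := by
  intro l
  induction l with
  | nil => intro _ _ _; exact ⟨fun _ => 0, by simp⟩
  | cons x l ih =>
    intro hnd hsc hG
    rw [List.nodup_cons] at hnd
    simp only [sc, Bool.and_eq_true, Bool.or_eq_true, List.isEmpty_iff] at hsc
    obtain ⟨F, hF⟩ := ih hnd.2 hsc.2 (fun a ha b hb c hc => hG a (by simp [ha]) b (by simp [hb])
      c (by simp [hc]))
    have hirr : ∀ a, lt a a = false := by
      intro a
      by_contra h
      rw [Bool.not_eq_false] at h
      have := hasymm a a h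
      rw [h] at this
      exact absurd this (by decide)
    rcases hsc.1 with hl | hl
    · subst hl
      refine ⟨fun _ => 0, ?_⟩
      intro a ha b hb hab
      simp only [List.mem_singleton] at ha hb
      subst ha; subst hb
      rw [hirr] at hab
      exact absurd hab (by decide)
    · set lk := l.filter (fun y => cmp lt x y) with hlk
      have hlkmem : ∀ y ∈ lk, y ∈ l ∧ (lt x y = true ∨ lt y x = true) := by
        intro y hy
        rw [hlk, List.mem_filter] at hy
        simpa [cmp] using hy
      let H : ℕ → k := fun y => if lt x y = true then F y - G x y else F y + G y x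
      have hH : ∀ y ∈ lk, ∀ z ∈ lk, lt y z = true → H y = H z := by
        intro y hy z hz hyz
        obtain ⟨hyl, hyx⟩ := hlkmem y hy
        obtain ⟨hzl, hzx⟩ := hlkmem z hz
        have hyzF := hF y hyl z hzl hyz
        have hxm : x ∈ x :: l := by simp
        have hym : y ∈ x :: l := by simp [hyl]
        have hzm : z ∈ x :: l := by simp [hzl]
        rcases hyx with h1 | h1
        · have h2 : lt x z = true := htrans _ _ _ h1 hyz
          have h3 := hG x hxm y hym z hzm h1 hyz
          simp only [H, h1, h2, if_true]
          rw [h3, hyzF]; ring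
        · have h1' : lt x y = false := hasymm _ _ h1
          rcases hzx with h2 | h2
          · have h3 := hG y hym x hxm z hzm h1 h2
            simp only [H, h1', h2, if_true, Bool.false_eq_true, if_false]
            rw [hyzF] at h3
            linear_combination (-1 : k) * h3
          · have h2' : lt x z = false := hasymm _ _ h2
            have h3 := hG y hym z hzm x hxm hyz h2
            simp only [H, h1', h2', Bool.false_eq_true, if_false]
            rw [hyzF] at h3
            linear_combination h3
      have hconst := conn_sound lt H lk hl hH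
      obtain ⟨y0, hy0⟩ := conn_nonempty hl
      refine ⟨fun m => if m = x then H y0 else F m, ?_⟩
      intro a ha b hb hab
      rcases List.mem_cons.mp ha with rfl | ha' <;> rcases List.mem_cons.mp hb with rfl | hb'
      · rw [hirr] at hab; exact absurd hab (by decide)
      · have hbne : b ≠ a := fun h => hnd.1 (h ▸ hb')
        have hblk : b ∈ lk := by
          rw [hlk, List.mem_filter]; exact ⟨hb', by simp [cmp, hab]⟩
        have h1 := hconst b hblk y0 hy0
        have h2 : H b = F b - G a b := by simp only [H, hab, if_true]
        simp only [hbne, if_false, if_true]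
        rw [← h1, h2]; ring
      · have hane : a ≠ b := fun h => hnd.1 (h ▸ ha')
        have halk : a ∈ lk := by
          rw [hlk, List.mem_filter]; exact ⟨ha', by simp [cmp, hab]⟩
        have h1 := hconst a halk y0 hy0
        have h2 : H a = F a + G a b := by
          have : lt b a = false := hasymm _ _ hab
          simp only [H, this, Bool.false_eq_true, if_false]
        simp only [hane, if_false, if_true]
        rw [← h1, h2]; ring
      · have hane : a ≠ x := fun h => hnd.1 (h ▸ ha')
        have hbne : b ≠ x := fun h => hnd.1 (h ▸ hb')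
        simp only [hane, hbne, if_false]
        exact hF a ha' b hb' hab

end Pool.Agent.helper45.OC
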