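import Mathlib
import Pool.Agent.helper45.OC2

/-! Polyhedral complexes made of faces of the standard simplex in `ℝ⁶`. -/

namespace Pool.Agent.helper45.OC

open Finset

/-- A polytope in `ℝᴺ` (possibly empty). -/
def IsPolytope {N : ℕ} (P : Set (Fin N → ℝ)) : Prop :=
  ∃ s : Finset (Fin N → ℝ), P = convexHull ℝ (s : Set (Fin N → ℝ))

/-- A simplex in `ℝᴺ` (possibly empty). -/
def IsSimplex {N : ℕ} (P : Set (Fin N → ℝ)) : Prop :=
  ∃ s : Finset (Fin N → ℝ), AffineIndependent ℝ ((↑) : s → (Fin N → ℝ)) ∧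
    P = convexHull ℝ (s : Set (Fin N → ℝ))

/-- A polyhedral complex in `ℝᴺ`: a finite collection of convex polytopes, closed under taking
faces (the empty face included), any two members of which meet in a common face. Faces of polytopes
are described as exposed subsets (sets of maximisers of a linear functional, or empty). -/
structure IsPolyhedralComplex {N : ℕ} (L : Set (Set (Fin N → ℝ))) : Prop where
  finite : L.Finite
  empty_mem : ∅ ∈ L
  polytope : ∀ P ∈ L, IsPolytope P
  face_mem : ∀ P ∈ L, ∀ F : Set (Fin N → ℝ), IsExposed ℝ P F → F ∈ L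
  inter : ∀ P ∈ L, ∀ Q ∈ L, IsExposed ℝ P (P ∩ Q) ∧ IsExposed ℝ Q (P ∩ Q)

/-- The poset (by inclusion) of nonempty faces of a collection of polytopes. Its order complex is
the barycentric subdivision. -/
abbrev Cells {N : ℕ} (L : Set (Set (Fin N → ℝ))) := {P : Set (Fin N → ℝ) // P ∈ L ∧ P.Nonempty}

/-- the face of the standard simplex with vertex set `S` -/
def face (S : Finset (Fin 6)) : Set (Fin 6 → ℝ) :=
  {x | (∀ i, 0 ≤ x i) ∧ ∑ i, x i = 1 ∧ ∀ i, i ∉ S → x i = 0}

lemma sum_of_mem {S : Finset (Fin 6)} {x : Fin 6 → ℝ} (hx : x ∈ face S) : ∑ i ∈ S, x i = 1 := by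
  obtain ⟨_, h2, h3⟩ := hx
  rw [← h2]
  apply Finset.sum_subset (Finset.subset_univ _)
  intro i _ hi
  exact h3 i hi

lemma single_mem {S : Finset (Fin 6)} {i : Fin 6} (hi : i ∈ S) :
    (Pi.single i (1 : ℝ) : Fin 6 → ℝ) ∈ face S := by
  refine ⟨?_, ?_, ?_⟩
  · intro j
    by_cases h : j = i
    · subst h; simp
    · simp [Pi.single_eq_of_ne h]
  · simp
  · intro j hj
    have : j ≠ i := fun h => hj (h ▸ hi)
    simp [Pi.single_eq_of_ne this]

lemma face_mono {S T : Finset (Fin 6)} (h : S ⊆ T) : face S ⊆ face T := by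
  rintro x ⟨h1, h2, h3⟩
  exact ⟨h1, h2, fun i hi => h3 i (fun h' => hi (h h'))⟩

lemma face_subset_iff {S T : Finset (Fin 6)} : face S ⊆ face T ↔ S ⊆ T := by
  refine ⟨?_, face_mono⟩
  intro h i hi
  by_contra hT
  have := (h (single_mem hi)).2.2 i hT
  simp at this

lemma face_inj {S T : Finset (Fin 6)} : face S = face T ↔ S = T := by
  constructor
  · intro h
    exact Finset.Subset.antisymm (face_subset_iff.mp h.le) (face_subset_iff.mp h.ge)
  · rintro rfl; rfl

lemma face_empty : face ∅ = ∅ := by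
  ext x
  simp only [Set.mem_empty_iff_false, iff_false]
  intro hx
  have := sum_of_mem hx
  simp at this

lemma face_nonempty {S : Finset (Fin 6)} (h : S.Nonempty) : (face S).Nonempty := by
  obtain ⟨i, hi⟩ := h
  exact ⟨_, single_mem hi⟩

lemma face_inter (S T : Finset (Fin 6)) : face S ∩ face T = face (S ∩ T) := by
  ext x
  constructor
  · rintro ⟨⟨h1, h2, h3⟩, ⟨_, _, h6⟩⟩
    refine ⟨h1, h2, ?_⟩
    intro i hi
    by_cases h : i ∈ S
    · exact h6 i (fun h' => hi (by simp [h, h']))
    · exact h3 i h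
  · intro hx
    exact ⟨face_mono Finset.inter_subset_left hx, face_mono Finset.inter_subset_right hx⟩

lemma face_isSimplex (S : Finset (Fin 6)) : IsSimplex (face S) := by
  classical
  let e : Fin 6 ↪ (Fin 6 → ℝ) := ⟨fun i => Pi.single i (1 : ℝ), by
    intro i j h
    by_contra hne
    have := congrFun h i
    simp [Pi.single_eq_of_ne hne] at this⟩
  have hlin : LinearIndependent ℝ (fun i : Fin 6 => (Pi.single i (1 : ℝ) : Fin 6 → ℝ)) :=
    Pi.linearIndependent_single_one (Fin 6) ℝ
  refine ⟨S.map e, ?_, ?_⟩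
  · have h1 : AffineIndependent ℝ (fun i : Fin 6 => (Pi.single i (1 : ℝ) : Fin 6 → ℝ)) :=
      hlin.affineIndependent
    have h2 : AffineIndependent ℝ (fun x : Set.range (fun i : Fin 6 =>
        (Pi.single i (1 : ℝ) : Fin 6 → ℝ)) => (x : Fin 6 → ℝ)) := h1.range
    refine h2.mono ?_
    intro x hx
    simp only [Finset.coe_map, Set.mem_image] at hx
    obtain ⟨i, _, rfl⟩ := hx
    exact ⟨i, rfl⟩
  · apply Set.Subset.antisymm
    · intro x hx
      have hsum := sum_of_mem hx
      have hx1 : x = ∑ i ∈ S, x i • (Pi.single i (1 : ℝ) : Fin 6 → ℝ) := by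
        funext j
        simp only [Finset.sum_apply, Pi.smul_apply, smul_eq_mul]
        by_cases hj : j ∈ S
        · rw [Finset.sum_eq_single j]
          · simp
          · intro b _ hb
            simp [Pi.single_eq_of_ne (Ne.symm hb)]
          · intro h; exact absurd hj h
        · rw [hx.2.2 j hj]
          symm
          apply Finset.sum_eq_zero
          intro b hb
          have : j ≠ b := fun h => hj (h ▸ hb)
          simp [Pi.single_eq_of_ne this]
      rw [hx1]
      apply (convex_convexHull ℝ _).sum_mem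
      · intro i _; exact hx.1 i
      · exact hsum
      · intro i hi
        apply subset_convexHull
        simp only [Finset.coe_map, Set.mem_image]
        exact ⟨i, hi, rfl⟩
    · apply convexHull_min
      · intro x hx
        simp only [Finset.coe_map, Set.mem_image] at hx
        obtain ⟨i, hi, rfl⟩ := hx
        exact single_mem hi
      · rintro x ⟨h1, h2, h3⟩ y ⟨g1, g2, g3⟩ a b ha hb hab
        refine ⟨?_, ?_, ?_⟩
        · intro i
          have := h1 i; have := g1 i
          simp only [Pi.add_apply, Pi.smul_apply, smul_eq_mul]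
          positivity
        · simp only [Pi.add_apply, Pi.smul_apply, smul_eq_mul, Finset.sum_add_distrib,
            ← Finset.mul_sum, h2, g2]
          linarith
        · intro i hi
          simp [h3 i hi, g3 i hi]

lemma IsSimplex.isPolytope {N : ℕ} {P : Set (Fin N → ℝ)} (h : IsSimplex P) : IsPolytope P := by
  obtain ⟨s, _, h⟩ := h
  exact ⟨s, h⟩

lemma face_exposed {S T : Finset (Fin 6)} (h : S ⊆ T) : IsExposed ℝ (face T) (face S) := by
  rintro ⟨x0, hx0⟩
  refine ⟨∑ i ∈ S, ContinuousLinearMap.proj i, ?_⟩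
  have hl : ∀ x : Fin 6 → ℝ, (∑ i ∈ S, (ContinuousLinearMap.proj i :
      StrongDual ℝ (Fin 6 → ℝ))) x = ∑ i ∈ S, x i := by
    intro x
    simp
  have hle : ∀ y ∈ face T, ∑ i ∈ S, y i ≤ 1 := by
    intro y hy
    rw [← sum_of_mem hy]
    exact Finset.sum_le_sum_of_subset_of_nonneg h (fun i _ _ => hy.1 i)
  ext x
  constructor
  · intro hx
    refine ⟨face_mono h hx, ?_⟩
    intro y hy
    rw [hl, hl, sum_of_mem hx]
    exact hle y hy
  · rintro ⟨hxT, hx⟩
    have h1 := hx x0 (face_mono h hx0)
    rw [hl, hl, sum_of_mem hx0] at h1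
    have h2 : ∑ i ∈ S, x i = 1 := le_antisymm (hle x hxT) h1
    refine ⟨hxT.1, hxT.2.1, ?_⟩
    intro i hi
    have h3 : ∑ j ∈ S, x j + x i ≤ ∑ j, x j := by
      rw [add_comm, ← Finset.sum_insert hi]
      exact Finset.sum_le_sum_of_subset_of_nonneg (Finset.subset_univ _) (fun j _ _ => hxT.1 j)
    have h4 := hxT.1 i
    rw [h2, hxT.2.1] at h3
    linarith

lemma exposed_face {T : Finset (Fin 6)} {F : Set (Fin 6 → ℝ)} (h : IsExposed ℝ (face T) F) :
    ∃ S ⊆ T, F = face S := by
  classical
  rcases F.eq_empty_or_nonempty with hF | hF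
  · exact ⟨∅, by simp, by rw [hF, face_empty]⟩
  obtain ⟨l, hl⟩ := h hF
  have hT : T.Nonempty := by
    obtain ⟨x, hx⟩ := hF
    rw [hl] at hx
    by_contra hne
    rw [Finset.not_nonempty_iff_eq_empty] at hne
    rw [hne, face_empty] at hx
    exact hx.1
  let v : Fin 6 → ℝ := fun i => l (Pi.single i 1)
  have hlx : ∀ x : Fin 6 → ℝ, l x = ∑ i, x i * v i := by
    intro x
    have hx1 : x = ∑ i, x i • (Pi.single i (1 : ℝ) : Fin 6 → ℝ) := by
      funext j
      simp only [Finset.sum_apply, Pi.smul_apply, smul_eq_mul]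
      rw [Finset.sum_eq_single j]
      · simp
      · intro b _ hb
        simp [Pi.single_eq_of_ne (Ne.symm hb)]
      · intro h; simp at h
    conv_lhs => rw [hx1]
    rw [map_sum]
    apply Finset.sum_congr rfl
    intro i _
    rw [map_smul, smul_eq_mul]
  obtain ⟨i0, hi0, hmax⟩ := Finset.exists_max_image T v hT
  have hlT : ∀ x ∈ face T, l x = ∑ i ∈ T, x i * v i := by
    intro x hx
    rw [hlx]
    symm
    apply Finset.sum_subset (Finset.subset_univ _)
    intro i _ hi
    rw [hx.2.2 i hi, zero_mul]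
  have hdiff : ∀ x ∈ face T, v i0 - l x = ∑ i ∈ T, x i * (v i0 - v i) := by
    intro x hx
    rw [hlT x hx]
    simp only [mul_sub, Finset.sum_sub_distrib, ← Finset.sum_mul, sum_of_mem hx, one_mul]
  have hterm : ∀ x ∈ face T, ∀ i ∈ T, 0 ≤ x i * (v i0 - v i) := by
    intro x hx i hi
    exact mul_nonneg (hx.1 i) (sub_nonneg.mpr (hmax i hi))
  have hle : ∀ x ∈ face T, l x ≤ v i0 := by
    intro x hx
    have := hdiff x hx
    have h2 : 0 ≤ ∑ i ∈ T, x i * (v i0 - v i) := Finset.sum_nonneg (hterm x hx)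
    linarith
  refine ⟨T.filter (fun i => v i = v i0), Finset.filter_subset _ _, ?_⟩
  rw [hl]
  ext x
  constructor
  · rintro ⟨hxT, hx⟩
    have h1 : v i0 ≤ l x := hx _ (single_mem hi0)
    have h2 := hdiff x hxT
    have h3 : ∑ i ∈ T, x i * (v i0 - v i) = 0 := by
      have := hle x hxT
      rw [← h2]; linarith
    rw [Finset.sum_eq_zero_iff_of_nonneg (hterm x hxT)] at h3
    refine ⟨hxT.1, hxT.2.1, ?_⟩
    intro i hi
    by_cases hiT : i ∈ T
    · have h4 := h3 i hiT
      rcases mul_eq_zero.mp h4 with h5 | h5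
      · exact h5
      · exfalso
        apply hi
        rw [Finset.mem_filter]
        exact ⟨hiT, by linarith⟩
    · exact hxT.2.2 i hiT
  · intro hx
    have hxT : x ∈ face T := face_mono (Finset.filter_subset _ _) hx
    refine ⟨hxT, ?_⟩
    intro y hy
    have h1 : v i0 - l x = 0 := by
      rw [hdiff x hxT]
      apply Finset.sum_eq_zero
      intro i hi
      by_cases h : v i = v i0
      · rw [h]; ring
      · rw [hx.2.2 i (by simp [h])]; ring
    have h2 := hle y hy
    linarith

end Pool.Agent.helper45.OC
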