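import Mathlib
import Pool.Agent.helper45.OC3

/-! Complexes given by lists of bitmasks. -/

namespace Pool.Agent.helper45.OC

open Finset

/-- the set of bits of a mask -/
def bits (m : ℕ) : Finset (Fin 6) := Finset.univ.filter (fun i => m.testBit i.1 = true)

/-- strict inclusion of masks -/
def ltm (a b : ℕ) : Bool := (a &&& b == a) && (a != b)

lemma mem_bits {m : ℕ} {i : Fin 6} : i ∈ bits m ↔ m.testBit i.1 = true := by
  simp [bits]

lemma bits_subset_iff {a b : ℕ} (ha : a < 64) : bits a ⊆ bits b ↔ a &&& b = a := by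
  constructor
  · intro h
    apply Nat.eq_of_testBit_eq
    intro i
    rw [Nat.testBit_and]
    by_cases hi : i < 6
    · cases hc : a.testBit i
      · simp
      · have := h (mem_bits.mpr (show a.testBit (⟨i, hi⟩ : Fin 6).1 = true from hc))
        rw [mem_bits] at this
        simp only at this
        rw [this]; rfl
    · have : a.testBit i = false := by
        apply Nat.testBit_lt_two_pow
        calc a < 64 := ha
          _ = 2 ^ 6 := by norm_num
          _ ≤ 2 ^ i := Nat.pow_le_pow_right (by norm_num) (by omega)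
      simp [this]
  · intro h i hi
    rw [mem_bits] at hi ⊢
    have := congrArg (fun m => Nat.testBit m i.1) h
    simp only [Nat.testBit_and, hi, Bool.true_and] at this
    exact this

lemma bits_inj {a b : ℕ} (ha : a < 64) (hb : b < 64) (h : bits a = bits b) : a = b := by
  have h1 := (bits_subset_iff (b := b) ha).mp h.le
  have h2 := (bits_subset_iff (b := a) hb).mp h.ge
  rw [Nat.land_comm] at h2
  omega

lemma ltm_iff {a b : ℕ} (ha : a < 64) (hb : b < 64) : ltm a b = true ↔ bits a ⊂ bits b := by
  rw [ltm, Bool.and_eq_true, beq_iff_eq, bne_iff_ne, ← bits_subset_iff ha, Finset.ssubset_iff_subset_ne]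
  constructor
  · rintro ⟨h1, h2⟩; exact ⟨h1, fun h => h2 (bits_inj ha hb h)⟩
  · rintro ⟨h1, h2⟩; exact ⟨h1, fun h => h2 (by rw [h])⟩

lemma bits_zero : bits 0 = ∅ := by
  ext i; simp [mem_bits]

lemma ltm_trans (a b c : ℕ) (h1 : ltm a b = true) (h2 : ltm b c = true) : ltm a c = true := by
  simp only [ltm, Bool.and_eq_true, beq_iff_eq, bne_iff_ne] at *
  obtain ⟨h1, h1'⟩ := h1
  obtain ⟨h2, h2'⟩ := h2
  have h3 : a &&& c = a := by
    calc a &&& c = (a &&& b) &&& c := by rw [h1]
      _ = a &&& (b &&& c) := Nat.land_assoc _ _ _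
      _ = a := by rw [h2, h1]
  refine ⟨h3, ?_⟩
  rintro rfl
  apply h1'
  rw [Nat.land_comm] at h2
  omega

lemma ltm_asymm (a b : ℕ) (h1 : ltm a b = true) : ltm b a = false := by
  by_contra h
  rw [Bool.not_eq_false] at h
  have := ltm_trans a b a h1 h
  simp [ltm] at this

/-- The collection of faces of the standard simplex given by a list of masks, together with the
empty face. -/
def cx (l : List ℕ) : Set (Set (Fin 6 → ℝ)) := {P | ∃ m ∈ 0 :: l, P = face (bits m)}

/-- basic sanity of a list of masks -/
def okList (l : List ℕ) : Bool := l.all (fun m => decide (0 < m) && decide (m < 64))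

lemma okList_pos {l : List ℕ} (h : okList l = true) {m : ℕ} (hm : m ∈ l) : 0 < m ∧ m < 64 := by
  rw [okList, List.all_eq_true] at h
  have := h m hm
  simpa using this

lemma okList_lt {l : List ℕ} (h : okList l = true) {m : ℕ} (hm : m ∈ 0 :: l) : m < 64 := by
  rcases List.mem_cons.mp hm with rfl | hm
  · norm_num
  · exact (okList_pos h hm).2

lemma bits_nonempty {m : ℕ} (h : 0 < m) (h' : m < 64) : (bits m).Nonempty := by
  by_contra hne
  rw [Finset.not_nonempty_iff_eq_empty, ← bits_zero] at hne
  have := bits_inj h' (by norm_num) hne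
  omega

lemma exists_code {l : List ℕ} (P : Cells (cx l)) : ∃ m ∈ l, P.1 = face (bits m) := by
  obtain ⟨m, hm, h⟩ := P.2.1
  rcases List.mem_cons.mp hm with rfl | hm
  · exfalso
    have := P.2.2
    rw [h, bits_zero, face_empty] at this
    exact Set.not_nonempty_empty this
  · exact ⟨m, hm, h⟩

/-- the mask of a cell -/
noncomputable def code {l : List ℕ} (P : Cells (cx l)) : ℕ := (exists_code P).choose

lemma code_mem {l : List ℕ} (P : Cells (cx l)) : code P ∈ l := (exists_code P).choose_spec.1

lemma code_spec {l : List ℕ} (P : Cells (cx l)) : P.1 = face (bits (code P)) :=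
  (exists_code P).choose_spec.2

/-- the cell of a mask -/
def cell {l : List ℕ} (hl : okList l = true) (m : ℕ) (hm : m ∈ l) : Cells (cx l) :=
  ⟨face (bits m), ⟨m, List.mem_cons_of_mem _ hm, rfl⟩,
    face_nonempty (bits_nonempty (okList_pos hl hm).1 (okList_pos hl hm).2)⟩

lemma code_cell {l : List ℕ} (hl : okList l = true) (m : ℕ) (hm : m ∈ l) :
    code (cell hl m hm) = m := by
  have h := code_spec (cell hl m hm)
  have h' : face (bits m) = face (bits (code (cell hl m hm))) := h
  rw [face_inj] at h'
  exact (bits_inj (okList_pos hl hm).2 (okList_pos hl (code_mem _)).2 h').symm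

lemma cell_code {l : List ℕ} (hl : okList l = true) (P : Cells (cx l)) :
    cell hl (code P) (code_mem P) = P := Subtype.ext (code_spec P).symm

lemma code_inj {l : List ℕ} {P Q : Cells (cx l)} (h : code P = code Q) :
    P = Q := by
  apply Subtype.ext
  rw [code_spec P, code_spec Q, h]

lemma lt_iff_code {l : List ℕ} (hl : okList l = true) (P Q : Cells (cx l)) :
    P < Q ↔ ltm (code P) (code Q) = true := by
  rw [ltm_iff (okList_pos hl (code_mem P)).2 (okList_pos hl (code_mem Q)).2]
  rw [← Subtype.coe_lt_coe, code_spec P, code_spec Q, Finset.ssubset_iff_subset_ne,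
    Set.ssubset_iff_subset_ne, face_subset_iff, Ne, Ne, face_inj]

/-- all checks for the Cohen-Macaulay property in dimension two -/
def cmCheck (l : List ℕ) : Bool :=
  okList l && decide l.Nodup && l.all (fun m => decide ((bits m).card ≤ 3)) &&
    conn ltm l && sc ltm l && l.all (fun m => conn ltm (l.filter (fun y => cmp ltm m y)))

theorem cohenMacaulay_of_check {k : Type*} [Field k] (l : List ℕ) (h : cmCheck l = true) :
    CohenMacaulay k (Cells (cx l)) := by
  classical
  simp only [cmCheck, Bool.and_eq_true, decide_eq_true_eq] at h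
  obtain ⟨⟨⟨⟨⟨hok, hnd⟩, hcard⟩, hconn⟩, hsc⟩, hlink⟩ := h
  rw [List.all_eq_true] at hcard hlink
  have hcard' : ∀ P : Cells (cx l), 0 < (bits (code P)).card ∧ (bits (code P)).card ≤ 3 := by
    intro P
    have h1 := okList_pos hok (code_mem P)
    refine ⟨Finset.card_pos.mpr (bits_nonempty h1.1 h1.2), ?_⟩
    have := hcard _ (code_mem P)
    simpa using this
  refine cohenMacaulay_of_rank_three
    (fun P => ⟨(bits (code P)).card - 1, by have := hcard' P; omega⟩) ?_ ?_ ?_ ?_
  · intro P Q hPQ
    rw [lt_iff_code hok, ltm_iff (okList_pos hok (code_mem P)).2 (okList_pos hok (code_mem Q)).2]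
      at hPQ
    have h1 := Finset.card_lt_card hPQ
    have h2 := hcard' P
    have h3 := hcard' Q
    rw [Fin.lt_def]
    simp only
    omega
  · intro f hf P Q
    let F : ℕ → k := fun m => if hm : m ∈ l then f (cell hok m hm) else 0
    have hF : ∀ P : Cells (cx l), F (code P) = f P := by
      intro P
      simp only [F, code_mem P, dite_true, cell_code]
    have := conn_sound ltm F l hconn (by
      intro x hx y hy hxy
      simp only [F, hx, hy, dite_true]
      apply hf
      rw [lt_iff_code hok, code_cell, code_cell]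
      exact hxy) (code P) (code_mem P) (code Q) (code_mem Q)
    rw [hF, hF] at this
    exact this
  · intro g hg
    let G : ℕ → ℕ → k := fun m n => if hm : m ∈ l then (if hn : n ∈ l then
      g (cell hok m hm) (cell hok n hn) else 0) else 0
    have hG : ∀ P Q : Cells (cx l), G (code P) (code Q) = g P Q := by
      intro P Q
      simp only [G, code_mem P, code_mem Q, dite_true, cell_code]
    obtain ⟨F, hF⟩ := sc_sound ltm ltm_trans ltm_asymm G l hnd hsc (by
      intro a ha b hb c hc hab hbc
      simp only [G, ha, hb, hc, dite_true]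
      apply hg
      · rw [lt_iff_code hok, code_cell, code_cell]; exact hab
      · rw [lt_iff_code hok, code_cell, code_cell]; exact hbc)
    refine ⟨fun P => F (code P), ?_⟩
    intro P Q hPQ
    rw [← hG]
    exact hF _ (code_mem P) _ (code_mem Q) ((lt_iff_code hok _ _).mp hPQ)
  · intro c f hf P Q
    have hlk := hlink _ (code_mem (c.1 0))
    set lk := l.filter (fun y => cmp ltm (code (c.1 0)) y) with hlkdef
    have hlkmem : ∀ y, y ∈ lk ↔ y ∈ l ∧ (ltm (code (c.1 0)) y = true ∨ ltm y (code (c.1 0)) = true) := by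
      intro y
      rw [hlkdef, List.mem_filter]
      simp [cmp]
    have hcell : ∀ m, ∀ hm : m ∈ lk, ∀ i, (cell hok m ((hlkmem m).mp hm).1) < c.1 i ∨
        c.1 i < (cell hok m ((hlkmem m).mp hm).1) := by
      intro m hm i
      have hi : i = 0 := Subsingleton.elim _ _
      subst hi
      rw [lt_iff_code hok, lt_iff_code hok, code_cell]
      exact ((hlkmem m).mp hm).2.symm
    let F : ℕ → k := fun m => if hm : m ∈ lk then
      f ⟨cell hok m ((hlkmem m).mp hm).1, hcell m hm⟩ else 0
    have hmem : ∀ P : Link c, code P.1 ∈ lk := by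
      intro P
      rw [hlkmem]
      refine ⟨code_mem _, ?_⟩
      have := P.2 0
      rw [lt_iff_code hok, lt_iff_code hok] at this
      exact this.symm
    have hF : ∀ P : Link c, F (code P.1) = f P := by
      intro P
      simp only [F, hmem P, dite_true, cell_code]
    have := conn_sound ltm F lk hlk (by
      intro x hx y hy hxy
      simp only [F, hx, hy, dite_true]
      apply hf
      rw [← Subtype.coe_lt_coe, lt_iff_code hok, code_cell, code_cell]
      exact hxy) (code P.1) (hmem P) (code Q.1) (hmem Q)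
    rw [hF, hF] at this
    exact this

/-- a list containing with every mask all its submasks -/
def closedList (l : List ℕ) : Bool :=
  (List.range 64).all (fun a => l.all (fun b => !(a != 0 && (a &&& b == a)) || l.contains a))

lemma closedList_mem {l : List ℕ} (h : closedList l = true) {a b : ℕ} (ha : a < 64)
    (hb : b ∈ 0 :: l) (hab : a &&& b = a) : a ∈ 0 :: l := by
  rcases Nat.eq_zero_or_pos a with rfl | hpos
  · simp
  rcases List.mem_cons.mp hb with rfl | hb
  · simp at hab; omega
  rw [closedList, List.all_eq_true] at h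
  have h1 := h a (List.mem_range.mpr ha)
  rw [List.all_eq_true] at h1
  have h2 := h1 b hb
  have h3 : (a != 0 && (a &&& b == a)) = true := by
    rw [Bool.and_eq_true, bne_iff_ne, beq_iff_eq]
    exact ⟨by omega, hab⟩
  rw [h3] at h2
  simp only [Bool.not_true, Bool.false_or, List.contains_iff_mem] at h2
  exact List.mem_cons_of_mem _ h2

lemma exists_mask (S : Finset (Fin 6)) : ∃ m < 64, bits m = S := by
  revert S
  decide +kernel

theorem isPolyhedralComplex_cx (l : List ℕ) (hcl : closedList l = true) :
    IsPolyhedralComplex (cx l) where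
  finite := by
    have : cx l = (fun m => face (bits m)) '' {m | m ∈ 0 :: l} := by
      ext P
      simp only [cx, Set.mem_ofPred_eq, Set.mem_image]
      constructor
      · rintro ⟨m, hm, rfl⟩; exact ⟨m, hm, rfl⟩
      · rintro ⟨m, hm, rfl⟩; exact ⟨m, hm, rfl⟩
    rw [this]
    exact (List.finite_toSet _).image _
  empty_mem := ⟨0, by simp, by rw [bits_zero, face_empty]⟩
  polytope := by
    rintro P ⟨m, _, rfl⟩
    exact (face_isSimplex _).isPolytope
  face_mem := by
    rintro P ⟨m, hm, rfl⟩ F hF
    obtain ⟨S, hS, rfl⟩ := exposed_face hF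
    obtain ⟨a, ha, rfl⟩ := exists_mask S
    exact ⟨a, closedList_mem hcl ha hm ((bits_subset_iff ha).mp hS), rfl⟩
  inter := by
    rintro P ⟨m, hm, rfl⟩ Q ⟨n, hn, rfl⟩
    rw [face_inter]
    exact ⟨face_exposed Finset.inter_subset_left, face_exposed Finset.inter_subset_right⟩

/-- list of the chains with two elements -/
def chains2 (l : List ℕ) : List (ℕ × ℕ) :=
  l.flatMap fun a => (l.filter (fun b => ltm a b)).map fun b => (a, b)

/-- list of the chains with three elements -/
def chains3 (l : List ℕ) : List (ℕ × ℕ × ℕ) :=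
  l.flatMap fun a => (l.filter (fun b => ltm a b)).flatMap fun b =>
    (l.filter (fun c => ltm b c)).map fun c => (a, b, c)

lemma mem_chains2 {l : List ℕ} {p : ℕ × ℕ} :
    p ∈ chains2 l ↔ p.1 ∈ l ∧ p.2 ∈ l ∧ ltm p.1 p.2 = true := by
  obtain ⟨a, b⟩ := p
  simp only [chains2, List.mem_flatMap, List.mem_map, List.mem_filter, Prod.mk.injEq]
  constructor
  · rintro ⟨a', ha', b', ⟨hb', hab⟩, rfl, rfl⟩
    exact ⟨ha', hb', hab⟩
  · rintro ⟨ha, hb, hab⟩
    exact ⟨a, ha, b, ⟨hb, hab⟩, rfl, rfl⟩

lemma mem_chains3 {l : List ℕ} {p : ℕ × ℕ × ℕ} :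
    p ∈ chains3 l ↔ p.1 ∈ l ∧ p.2.1 ∈ l ∧ p.2.2 ∈ l ∧ ltm p.1 p.2.1 = true ∧
      ltm p.2.1 p.2.2 = true := by
  obtain ⟨a, b, c⟩ := p
  simp only [chains3, List.mem_flatMap, List.mem_map, List.mem_filter, Prod.mk.injEq]
  constructor
  · rintro ⟨a', ha', b', ⟨hb', hab⟩, c', ⟨hc', hbc⟩, rfl, rfl, rfl⟩
    exact ⟨ha', hb', hc', hab, hbc⟩
  · rintro ⟨ha, hb, hc, hab, hbc⟩
    exact ⟨a, ha, b, ⟨hb, hab⟩, c, ⟨hc, hbc⟩, rfl, rfl, rfl⟩

lemma card_chain_zero {Q : Type*} [PartialOrder Q] : Nat.card (Chain Q 0) = 1 := by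
  have : Unique (Chain Q 0) :=
    ⟨⟨⟨fun i => i.elim0, fun i => i.elim0⟩⟩, fun a => Subtype.ext (funext fun i => i.elim0)⟩
  exact Nat.card_unique

lemma card_chain_one {l : List ℕ} (hl : okList l = true) :
    Nat.card (Chain (Cells (cx l)) 1) = l.toFinset.card := by
  have e : Chain (Cells (cx l)) 1 ≃ {m // m ∈ l.toFinset} := by
    refine Equiv.ofBijective (fun c => ⟨code (c.1 0), List.mem_toFinset.mpr (code_mem _)⟩)
      ⟨?_, ?_⟩
    · intro c d h
      have h' := code_inj (Subtype.mk.inj h)
      rw [eq_ch1 c, eq_ch1 d, h']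
    · rintro ⟨m, hm⟩
      refine ⟨ch1 (cell hl m (List.mem_toFinset.mp hm)), ?_⟩
      apply Subtype.ext
      exact code_cell hl m (List.mem_toFinset.mp hm)
  rw [Nat.card_congr e, Nat.card_eq_fintype_card, Fintype.card_coe]

lemma card_chain_two {l : List ℕ} (hl : okList l = true) :
    Nat.card (Chain (Cells (cx l)) 2) = (chains2 l).toFinset.card := by
  have e : Chain (Cells (cx l)) 2 ≃ {m // m ∈ (chains2 l).toFinset} := by
    refine Equiv.ofBijective (fun c => ⟨(code (c.1 0), code (c.1 1)),
      List.mem_toFinset.mpr (mem_chains2.mpr ⟨code_mem _, code_mem _, ?_⟩)⟩) ⟨?_, ?_⟩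
    · exact (lt_iff_code hl _ _).mp (c.2 (by decide))
    · intro c d h
      have h' := Prod.mk.inj (Subtype.mk.inj h)
      have h1 := code_inj h'.1
      have h2 := code_inj h'.2
      apply Subtype.ext
      funext i
      fin_cases i
      · exact h1
      · exact h2
    · rintro ⟨⟨a, b⟩, hm⟩
      obtain ⟨ha, hb, hab⟩ := mem_chains2.mp (List.mem_toFinset.mp hm)
      refine ⟨ch2 (cell hl a ha) (cell hl b hb) ?_, ?_⟩
      · rw [lt_iff_code hl, code_cell, code_cell]; exact hab
      · apply Subtype.ext
        exact Prod.ext (code_cell hl a ha) (code_cell hl b hb)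
  rw [Nat.card_congr e, Nat.card_eq_fintype_card, Fintype.card_coe]

lemma card_chain_three {l : List ℕ} (hl : okList l = true) :
    Nat.card (Chain (Cells (cx l)) 3) = (chains3 l).toFinset.card := by
  have e : Chain (Cells (cx l)) 3 ≃ {m // m ∈ (chains3 l).toFinset} := by
    refine Equiv.ofBijective (fun c => ⟨(code (c.1 0), code (c.1 1), code (c.1 2)),
      List.mem_toFinset.mpr (mem_chains3.mpr ⟨code_mem _, code_mem _, code_mem _, ?_, ?_⟩)⟩)
      ⟨?_, ?_⟩
    · exact (lt_iff_code hl _ _).mp (c.2 (by decide))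
    · exact (lt_iff_code hl _ _).mp (c.2 (by decide))
    · intro c d h
      have h' := Prod.mk.inj (Subtype.mk.inj h)
      have h'' := Prod.mk.inj h'.2
      have h1 := code_inj h'.1
      have h2 := code_inj h''.1
      have h3 := code_inj h''.2
      apply Subtype.ext
      funext i
      fin_cases i
      · exact h1
      · exact h2
      · exact h3
    · rintro ⟨⟨a, b, c⟩, hm⟩
      obtain ⟨ha, hb, hc, hab, hbc⟩ := mem_chains3.mp (List.mem_toFinset.mp hm)
      refine ⟨ch3 (cell hl a ha) (cell hl b hb) (cell hl c hc) ?_ ?_, ?_⟩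
      · rw [lt_iff_code hl, code_cell, code_cell]; exact hab
      · rw [lt_iff_code hl, code_cell, code_cell]; exact hbc
      · apply Subtype.ext
        exact Prod.ext (code_cell hl a ha) (Prod.ext (code_cell hl b hb) (code_cell hl c hc))
  rw [Nat.card_congr e, Nat.card_eq_fintype_card, Fintype.card_coe]

lemma isEmpty_chain_four {l : List ℕ} (h : cmCheck l = true) :
    IsEmpty (Chain (Cells (cx l)) 4) := by
  simp only [cmCheck, Bool.and_eq_true, decide_eq_true_eq] at h
  obtain ⟨⟨⟨⟨⟨hok, _⟩, hcard⟩, _⟩, _⟩, _⟩ := h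
  rw [List.all_eq_true] at hcard
  constructor
  intro c
  have hlt : ∀ i j : Fin 4, i < j → (bits (code (c.1 i))).card < (bits (code (c.1 j))).card := by
    intro i j hij
    have := c.2 hij
    rw [lt_iff_code hok, ltm_iff (okList_pos hok (code_mem _)).2 (okList_pos hok (code_mem _)).2]
      at this
    exact Finset.card_lt_card this
  have h0 : 0 < (bits (code (c.1 0))).card := by
    have h1 := okList_pos hok (code_mem (c.1 0))
    exact Finset.card_pos.mpr (bits_nonempty h1.1 h1.2)
  have h1 := hlt 0 1 (by decide)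
  have h2 := hlt 1 2 (by decide)
  have h3 := hlt 2 3 (by decide)
  have h4 := hcard _ (code_mem (c.1 3))
  simp only [decide_eq_true_eq] at h4
  omega

end Pool.Agent.helper45.OC
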