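import Mathlib
import Pool.Agent.helper45.OC4

/-! The counterexample: a triangulated 2-sphere with two adjacent edges identified, and checks. -/

namespace Pool.Agent.helper45.OC

/-- The complex: 6 vertices, 14 edges, 10 triangles. The order of the list is chosen so that each
entry meets the later ones in a connected link. -/
def K : List ℕ := [16, 18, 19, 22, 2, 4, 12, 35, 20, 36, 6, 48, 10, 14, 13, 5, 8, 49, 3, 52, 37,
  33, 40, 9, 17, 1, 41, 32, 42, 34]

/-- The triangles of `K` together with the remaining faces after the deletion of the triangle. -/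
def D : List (ℕ × List ℕ) :=
  [(14, [4, 52, 48, 49, 37, 1, 41, 40, 22, 6, 3, 20, 12, 16, 18, 17, 19, 35, 5, 2, 9, 13, 8, 36,
    10, 33, 32, 34, 42]),
   (13, [12, 14, 6, 22, 16, 19, 1, 37, 17, 35, 41, 36, 40, 18, 5, 10, 33, 34, 48, 49, 20, 4, 52,
    3, 32, 2, 42, 8, 9]),
   (19, [2, 22, 20, 52, 42, 32, 33, 48, 18, 6, 40, 34, 4, 12, 35, 16, 5, 36, 49, 37, 3, 41, 17, 9,
    1, 13, 8, 10, 14]),
   (22, [2, 18, 42, 16, 8, 49, 34, 20, 32, 10, 14, 48, 37, 40, 33, 19, 13, 3, 52, 35, 17, 41, 9,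
    6, 1, 12, 36, 4, 5]),
   (41, [8, 10, 2, 19, 1, 22, 12, 17, 18, 33, 16, 3, 49, 14, 48, 6, 42, 20, 9, 13, 34, 37, 35, 40,
    5, 4, 32, 52, 36]),
   (42, [8, 14, 4, 36, 32, 48, 5, 16, 19, 9, 37, 10, 52, 6, 20, 35, 12, 49, 17, 40, 41, 22, 33, 18,
    13, 1, 3, 2, 34]),
   (35, [3, 19, 18, 22, 4, 52, 48, 36, 17, 20, 37, 16, 2, 5, 6, 49, 34, 1, 33, 12, 32, 13, 14, 41,
    9, 8, 10, 42, 40]),
   (49, [16, 20, 4, 14, 10, 42, 37, 6, 40, 18, 34, 5, 12, 22, 48, 35, 17, 52, 2, 19, 3, 36, 32, 13,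
    1, 9, 8, 33, 41]),
   (52, [4, 14, 10, 36, 6, 22, 2, 18, 35, 12, 32, 19, 34, 48, 33, 20, 16, 42, 17, 40, 3, 37, 49, 1,
    41, 5, 13, 9, 8]),
   (37, [4, 13, 8, 41, 32, 35, 3, 20, 36, 33, 5, 19, 12, 14, 40, 10, 49, 42, 18, 9, 34, 1, 2, 52,
    6, 17, 48, 22, 16])]

lemma K_ok : okList K = true := by decide +kernel
lemma K_closed : closedList K = true := by decide +kernel
lemma K_cm : cmCheck K = true := by decide +kernel
lemma K_card1 : K.toFinset.card = 30 := by decide +kernel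
lemma K_card2 : (chains2 K).toFinset.card = 88 := by decide +kernel
lemma K_card3 : (chains3 K).toFinset.card = 60 := by decide +kernel

lemma D_cm : D.all (fun p => cmCheck p.2) = true := by decide +kernel

lemma D_spec : D.all (fun p => K.contains p.1 && p.2.all (fun m => K.contains m && (m != p.1)) &&
    K.all (fun m => (m == p.1) || p.2.contains m) && (chains3 p.2).length != 0) = true := by
  decide +kernel

lemma D_all : K.all (fun m => K.any (fun m' => ltm m m') || D.any (fun p => p.1 == m)) = true := by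
  decide +kernel

end Pool.Agent.helper45.OC
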