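import Mathlib

/-! Basic planar orientation facts used for crossing families. -/

namespace Pool.Agent.helper45

open Set

/-- twice the signed area of the triangle `a b c` -/
def orr (a b c : ℝ × ℝ) : ℝ :=
  (b.1 - a.1) * (c.2 - a.2) - (b.2 - a.2) * (c.1 - a.1)

lemma orr_cyc (a b c : ℝ × ℝ) : orr b c a = orr a b c := by
  unfold orr; ring

lemma orr_swap (a b c : ℝ × ℝ) : orr b a c = - orr a b c := by
  unfold orr; ring

lemma orr_swap23 (a b c : ℝ × ℝ) : orr a c b = - orr a b c := by
  unfold orr; ring

lemma orr_self12 (a c : ℝ × ℝ) : orr a a c = 0 := by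
  unfold orr; ring

lemma orr_self13 (a c : ℝ × ℝ) : orr a c a = 0 := by
  unfold orr; ring

lemma orr_self23 (a c : ℝ × ℝ) : orr a c c = 0 := by
  unfold orr; ring

/-- If the orientation vanishes, the three points are collinear. -/
lemma collinear_of_orr_eq_zero {a b c : ℝ × ℝ} (hab : a ≠ b) (h : orr a b c = 0) :
    Collinear ℝ ({a, b, c} : Set (ℝ × ℝ)) := by
  rw [collinear_iff_of_mem (p₀ := a) (by simp)]
  refine ⟨b - a, ?_⟩
  intro p hp
  simp only [mem_insert_iff, mem_singleton_iff] at hp
  rcases hp with rfl | rfl | rfl
  · exact ⟨0, by simp⟩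
  · exact ⟨1, by simp⟩
  · by_cases h1 : b.1 - a.1 = 0
    · have h2 : b.2 - a.2 ≠ 0 := by
        intro h2
        apply hab
        ext
        · linarith
        · linarith
      refine ⟨(p.2 - a.2) / (b.2 - a.2), ?_⟩
      ext
      · simp only [vadd_eq_add, Prod.fst_add, Prod.smul_fst, Prod.fst_sub, smul_eq_mul, h1,
          mul_zero, zero_add]
        unfold orr at h
        rw [h1] at h
        have : (b.2 - a.2) * (p.1 - a.1) = 0 := by linarith
        rcases mul_eq_zero.mp this with h3 | h3
        · exact absurd h3 h2
        · linarith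
      · simp only [vadd_eq_add, Prod.snd_add, Prod.smul_snd, Prod.snd_sub, smul_eq_mul]
        field_simp
        ring
    · refine ⟨(p.1 - a.1) / (b.1 - a.1), ?_⟩
      ext
      · simp only [vadd_eq_add, Prod.fst_add, Prod.smul_fst, Prod.fst_sub, smul_eq_mul]
        field_simp
        ring
      · simp only [vadd_eq_add, Prod.snd_add, Prod.smul_snd, Prod.snd_sub, smul_eq_mul]
        unfold orr at h
        field_simp
        linarith

lemma continuous_orr (a b : ℝ × ℝ) : Continuous (fun p => orr a b p) := by
  unfold orr; fun_prop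

/-- Strictly positive barycentric coordinates put `p` in the interior of the triangle. -/
lemma mem_interior_of_pos {a b c p : ℝ × ℝ} (h1 : 0 < orr a b p) (h2 : 0 < orr b c p)
    (h3 : 0 < orr c a p) : p ∈ interior (convexHull ℝ ({a, b, c} : Set (ℝ × ℝ))) := by
  rw [mem_interior]
  refine ⟨{q | 0 < orr a b q} ∩ ({q | 0 < orr b c q} ∩ {q | 0 < orr c a q}), ?_, ?_, ?_⟩
  · rintro q ⟨hq1, hq2, hq3⟩
    simp only [mem_setOf_eq] at hq1 hq2 hq3
    have hD : orr a b q + orr b c q + orr c a q = orr a b c := by unfold orr; ring
    have hDpos : 0 < orr a b c := by linarith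
    have ha : a ∈ convexHull ℝ ({a, b, c} : Set (ℝ × ℝ)) := subset_convexHull _ _ (by simp)
    have hb : b ∈ convexHull ℝ ({a, b, c} : Set (ℝ × ℝ)) := subset_convexHull _ _ (by simp)
    have hc : c ∈ convexHull ℝ ({a, b, c} : Set (ℝ × ℝ)) := subset_convexHull _ _ (by simp)
    have hq : q = (orr b c q / orr a b c) • a + (orr c a q / orr a b c) • b
        + (orr a b q / orr a b c) • c := by
      have hne : orr a b c ≠ 0 := hDpos.ne'
      ext
      · simp only [Prod.fst_add, Prod.smul_fst, smul_eq_mul]
        field_simp
        unfold orr; ring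
      · simp only [Prod.snd_add, Prod.smul_snd, smul_eq_mul]
        field_simp
        unfold orr; ring
    rw [hq]
    have key := (convex_convexHull ℝ ({a, b, c} : Set (ℝ × ℝ)))
    have hsum : orr b c q / orr a b c + orr c a q / orr a b c + orr a b q / orr a b c = 1 := by
      rw [← hD]
      have : orr a b q + orr b c q + orr c a q ≠ 0 := by positivity
      field_simp
      ring
    have := Convex.sum_mem (s := convexHull ℝ ({a, b, c} : Set (ℝ × ℝ)))
      (t := Finset.univ) (w := ![orr b c q / orr a b c, orr c a q / orr a b c,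
        orr a b q / orr a b c]) (z := ![a, b, c]) key
      (by
        intro i _
        fin_cases i
        · exact (div_pos hq2 hDpos).le
        · exact (div_pos hq3 hDpos).le
        · exact (div_pos hq1 hDpos).le)
      (by simp [Fin.sum_univ_three]; linarith)
      (by
        intro i _
        fin_cases i
        · exact ha
        · exact hb
        · exact hc)
    simpa [Fin.sum_univ_three] using this
  · exact (isOpen_lt continuous_const (continuous_orr a b)).inter
      ((isOpen_lt continuous_const (continuous_orr b c)).inter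
        (isOpen_lt continuous_const (continuous_orr c a)))
  · exact ⟨h1, h2, h3⟩

/-- the same with all three orientations negative -/
lemma mem_interior_of_neg {a b c p : ℝ × ℝ} (h1 : orr a b p < 0) (h2 : orr b c p < 0)
    (h3 : orr c a p < 0) : p ∈ interior (convexHull ℝ ({a, b, c} : Set (ℝ × ℝ))) := by
  have : p ∈ interior (convexHull ℝ ({c, b, a} : Set (ℝ × ℝ))) := by
    apply mem_interior_of_pos
    · rw [orr_swap]; linarith
    · rw [orr_swap]; linarith
    · rw [orr_swap]; linarith
  have hset : ({c, b, a} : Set (ℝ × ℝ)) = {a, b, c} := by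
    ext x; simp only [mem_insert_iff, mem_singleton_iff]; tauto
  rwa [hset] at this

/-- segments `ab` and `cd` cross (sign version) -/
def CrossO (a b c d : ℝ × ℝ) : Prop :=
  orr a b c * orr a b d < 0 ∧ orr c d a * orr c d b < 0

lemma CrossO.symm {a b c d : ℝ × ℝ} (h : CrossO a b c d) : CrossO c d a b := ⟨h.2, h.1⟩

/-- two closed segments meet in exactly one point, which is a relative interior point of both -/
def Cross (a b c d : ℝ × ℝ) : Prop :=
  ∃ p, segment ℝ a b ∩ segment ℝ c d = {p} ∧ p ∈ openSegment ℝ a b ∧ p ∈ openSegment ℝ c d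

lemma orr_openSegment_eq (a b : ℝ × ℝ) (s t : ℝ) (hst : s + t = 1) (c d : ℝ × ℝ) :
    orr a b (s • c + t • d) = s * orr a b c + t * orr a b d := by
  have hs : s = 1 - t := by linarith
  subst hs
  unfold orr
  simp only [Prod.fst_add, Prod.snd_add, Prod.smul_fst, Prod.smul_snd, smul_eq_mul]
  ring

lemma orr_self_comb (a b : ℝ × ℝ) (s t : ℝ) (hst : s + t = 1) :
    orr a b (s • a + t • b) = 0 := by
  rw [orr_openSegment_eq a b s t hst, orr_self13, orr_self23]; ring

lemma cross_of_crossO {a b c d : ℝ × ℝ} (h : CrossO a b c d) : Cross a b c d := by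
  obtain ⟨h1, h2⟩ := h
  -- the crossing point
  set A := orr c d a with hA
  set B := orr c d b with hB
  set C := orr a b c with hC
  set D := orr a b d with hD
  have hAB : A - B ≠ 0 := by
    intro h0
    have : A = B := by linarith
    rw [this] at h2
    nlinarith [mul_self_nonneg B]
  have hCD : C - D ≠ 0 := by
    intro h0
    have : C = D := by linarith
    rw [this] at h1
    nlinarith [mul_self_nonneg D]
  have hrel : A - B = D - C := by
    rw [hA, hB, hC, hD]; unfold orr; ring
  -- positivity of the weights
  have hw1 : 0 < A / (A - B) := by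
    rcases lt_or_gt_of_ne (show A ≠ 0 by rintro h0; rw [h0] at h2; simp at h2) with hA0 | hA0
    · have hB0 : 0 < B := by
        by_contra hcon; push Not at hcon; nlinarith
      exact div_pos_of_neg_of_neg hA0 (by linarith)
    · have hB0 : B < 0 := by
        by_contra hcon; push Not at hcon; nlinarith
      exact div_pos hA0 (by linarith)
  have hw2 : 0 < -B / (A - B) := by
    rcases lt_or_gt_of_ne (show A ≠ 0 by rintro h0; rw [h0] at h2; simp at h2) with hA0 | hA0
    · have hB0 : 0 < B := by
        by_contra hcon; push Not at hcon; nlinarith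
      exact div_pos_of_neg_of_neg (by linarith) (by linarith)
    · have hB0 : B < 0 := by
        by_contra hcon; push Not at hcon; nlinarith
      exact div_pos (by linarith) (by linarith)
  have hw3 : 0 < C / (C - D) := by
    rcases lt_or_gt_of_ne (show C ≠ 0 by rintro h0; rw [h0] at h1; simp at h1) with hA0 | hA0
    · have hB0 : 0 < D := by
        by_contra hcon; push Not at hcon; nlinarith
      exact div_pos_of_neg_of_neg hA0 (by linarith)
    · have hB0 : D < 0 := by
        by_contra hcon; push Not at hcon; nlinarith
      exact div_pos hA0 (by linarith)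
  have hw4 : 0 < -D / (C - D) := by
    rcases lt_or_gt_of_ne (show C ≠ 0 by rintro h0; rw [h0] at h1; simp at h1) with hA0 | hA0
    · have hB0 : 0 < D := by
        by_contra hcon; push Not at hcon; nlinarith
      exact div_pos_of_neg_of_neg (by linarith) (by linarith)
    · have hB0 : D < 0 := by
        by_contra hcon; push Not at hcon; nlinarith
      exact div_pos (by linarith) (by linarith)
  have hs1 : -B / (A - B) + A / (A - B) = 1 := by
    rw [← add_div]; rw [div_eq_one_iff_eq hAB]; ring
  have hs2 : -D / (C - D) + C / (C - D) = 1 := by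
    rw [← add_div]; rw [div_eq_one_iff_eq hCD]; ring
  refine ⟨(-B / (A - B)) • a + (A / (A - B)) • b, ?_, ?_, ?_⟩
  · ext q
    simp only [mem_inter_iff, mem_singleton_iff]
    constructor
    · rintro ⟨⟨s, t, hs, ht, hst, rfl⟩, ⟨s', t', hs', ht', hst', hq⟩⟩
      have h0 : orr c d (s • a + t • b) = 0 := by
        rw [← hq]; exact orr_self_comb c d s' t' hst'
      rw [orr_openSegment_eq c d s t hst, ← hA, ← hB] at h0
      have hs_eq : s = 1 - t := by linarith
      have ht_eq : t = A / (A - B) := by
        rw [eq_div_iff hAB]; rw [hs_eq] at h0; linarith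
      have hs_eq' : s = -B / (A - B) := by linarith
      rw [ht_eq, hs_eq']
    · intro hq
      subst hq
      constructor
      · exact ⟨_, _, hw2.le, hw1.le, hs1, rfl⟩
      · refine ⟨-D / (C - D), C / (C - D), hw4.le, hw3.le, hs2, ?_⟩
        have hCD' : C - D = -(A - B) := by linarith
        rw [hCD', div_neg, div_neg]
        ext
        · simp only [Prod.fst_add, Prod.smul_fst, smul_eq_mul]
          field_simp
          rw [hA, hB, hC, hD]; unfold orr; ring
        · simp only [Prod.snd_add, Prod.smul_snd, smul_eq_mul]
          field_simp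
          rw [hA, hB, hC, hD]; unfold orr; ring
  · exact ⟨_, _, hw2, hw1, hs1, rfl⟩
  · refine ⟨-D / (C - D), C / (C - D), hw4, hw3, hs2, ?_⟩
    have hCD' : C - D = -(A - B) := by linarith
    rw [hCD', div_neg, div_neg]
    ext
    · simp only [Prod.fst_add, Prod.smul_fst, smul_eq_mul]
      field_simp
      rw [hA, hB, hC, hD]; unfold orr; ring
    · simp only [Prod.snd_add, Prod.smul_snd, smul_eq_mul]
      field_simp
      rw [hA, hB, hC, hD]; unfold orr; ring

end Pool.Agent.helper45
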