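import Mathlib
import Pool.Agent.helper45.CF1

/-! Combinatorial lemmas: bipartite Ramsey, and blocks of cups. -/

namespace Pool.Agent.helper45

open Finset

/-- Bipartite Ramsey theorem for finitely many colours. -/
lemma bip_ramsey {κ : Type*} [Fintype κ] [DecidableEq κ] (m : ℕ) :
    ∃ M : ℕ, ∀ {α β : Type} [DecidableEq α] [DecidableEq β] (X : Finset α) (Y : Finset β)
      (col : α → β → κ), M ≤ X.card → M ≤ Y.card →
      ∃ X' ⊆ X, ∃ Y' ⊆ Y, X'.card = m ∧ Y'.card = m ∧ ∃ k, ∀ x ∈ X', ∀ y ∈ Y', col x y = k := by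
  classical
  -- the number of colours
  set q := Fintype.card κ with hq
  set L := q * m + 1 with hL
  refine ⟨max L (q ^ L * m + 1), ?_⟩
  intro α β _ _ X Y col hX hY
  obtain ⟨Y0, hY0, hY0c⟩ := Finset.exists_subset_card_eq (le_trans (le_max_left _ _) hY)
  -- colour vectors
  have hX' : q ^ L * m < X.card := by
    have := le_trans (le_max_right _ _) hX
    omega
  let vec : α → (Y0 → κ) := fun x y => col x y.1
  have hcardvec : Fintype.card (Y0 → κ) = q ^ L := by
    rw [Fintype.card_fun, Fintype.card_coe, hY0c]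
  obtain ⟨v, -, hv⟩ := Finset.exists_lt_card_fiber_of_mul_lt_card_of_maps_to
    (s := X) (t := (Finset.univ : Finset (Y0 → κ))) (f := vec) (n := m)
    (fun _ _ => Finset.mem_univ _) (by rw [Finset.card_univ, hcardvec]; exact hX')
  obtain ⟨X', hX'sub, hX'c⟩ := Finset.exists_subset_card_eq hv.le
  -- a popular colour in `v`
  have hY0' : q * m < Y0.card := by rw [hY0c]; omega
  obtain ⟨k, -, hk⟩ := Finset.exists_lt_card_fiber_of_mul_lt_card_of_maps_to
    (s := (Finset.univ : Finset Y0)) (t := (Finset.univ : Finset κ)) (f := v) (n := m)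
    (fun _ _ => Finset.mem_univ _)
    (by rw [Finset.card_univ, Finset.card_univ, Fintype.card_coe]; exact hY0')
  obtain ⟨Y', hY'sub, hY'c⟩ := Finset.exists_subset_card_eq hk.le
  refine ⟨X', ?_, Y'.map (Function.Embedding.subtype _), ?_, hX'c, ?_, k, ?_⟩
  · intro x hx
    exact (Finset.mem_filter.mp (hX'sub hx)).1
  · intro y hy
    rw [Finset.mem_map] at hy
    obtain ⟨y', -, rfl⟩ := hy
    exact hY0 y'.2
  · rw [Finset.card_map]; exact hY'c
  · intro x hx y hy
    rw [Finset.mem_map] at hy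
    obtain ⟨y', hy', rfl⟩ := hy
    have h1 := (Finset.mem_filter.mp (hX'sub hx)).2
    have h2 := (Finset.mem_filter.mp (hY'sub hy')).2
    rw [← h2, ← h1]
    rfl

/-- height at abscissa `w` of the line through `p` and `q` -/
noncomputable def hh (w : ℝ) (p q : ℝ × ℝ) : ℝ :=
  ((q.1 - w) * p.2 + (w - p.1) * q.2) / (q.1 - p.1)

lemma hh_identity (w : ℝ) {p q p' q' : ℝ × ℝ} (h : p.1 < w) (h2 : w < q.1) (h' : p'.1 < w)
    (h2' : w < q'.1) :
    (q.1 - p.1) * (hh w p' q' - hh w p q) =
      ((q'.1 - w) * orr p q p' + (w - p'.1) * orr p q q') / (q'.1 - p'.1) := by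
  have h3 : q.1 - p.1 ≠ 0 := by linarith
  have h4 : q'.1 - p'.1 ≠ 0 := by linarith
  unfold hh orr
  field_simp
  ring

/-- Maximal chord: nothing is strictly above the line on the left side. -/
lemma left_le_of_max {w : ℝ} {p q p' : ℝ × ℝ} (h : p.1 < w) (h2 : w < q.1) (h' : p'.1 < w)
    (hmax : hh w p' q ≤ hh w p q) : orr p q p' ≤ 0 := by
  by_contra hcon
  push Not at hcon
  have hid := hh_identity w h h2 h' h2
  rw [orr_self23, mul_zero, add_zero] at hid
  have h5 : 0 < (q.1 - w) * orr p q p' / (q.1 - p'.1) := by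
    apply div_pos
    · exact mul_pos (by linarith) hcon
    · linarith
  rw [← hid] at h5
  nlinarith

lemma right_le_of_max {w : ℝ} {p q q' : ℝ × ℝ} (h : p.1 < w) (h2 : w < q.1) (h' : w < q'.1)
    (hmax : hh w p q' ≤ hh w p q) : orr p q q' ≤ 0 := by
  by_contra hcon
  push Not at hcon
  have hid := hh_identity w h h2 h h'
  rw [orr_self13, mul_zero, zero_add] at hid
  have h5 : 0 < (w - p.1) * orr p q q' / (q'.1 - p.1) := by
    apply div_pos
    · exact mul_pos (by linarith) hcon
    · linarith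
  rw [← hid] at h5
  nlinarith

/-- If the chord `p' q'` is at least as high as `p q` at `w`, one of its ends is weakly above. -/
lemma end_above_of_ge {w : ℝ} {p q p' q' : ℝ × ℝ} (h : p.1 < w) (h2 : w < q.1) (h' : p'.1 < w)
    (h2' : w < q'.1) (hge : hh w p q ≤ hh w p' q') : 0 ≤ orr p q p' ∨ 0 ≤ orr p q q' := by
  by_contra hcon
  push Not at hcon
  obtain ⟨hc1, hc2⟩ := hcon
  have hid := hh_identity w h h2 h' h2'
  have h5 : ((q'.1 - w) * orr p q p' + (w - p'.1) * orr p q q') / (q'.1 - p'.1) < 0 := by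
    apply div_neg_of_neg_of_pos
    · nlinarith
    · linarith
  rw [← hid] at h5
  nlinarith

lemma below_of_below {p q p' q' r : ℝ × ℝ} (hpq : p.1 < q.1) (h1 : p'.1 < r.1) (h2 : r.1 < q'.1)
    (hp : orr p q p' ≤ 0) (hq : orr p q q' ≤ 0) (hr : orr p' q' r < 0) : orr p q r < 0 := by
  have hid : (q'.1 - p'.1) * orr p q r = (q'.1 - r.1) * orr p q p' + (r.1 - p'.1) * orr p q q'
      + (q.1 - p.1) * orr p' q' r := by unfold orr; ring
  have hlt : (q'.1 - p'.1) * orr p q r < 0 := by
    rw [hid]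
    have a1 : (q'.1 - r.1) * orr p q p' ≤ 0 :=
      mul_nonpos_of_nonneg_of_nonpos (by linarith) hp
    have a2 : (r.1 - p'.1) * orr p q q' ≤ 0 :=
      mul_nonpos_of_nonneg_of_nonpos (by linarith) hq
    have a3 : (q.1 - p.1) * orr p' q' r < 0 := mul_neg_of_pos_of_neg (by linarith) hr
    linarith
  by_contra hcon
  push Not at hcon
  have : 0 ≤ (q'.1 - p'.1) * orr p q r := mul_nonneg (by linarith) hcon
  linarith

/-- one step of the greedy selection -/
lemma greedy_step {ι : Type} (I : Finset ι) (hI : I.Nonempty) (H : ι → ι → ℝ) :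
    ∃ ac : ι × ι, ac.1 ∈ I ∧ ac.2 ∈ I ∧ ∀ i ∈ I, ∀ k ∈ I, H i k ≤ H ac.1 ac.2 := by
  obtain ⟨ac, hac, hmax⟩ := Finset.exists_max_image (I ×ˢ I) (fun p => H p.1 p.2)
    (hI.product hI)
  rw [Finset.mem_product] at hac
  exact ⟨ac, hac.1, hac.2, fun i hi k hk => hmax (i, k) (Finset.mem_product.mpr ⟨hi, hk⟩)⟩

/-- the greedy sequence -/
lemma greedy_seq {ι : Type} [DecidableEq ι] (H : ι → ι → ℝ) (M : ℕ) :
    ∀ (n : ℕ) (I : Finset ι), 2 * n + M + 1 ≤ I.card →
    ∃ (a c : ℕ → ι) (J : ℕ → Finset ι), J 0 = I ∧ (∀ s, J (s + 1) ⊆ J s) ∧ M ≤ (J n).card ∧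
      (∀ s < n, a s ∈ J s ∧ c s ∈ J s ∧ a s ∉ J (s + 1) ∧ c s ∉ J (s + 1) ∧
        ∀ i ∈ J s, ∀ k ∈ J s, H i k ≤ H (a s) (c s)) := by
  intro n
  induction n with
  | zero =>
    intro I hI
    have hne : I.Nonempty := by
      rw [← Finset.card_pos]; omega
    obtain ⟨i, hi⟩ := hne
    refine ⟨fun _ => i, fun _ => i, fun _ => I, rfl, fun s => Finset.Subset.refl _,
      (show M ≤ I.card by omega), ?_⟩
    intro s hs
    omega
  | succ n ih =>
    intro I hI
    have hne : I.Nonempty := by
      rw [← Finset.card_pos]; omega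
    obtain ⟨ac, h1, h2, h3⟩ := greedy_step I hne H
    have hcard : 2 * n + M + 1 ≤ ((I.erase ac.1).erase ac.2).card := by
      have e1 := Finset.card_erase_of_mem h1
      have e2 := Finset.pred_card_le_card_erase (s := I.erase ac.1) (a := ac.2)
      omega
    obtain ⟨a, c, J, hJ0, hJs, hJM, hJ⟩ := ih _ hcard
    refine ⟨fun s => Nat.casesOn s ac.1 a, fun s => Nat.casesOn s ac.2 c,
      fun s => Nat.casesOn s I J, rfl, ?_, hJM, ?_⟩
    · intro s
      cases s with
      | zero =>
        change J 0 ⊆ I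
        rw [hJ0]
        exact (Finset.erase_subset _ _).trans (Finset.erase_subset _ _)
      | succ s => exact hJs s
    · intro s hs
      cases s with
      | zero =>
        refine ⟨h1, h2, ?_, ?_, h3⟩
        · change ac.1 ∉ J 0
          rw [hJ0]
          intro h
          exact Finset.notMem_erase ac.1 I (Finset.mem_of_mem_erase h)
        · change ac.2 ∉ J 0
          rw [hJ0]
          exact Finset.notMem_erase _ _
      | succ s => exact hJ s (by omega)

/-- Many separated cups contain a large block of cups. -/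
lemma block_of_cups (M : ℕ) : ∃ R : ℕ, ∀ {ι : Type} [DecidableEq ι] (I : Finset ι)
    (x y z : ι → ℝ × ℝ) (w : ℝ), R ≤ I.card → (∀ i ∈ I, (x i).1 < w) → (∀ i ∈ I, w < (z i).1) →
    (∀ i ∈ I, ∀ j ∈ I, (x i).1 < (y j).1) → (∀ i ∈ I, ∀ j ∈ I, (y i).1 < (z j).1) →
    (∀ i ∈ I, orr (x i) (z i) (y i) < 0) →
    ∃ X ⊆ I, ∃ Y ⊆ I, ∃ Z ⊆ I, X.card = M ∧ Y.card = M ∧ Z.card = M ∧
      ∀ i ∈ X, ∀ j ∈ Y, ∀ k ∈ Z, orr (x i) (z k) (y j) < 0 := by
  classical
  obtain ⟨n, hn⟩ := bip_ramsey (κ := Bool) M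
  refine ⟨2 * (2 * n) + M + 1, ?_⟩
  intro ι _ I x y z w hcard hxw hwz hxy hyz hcup
  obtain ⟨a, c, J, hJ0, hJs, hJM, hJ⟩ := greedy_seq (fun i k => hh w (x i) (z k)) M (2 * n) I hcard
  have hJanti : ∀ s t, s ≤ t → J t ⊆ J s := by
    intro s t hst
    induction t, hst using Nat.le_induction with
    | base => exact Finset.Subset.refl _
    | succ t _ ih => exact (hJs t).trans ih
  have hJI : ∀ s, J s ⊆ I := fun s => by
    have := hJanti 0 s (Nat.zero_le _)
    rwa [hJ0] at this
  -- colour pairs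
  let col : ℕ → ℕ → Bool := fun s t => decide (0 ≤ orr (x (a t)) (z (c t)) (x (a s)))
  obtain ⟨S, hS, T, hT, hSc, hTc, b, hb⟩ := hn (Finset.range n) (Finset.Ico n (2 * n)) col
    (by simp) (by simp; omega)
  obtain ⟨Y, hY, hYc⟩ := Finset.exists_subset_card_eq hJM
  have hYI : Y ⊆ I := hY.trans (hJI _)
  have hSlt : ∀ s ∈ S, s < n := fun s hs => Finset.mem_range.mp (hS hs)
  have hTlt : ∀ t ∈ T, n ≤ t ∧ t < 2 * n := fun t ht => Finset.mem_Ico.mp (hT ht)
  -- every `y j`, `j ∈ Y`, lies below each greedy chord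
  have hbelow : ∀ t < 2 * n, ∀ j ∈ Y, orr (x (a t)) (z (c t)) (y j) < 0 := by
    intro t ht j hj
    obtain ⟨ha, hc, -, -, hmax⟩ := hJ t ht
    have hjt : j ∈ J t := hJanti t (2 * n) ht.le (hY hj)
    have hjI := hYI hj
    have haI := hJI _ ha
    have hcI := hJI _ hc
    apply below_of_below (p' := x j) (q' := z j)
    · exact lt_trans (hxw _ haI) (hwz _ hcI)
    · exact hxy _ hjI _ hjI
    · exact hyz _ hjI _ hjI
    · exact left_le_of_max (hxw _ haI) (hwz _ hcI) (hxw _ hjI) (hmax j hjt (c t) hc)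
    · exact right_le_of_max (hxw _ haI) (hwz _ hcI) (hwz _ hjI) (hmax (a t) ha j hjt)
    · exact hcup j hjI
  have hinj_a : ∀ s t, s < 2 * n → t < 2 * n → a s = a t → s = t := by
    intro s t hs ht hst
    by_contra hne
    rcases lt_or_gt_of_ne hne with h | h
    · have h1 := (hJ s hs).2.2.1
      have h2 := hJanti (s + 1) t h (hJ t ht).1
      rw [← hst] at h2
      exact h1 h2
    · have h1 := (hJ t ht).2.2.1
      have h2 := hJanti (t + 1) s h (hJ s hs).1
      rw [hst] at h2
      exact h1 h2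
  have hinj_c : ∀ s t, s < 2 * n → t < 2 * n → c s = c t → s = t := by
    intro s t hs ht hst
    by_contra hne
    rcases lt_or_gt_of_ne hne with h | h
    · have h1 := (hJ s hs).2.2.2.1
      have h2 := hJanti (s + 1) t h (hJ t ht).2.1
      rw [← hst] at h2
      exact h1 h2
    · have h1 := (hJ t ht).2.2.2.1
      have h2 := hJanti (t + 1) s h (hJ s hs).2.1
      rw [hst] at h2
      exact h1 h2
  cases b with
  | true =>
    -- the left ends are weakly above the later chords
    refine ⟨S.image a, ?_, Y, hYI, T.image c, ?_, ?_, hYc, ?_, ?_⟩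
    · intro i hi
      obtain ⟨s, hs, rfl⟩ := Finset.mem_image.mp hi
      exact hJI s (hJ s (by have := hSlt s hs; omega)).1
    · intro i hi
      obtain ⟨s, hs, rfl⟩ := Finset.mem_image.mp hi
      exact hJI s (hJ s (hTlt s hs).2).2.1
    · rw [Finset.card_image_of_injOn, hSc]
      intro s hs t ht hst
      exact hinj_a s t (by have := hSlt s hs; omega) (by have := hSlt t ht; omega) hst
    · rw [Finset.card_image_of_injOn, hTc]
      intro s hs t ht hst
      exact hinj_c s t (hTlt s hs).2 (hTlt t ht).2 hst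
    · intro i hi j hj k hk
      obtain ⟨s, hs, rfl⟩ := Finset.mem_image.mp hi
      obtain ⟨t, ht, rfl⟩ := Finset.mem_image.mp hk
      have hs2 : s < 2 * n := by have := hSlt s hs; omega
      have ht2 := (hTlt t ht).2
      have hab := hb s hs t ht
      simp only [col, decide_eq_true_eq] at hab
      have hlow := hbelow t ht2 j hj
      have hasI := hJI _ (hJ s hs2).1
      have hatI := hJI _ (hJ t ht2).1
      have hctI := hJI _ (hJ t ht2).2.1
      have hjI := hYI hj
      apply below_of_below (p' := x (a t)) (q' := z (c t))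
      · exact lt_trans (hxw _ hasI) (hwz _ hctI)
      · exact hxy _ hatI _ hjI
      · exact hyz _ hjI _ hctI
      · have : orr (x (a s)) (z (c t)) (x (a t)) = - orr (x (a t)) (z (c t)) (x (a s)) := by
          unfold orr; ring
        rw [this]; linarith
      · rw [orr_self23]
      · exact hlow
  | false =>
    refine ⟨T.image a, ?_, Y, hYI, S.image c, ?_, ?_, hYc, ?_, ?_⟩
    · intro i hi
      obtain ⟨s, hs, rfl⟩ := Finset.mem_image.mp hi
      exact hJI s (hJ s (hTlt s hs).2).1
    · intro i hi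
      obtain ⟨s, hs, rfl⟩ := Finset.mem_image.mp hi
      exact hJI s (hJ s (by have := hSlt s hs; omega)).2.1
    · rw [Finset.card_image_of_injOn, hTc]
      intro s hs t ht hst
      exact hinj_a s t (hTlt s hs).2 (hTlt t ht).2 hst
    · rw [Finset.card_image_of_injOn, hSc]
      intro s hs t ht hst
      exact hinj_c s t (by have := hSlt s hs; omega) (by have := hSlt t ht; omega) hst
    · intro i hi j hj k hk
      obtain ⟨t, ht, rfl⟩ := Finset.mem_image.mp hi
      obtain ⟨s, hs, rfl⟩ := Finset.mem_image.mp hk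
      have hs2 : s < 2 * n := by have := hSlt s hs; omega
      have ht2 := (hTlt t ht).2
      have hab := hb s hs t ht
      simp only [col, decide_eq_false_iff_not, not_le] at hab
      have hlow := hbelow t ht2 j hj
      have hatI := hJI _ (hJ t ht2).1
      have hctI := hJI _ (hJ t ht2).2.1
      have hasI := hJI _ (hJ s hs2).1
      have hcsI := hJI _ (hJ s hs2).2.1
      have hjI := hYI hj
      -- the height of the `s` chord is at least that of the `t` chord
      have hst : s ≤ t := by have := hSlt s hs; have := (hTlt t ht).1; omega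
      have hge : hh w (x (a t)) (z (c t)) ≤ hh w (x (a s)) (z (c s)) :=
        (hJ s hs2).2.2.2.2 (a t) (hJanti s t hst (hJ t ht2).1) (c t)
          (hJanti s t hst (hJ t ht2).2.1)
      have hend := end_above_of_ge (hxw _ hatI) (hwz _ hctI) (hxw _ hasI) (hwz _ hcsI) hge
      have hend2 : 0 ≤ orr (x (a t)) (z (c t)) (z (c s)) := by
        rcases hend with h | h
        · linarith
        · exact h
      apply below_of_below (p' := x (a t)) (q' := z (c t))
      · exact lt_trans (hxw _ hatI) (hwz _ hcsI)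
      · exact hxy _ hatI _ hjI
      · exact hyz _ hjI _ hctI
      · rw [orr_self13]
      · have : orr (x (a t)) (z (c s)) (z (c t)) = - orr (x (a t)) (z (c t)) (z (c s)) := by
          unfold orr; ring
        rw [this]; linarith
      · exact hlow

end Pool.Agent.helper45
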