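import Mathlib
import Pool.Agent.helper45.CF2

/-! From a block of cups around a deep point to a non-crossing family. -/

namespace Pool.Agent.helper45

open Finset

/-- `p` is strictly inside the triangle `a b c` (sign version) -/
def InTri (a b c p : ℝ × ℝ) : Prop :=
  (0 < orr a b p ∧ 0 < orr b c p ∧ 0 < orr c a p) ∨ (orr a b p < 0 ∧ orr b c p < 0 ∧ orr c a p < 0)

lemma InTri.interior {a b c p : ℝ × ℝ} (h : InTri a b c p) :
    p ∈ interior (convexHull ℝ ({a, b, c} : Set (ℝ × ℝ))) := by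
  rcases h with ⟨h1, h2, h3⟩ | ⟨h1, h2, h3⟩
  · exact mem_interior_of_pos h1 h2 h3
  · exact mem_interior_of_neg h1 h2 h3

/-- the key planar fact for thin cones -/
lemma inTri_of_sides {o x y z l r : ℝ × ℝ} {t : ℝ} (ho : o.2 < t) (hl : l.2 < t) (hr : r.2 < t)
    (hy : t < y.2) (hxyo : 0 < orr x y o) (hyzo : 0 < orr y z o) (hcup : orr x y z < 0)
    (hl1 : 0 < orr x y l) (hl2 : orr y z l < 0) (hr1 : orr x y r < 0) (hr2 : 0 < orr y z r) :
    InTri x l r y := by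
  right
  refine ⟨?_, ?_, ?_⟩
  · have : orr x l y = - orr x y l := by unfold orr; ring
    rw [this]; linarith
  · -- the main point
    by_contra hcon
    push Not at hcon
    -- [R,O] > 0 and [O,L] > 0 where vectors are taken from y
    have e1 : orr r o y * orr x y z = -(orr y z r * orr x y o) + orr x y r * orr y z o := by
      unfold orr; ring
    have e2 : orr o l y * orr x y z = -(orr y z o * orr x y l) + orr x y o * orr y z l := by
      unfold orr; ring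
    have hro : 0 < orr r o y := by
      by_contra hc
      push Not at hc
      have h1 : 0 ≤ orr r o y * orr x y z := mul_nonneg_of_nonpos_of_nonpos hc hcup.le
      have h2 : 0 < orr y z r * orr x y o := mul_pos hr2 hxyo
      have h3 : orr x y r * orr y z o < 0 := mul_neg_of_neg_of_pos hr1 hyzo
      linarith
    have hol : 0 < orr o l y := by
      by_contra hc
      push Not at hc
      have h1 : 0 ≤ orr o l y * orr x y z := mul_nonneg_of_nonpos_of_nonpos hc hcup.le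
      have h2 : 0 < orr y z o * orr x y l := mul_pos hyzo hl1
      have h3 : orr x y o * orr y z l < 0 := mul_neg_of_pos_of_neg hxyo hl2
      linarith
    have e3 : orr l r y * (o.2 - y.2) + orr r o y * (l.2 - y.2) + orr o l y * (r.2 - y.2) = 0 := by
      unfold orr; ring
    have h1 : orr l r y * (o.2 - y.2) ≤ 0 :=
      mul_nonpos_of_nonneg_of_nonpos hcon (by linarith)
    have h2 : orr r o y * (l.2 - y.2) < 0 := mul_neg_of_pos_of_neg hro (by linarith)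
    have h3 : orr o l y * (r.2 - y.2) < 0 := mul_neg_of_pos_of_neg hol (by linarith)
    linarith
  · rw [← orr_cyc] at hr1
    rw [← orr_cyc] at hr1
    exact hr1

lemma inTri_of_cone {x y z b : ℝ × ℝ} (hcup : orr x y z < 0)
    (hl1 : 0 < orr x y b) (hl2 : 0 < orr y z b) : InTri x z b y := by
  left
  refine ⟨?_, ?_, ?_⟩
  · have : orr x z y = - orr x y z := by unfold orr; ring
    rw [this]; linarith
  · rw [← orr_cyc]
    rw [← orr_cyc] at hl2
    have : orr b y z = orr y z b := by unfold orr; ring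
    rw [this]; rw [← orr_cyc]; exact hl2
  · have : orr b x y = orr x y b := by unfold orr; ring
    rw [this]; exact hl1

lemma noncrossing_of_block (K m : ℕ) : ∃ M : ℕ, ∀ (b : Fin K → ℝ × ℝ) (o : ℝ × ℝ) (t : ℝ)
    (X Y Z : Finset (ℝ × ℝ)), Function.Injective b → (∀ i, (b i).2 < t) → o.2 < t →
    (∀ y ∈ Y, t < y.2) →
    (∀ x ∈ X, ∀ y ∈ Y, 0 < orr o x y) → (∀ y ∈ Y, ∀ z ∈ Z, 0 < orr o y z) →
    (∀ x ∈ X, ∀ y ∈ Y, ∀ z ∈ Z, orr x y z < 0) →
    (∀ x ∈ X, ∀ y ∈ Y, ∀ i, orr x y (b i) ≠ 0) → (∀ y ∈ Y, ∀ z ∈ Z, ∀ i, orr y z (b i) ≠ 0) →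
    (∀ x ∈ X, ∀ y ∈ Y, 2 * m ≤ (univ.filter fun i => 0 < orr x y (b i)).card) →
    (∀ y ∈ Y, ∀ z ∈ Z, 2 * m ≤ (univ.filter fun i => 0 < orr y z (b i)).card) →
    M ≤ X.card → M ≤ Y.card → M ≤ Z.card →
    ∃ P1 P2 P3 P4 : Finset (ℝ × ℝ), m ≤ P1.card ∧ m ≤ P2.card ∧ m ≤ P3.card ∧ m ≤ P4.card ∧
      (P1 ⊆ X ∪ Y ∪ Z ∪ univ.image b) ∧ (P2 ⊆ X ∪ Y ∪ Z ∪ univ.image b) ∧
      (P3 ⊆ X ∪ Y ∪ Z ∪ univ.image b) ∧ (P4 ⊆ X ∪ Y ∪ Z ∪ univ.image b) ∧
      ∀ p1 ∈ P1, ∀ p2 ∈ P2, ∀ p3 ∈ P3, ∀ p4 ∈ P4, InTri p1 p2 p3 p4 := by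
  classical
  obtain ⟨M0, hM0⟩ := bip_ramsey (κ := Finset (Fin K)) m
  obtain ⟨M1, hM1⟩ := bip_ramsey (κ := Finset (Fin K)) (max M0 m)
  refine ⟨max M0 M1, ?_⟩
  intro b o t X Y Z hb hbt hot hYt hXY hYZ hcup hn1 hn2 hd1 hd2 hX hY hZ
  obtain ⟨X1, hX1, Y1, hY1, hX1c, hY1c, T, hT⟩ := hM1 X Y
    (fun x y => univ.filter fun i => 0 < orr x y (b i))
    (le_trans (le_max_right _ _) hX) (le_trans (le_max_right _ _) hY)
  obtain ⟨Z2, hZ2, Y2, hY2, hZ2c, hY2c, T', hT'⟩ := hM0 Z Y1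
    (fun z y => univ.filter fun i => 0 < orr y z (b i))
    (le_trans (le_max_left _ _) hZ) (by rw [hY1c]; exact le_max_left _ _)
  by_cases hm : m = 0
  · subst hm
    refine ⟨∅, ∅, ∅, ∅, ?_⟩
    simp
  have hY2Y : Y2 ⊆ Y := hY2.trans hY1
  have hX1ne : X1.Nonempty := by
    rw [← Finset.card_pos, hX1c]
    exact lt_of_lt_of_le (Nat.pos_of_ne_zero hm) (le_max_right _ _)
  have hY2ne : Y2.Nonempty := by
    rw [← Finset.card_pos, hY2c]; exact Nat.pos_of_ne_zero hm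
  have hZ2ne : Z2.Nonempty := by
    rw [← Finset.card_pos, hZ2c]; exact Nat.pos_of_ne_zero hm
  obtain ⟨x0, hx0⟩ := hX1ne
  obtain ⟨y0, hy0⟩ := hY2ne
  obtain ⟨z0, hz0⟩ := hZ2ne
  have hTc : 2 * m ≤ T.card := by
    rw [← hT x0 hx0 y0 (hY2 hy0)]
    exact hd1 x0 (hX1 hx0) y0 (hY2Y hy0)
  have hTc' : 2 * m ≤ T'.card := by
    rw [← hT' z0 hz0 y0 hy0]
    exact hd2 y0 (hY2Y hy0) z0 (hZ2 hz0)
  have hTmem : ∀ x ∈ X1, ∀ y ∈ Y2, ∀ i, i ∈ T ↔ 0 < orr x y (b i) := by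
    intro x hx y hy i
    rw [← hT x hx y (hY2 hy)]
    simp
  have hTmem' : ∀ z ∈ Z2, ∀ y ∈ Y2, ∀ i, i ∈ T' ↔ 0 < orr y z (b i) := by
    intro z hz y hy i
    rw [← hT' z hz y hy]
    simp
  have hsubX : X ⊆ X ∪ Y ∪ Z ∪ univ.image b := by
    intro a ha; simp [ha]
  have hsubY : Y ⊆ X ∪ Y ∪ Z ∪ univ.image b := by
    intro a ha; simp [ha]
  have hsubZ : Z ⊆ X ∪ Y ∪ Z ∪ univ.image b := by
    intro a ha; simp [ha]
  have hsubB : ∀ S : Finset (Fin K), S.image b ⊆ X ∪ Y ∪ Z ∪ univ.image b := by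
    intro S a ha
    obtain ⟨i, -, rfl⟩ := Finset.mem_image.mp ha
    simp
  have hX1m : m ≤ X1.card := by rw [hX1c]; exact le_max_right _ _
  by_cases hcase : m ≤ (T ∩ T').card
  · refine ⟨X1, Z2, (T ∩ T').image b, Y2, hX1m, hZ2c.ge, ?_, hY2c.ge,
      (hX1).trans hsubX, hZ2.trans hsubZ, hsubB _, hY2Y.trans hsubY, ?_⟩
    · rw [Finset.card_image_of_injective _ hb]; exact hcase
    · intro x hx z hz p hp y hy
      obtain ⟨i, hi, rfl⟩ := Finset.mem_image.mp hp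
      rw [Finset.mem_inter] at hi
      exact inTri_of_cone (hcup x (hX1 hx) y (hY2Y hy) z (hZ2 hz))
        ((hTmem x hx y hy i).mp hi.1) ((hTmem' z hz y hy i).mp hi.2)
  · push Not at hcase
    have h1 : m ≤ (T \ T').card := by
      have := Finset.card_inter_add_card_sdiff T T'
      omega
    have h2 : m ≤ (T' \ T).card := by
      have := Finset.card_inter_add_card_sdiff T' T
      rw [Finset.inter_comm] at this
      omega
    refine ⟨X1, (T \ T').image b, (T' \ T).image b, Y2, hX1m, ?_, ?_, hY2c.ge,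
      (hX1).trans hsubX, hsubB _, hsubB _, hY2Y.trans hsubY, ?_⟩
    · rw [Finset.card_image_of_injective _ hb]; exact h1
    · rw [Finset.card_image_of_injective _ hb]; exact h2
    · intro x hx p hp q hq y hy
      obtain ⟨i, hi, rfl⟩ := Finset.mem_image.mp hp
      obtain ⟨j, hj, rfl⟩ := Finset.mem_image.mp hq
      rw [Finset.mem_sdiff] at hi hj
      have hxy := hXY x (hX1 hx) y (hY2Y hy)
      have hyz := hYZ y (hY2Y hy) z0 (hZ2 hz0)
      rw [← orr_cyc] at hxy hyz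
      refine inTri_of_sides (o := o) (z := z0) (t := t) hot (hbt i) (hbt j) (hYt y (hY2Y hy))
        hxy hyz (hcup x (hX1 hx) y (hY2Y hy) z0 (hZ2 hz0)) ((hTmem x hx y hy i).mp hi.1) ?_ ?_
        ((hTmem' z0 hz0 y hy j).mp hj.1)
      · have h3 := hn2 y (hY2Y hy) z0 (hZ2 hz0) i
        have h4 : ¬ 0 < orr y z0 (b i) := fun h => hi.2 ((hTmem' z0 hz0 y hy i).mpr h)
        exact lt_of_le_of_ne (not_lt.mp h4) h3
      · have h3 := hn1 x (hX1 hx) y (hY2Y hy) j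
        have h4 : ¬ 0 < orr x y (b j) := fun h => hj.2 ((hTmem x hx y hy j).mpr h)
        exact lt_of_le_of_ne (not_lt.mp h4) h3

end Pool.Agent.helper45
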