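import Mathlib
import Pool.Agent.helper45.CF3

/-! Existence of a deep generic point. -/

namespace Pool.Agent.helper45

open Finset

lemma convex_orr_le (p q : ℝ × ℝ) : Convex ℝ {v : ℝ × ℝ | orr p q v ≤ 0} := by
  intro x hx y hy a b ha hb hab
  have hx' : orr p q x ≤ 0 := hx
  have hy' : orr p q y ≤ 0 := hy
  change orr p q (a • x + b • y) ≤ 0
  rw [orr_openSegment_eq p q a b hab]
  nlinarith [mul_nonneg ha (neg_nonneg.mpr hx'), mul_nonneg hb (neg_nonneg.mpr hy')]

lemma convex_snd_lt (t : ℝ) : Convex ℝ {v : ℝ × ℝ | v.2 < t} := by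
  have : {v : ℝ × ℝ | v.2 < t} = (LinearMap.snd ℝ ℝ ℝ) ⁻¹' (Set.Iio t) := by
    ext v; simp
  rw [this]
  exact (convex_Iio t).linear_preimage _

lemma exists_generic_one (U : Set (ℝ × ℝ)) (hU : IsOpen U) (hne : U.Nonempty) (p q : ℝ × ℝ)
    (hpq : p ≠ q) : (U ∩ {o | orr p q o ≠ 0}).Nonempty := by
  obtain ⟨o, ho⟩ := hne
  by_cases h0 : orr p q o = 0
  · set v : ℝ × ℝ := (-(q.2 - p.2), q.1 - p.1) with hv
    have hcont : Continuous (fun ε : ℝ => o + ε • v) := by fun_prop
    have hnhds : (fun ε : ℝ => o + ε • v) ⁻¹' U ∈ nhds (0 : ℝ) := by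
      apply hcont.continuousAt.preimage_mem_nhds
      simp only [zero_smul, add_zero]
      exact hU.mem_nhds ho
    obtain ⟨δ, hδ, hball⟩ := Metric.mem_nhds_iff.mp hnhds
    refine ⟨o + (δ / 2) • v, ?_, ?_⟩
    · apply hball
      simp only [Metric.mem_ball, dist_zero_right, Real.norm_eq_abs]
      rw [abs_of_pos (by linarith)]
      linarith
    · change orr p q (o + (δ / 2) • v) ≠ 0
      have hcalc : orr p q (o + (δ / 2) • v) = orr p q o
          + (δ / 2) * ((q.1 - p.1) ^ 2 + (q.2 - p.2) ^ 2) := by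
        unfold orr
        simp only [hv, Prod.fst_add, Prod.snd_add, Prod.smul_fst, Prod.smul_snd, smul_eq_mul]
        ring
      rw [hcalc, h0, zero_add]
      have hpos : 0 < (q.1 - p.1) ^ 2 + (q.2 - p.2) ^ 2 := by
        by_contra hcon
        push Not at hcon
        apply hpq
        have h1 : q.1 - p.1 = 0 := by nlinarith [sq_nonneg (q.1 - p.1), sq_nonneg (q.2 - p.2)]
        have h2 : q.2 - p.2 = 0 := by nlinarith [sq_nonneg (q.1 - p.1), sq_nonneg (q.2 - p.2)]
        ext <;> linarith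
      positivity
  · exact ⟨o, ho, h0⟩

lemma exists_generic (U : Set (ℝ × ℝ)) (hU : IsOpen U) (hne : U.Nonempty)
    (L : Finset ((ℝ × ℝ) × (ℝ × ℝ))) (hL : ∀ l ∈ L, l.1 ≠ l.2) :
    ∃ o ∈ U, ∀ l ∈ L, orr l.1 l.2 o ≠ 0 := by
  classical
  suffices h : ∃ V : Set (ℝ × ℝ), V ⊆ U ∧ IsOpen V ∧ V.Nonempty ∧
      ∀ l ∈ L, ∀ o ∈ V, orr l.1 l.2 o ≠ 0 by
    obtain ⟨V, hVU, -, ⟨o, ho⟩, hV⟩ := h
    exact ⟨o, hVU ho, fun l hl => hV l hl o ho⟩
  induction L using Finset.induction_on with
  | empty => exact ⟨U, subset_rfl, hU, hne, by simp⟩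
  | insert l L hl ih =>
    obtain ⟨V, hVU, hVo, hVne, hV⟩ := ih (fun l' hl' => hL l' (Finset.mem_insert_of_mem hl'))
    refine ⟨V ∩ {o | orr l.1 l.2 o ≠ 0}, (Set.inter_subset_left).trans hVU, ?_, ?_, ?_⟩
    · exact hVo.inter (isOpen_ne_fun (continuous_orr l.1 l.2) continuous_const)
    · exact exists_generic_one V hVo hVne l.1 l.2 (hL l (Finset.mem_insert_self _ _))
    · intro l' hl' o ho
      rcases Finset.mem_insert.mp hl' with rfl | h
      · exact ho.2
      · exact hV l' h o ho.1

lemma exists_deep_point (m : ℕ) (hm : 0 < m) (B : Finset (ℝ × ℝ)) (hB : B.card = 6 * m)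
    (hgp : ∀ a ∈ B, ∀ b ∈ B, ∀ c ∈ B, a ≠ b → a ≠ c → b ≠ c → orr a b c ≠ 0)
    (t : ℝ) (ht : ∀ b ∈ B, b.2 < t) (P : Finset (ℝ × ℝ)) :
    ∃ o : ℝ × ℝ, o.2 < t ∧ (∀ p ∈ P, ∀ q ∈ P, p ≠ q → orr p q o ≠ 0) ∧
      ∀ p q : ℝ × ℝ, 0 < orr p q o → 2 * m ≤ (B.filter fun b => 0 < orr p q b).card := by
  classical
  set s : Finset (Finset (ℝ × ℝ)) := B.powerset.filter (fun S => 4 * m + 1 ≤ S.card) with hs
  have hsB : ∀ S ∈ s, S ⊆ B := fun S hS =>
    Finset.mem_powerset.mp (Finset.mem_filter.mp hS).1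
  have hsc : ∀ S ∈ s, 4 * m + 1 ≤ S.card := fun S hS => (Finset.mem_filter.mp hS).2
  have hhelly : (⋂ S ∈ s, interior (convexHull ℝ (S : Set (ℝ × ℝ)))).Nonempty := by
    apply Convex.helly_theorem' (𝕜 := ℝ)
    · intro S _
      exact (convex_convexHull ℝ _).interior
    · intro I hI hIc
      have hfin : Module.finrank ℝ (ℝ × ℝ) = 2 := by simp
      rw [hfin] at hIc
      set C := B.filter (fun x => ∀ S ∈ I, x ∈ S) with hC
      have hCc : 3 ≤ C.card := by
        have hsub : B \ C ⊆ I.biUnion (fun S => B \ S) := by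
          intro x hx
          rw [Finset.mem_sdiff] at hx
          have hx2 : ¬ ∀ S ∈ I, x ∈ S := fun h => hx.2 (Finset.mem_filter.mpr ⟨hx.1, h⟩)
          push Not at hx2
          obtain ⟨S, hS, hxS⟩ := hx2
          exact Finset.mem_biUnion.mpr ⟨S, hS, Finset.mem_sdiff.mpr ⟨hx.1, hxS⟩⟩
        have h1 : (B \ C).card ≤ I.card * (2 * m - 1) := by
          refine (Finset.card_le_card hsub).trans ?_
          apply Finset.card_biUnion_le_card_mul
          intro S hS
          have hSB := hsB S (hI hS)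
          have hSc := hsc S (hI hS)
          rw [Finset.card_sdiff_of_subset hSB]
          omega
        have h2 : I.card * (2 * m - 1) ≤ 3 * (2 * m - 1) := Nat.mul_le_mul_right _ hIc
        have h3 : (B \ C).card = B.card - C.card :=
          Finset.card_sdiff_of_subset (Finset.filter_subset _ _)
        have h4 : C.card ≤ B.card := Finset.card_le_card (Finset.filter_subset _ _)
        omega
      obtain ⟨a, b, c, ha, hb, hc, hab, hac, hbc⟩ := Finset.two_lt_card_iff.mp hCc
      have haB := (Finset.mem_filter.mp ha)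
      have hbB := (Finset.mem_filter.mp hb)
      have hcB := (Finset.mem_filter.mp hc)
      have hne := hgp a haB.1 b hbB.1 c hcB.1 hab hac hbc
      set g : ℝ × ℝ := ((a.1 + b.1 + c.1) / 3, (a.2 + b.2 + c.2) / 3) with hg
      have e1 : orr a b g = orr a b c / 3 := by
        rw [hg]; unfold orr; simp only; ring
      have e2 : orr b c g = orr a b c / 3 := by
        rw [hg]; unfold orr; simp only; ring
      have e3 : orr c a g = orr a b c / 3 := by
        rw [hg]; unfold orr; simp only; ring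
      have hin : InTri a b c g := by
        rcases lt_or_gt_of_ne hne with h | h
        · right
          rw [e1, e2, e3]
          refine ⟨by linarith, by linarith, by linarith⟩
        · left
          rw [e1, e2, e3]
          refine ⟨by linarith, by linarith, by linarith⟩
      refine ⟨g, ?_⟩
      simp only [Set.mem_iInter]
      intro S hS
      have hsub : ({a, b, c} : Set (ℝ × ℝ)) ⊆ (S : Set (ℝ × ℝ)) := by
        intro x hx
        simp only [Set.mem_insert_iff, Set.mem_singleton_iff] at hx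
        rcases hx with rfl | rfl | rfl
        · exact haB.2 S hS
        · exact hbB.2 S hS
        · exact hcB.2 S hS
      exact interior_mono (convexHull_mono hsub) hin.interior
  have hopen : IsOpen (⋂ S ∈ s, interior (convexHull ℝ (S : Set (ℝ × ℝ)))) :=
    isOpen_biInter_finset (fun S _ => isOpen_interior)
  obtain ⟨o, ho, hoL⟩ := exists_generic _ hopen hhelly
    ((P ×ˢ P).filter (fun l => l.1 ≠ l.2)) (fun l hl => (Finset.mem_filter.mp hl).2)
  simp only [Set.mem_iInter] at ho
  refine ⟨o, ?_, ?_, ?_⟩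
  · have hBs : B ∈ s := by
      rw [hs, Finset.mem_filter]
      exact ⟨Finset.mem_powerset.mpr (Finset.Subset.refl _), by omega⟩
    have h1 := interior_subset (ho B hBs)
    have h2 : convexHull ℝ (B : Set (ℝ × ℝ)) ⊆ {v | v.2 < t} :=
      convexHull_min (fun b hb => ht b hb) (convex_snd_lt t)
    exact h2 h1
  · intro p hp q hq hpq
    exact hoL (p, q) (Finset.mem_filter.mpr ⟨Finset.mem_product.mpr ⟨hp, hq⟩, hpq⟩)
  · intro p q hpq
    by_contra hcon
    push Not at hcon
    set S := B.filter (fun b => ¬ 0 < orr p q b) with hS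
    have hSc : 4 * m + 1 ≤ S.card := by
      have h5 : (B.filter fun b => 0 < orr p q b).card + S.card = B.card := by
        rw [hS]
        exact Finset.card_filter_add_card_filter_not (s := B) (fun b => 0 < orr p q b)
      omega
    have hSs : S ∈ s := by
      rw [hs, Finset.mem_filter]
      exact ⟨Finset.mem_powerset.mpr (Finset.filter_subset _ _), hSc⟩
    have h1 := interior_subset (ho S hSs)
    have h2 : convexHull ℝ (S : Set (ℝ × ℝ)) ⊆ {v | orr p q v ≤ 0} := by
      apply convexHull_min _ (convex_orr_le p q)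
      intro b hb
      have := (Finset.mem_filter.mp (Finset.mem_coe.mp hb)).2
      exact not_lt.mp this
    have h3 : orr p q o ≤ 0 := h2 h1
    linarith

end Pool.Agent.helper45
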