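import Mathlib
import Pool.Agent.helper45.CF4

/-! Crossing matchings between two mutually avoiding clusters. -/

namespace Pool.Agent.helper45

open Finset

/-- enumerate a finite set by an injective real key -/
lemma exists_enum {α : Type*} (A : Finset α) (κ : α → ℝ) (hκ : Set.InjOn κ A) (N : ℕ)
    (hN : A.card = N) (hne : 0 < N) : ∃ p : ℕ → α, (∀ i, i < N → p i ∈ A) ∧
      (∀ i j, i < j → j < N → κ (p i) < κ (p j)) := by
  classical
  have hcard : (A.image κ).card = N := by
    rw [Finset.card_image_of_injOn hκ, hN]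
  let e := (A.image κ).orderEmbOfFin hcard
  have hmem : ∀ i : Fin N, ∃ a ∈ A, κ a = e i := fun i => by
    have := (A.image κ).orderEmbOfFin_mem hcard i
    exact Finset.mem_image.mp this
  choose f hfA hf using hmem
  refine ⟨fun i => if h : i < N then f ⟨i, h⟩ else f ⟨0, hne⟩, ?_, ?_⟩
  · intro i hi
    simp only [hi, dite_true]
    exact hfA _
  · intro i j hij hj
    have hi : i < N := lt_trans hij hj
    simp only [hi, hj, dite_true]
    rw [hf, hf]
    exact e.strictMono (by simpa [Fin.lt_def] using hij)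

/-- angular key around `β`, with reference direction towards `o` -/
noncomputable def akey (β o v : ℝ × ℝ) : ℝ :=
  -((o.1 - β.1) * (v.1 - β.1) + (o.2 - β.2) * (v.2 - β.2)) / orr β o v

lemma akey_lt {β o v v' : ℝ × ℝ} (h : 0 < orr β o v * orr β o v') :
    akey β o v < akey β o v' ↔ 0 < orr β v v' := by
  have hv : orr β o v ≠ 0 := by
    rintro h0; rw [h0, zero_mul] at h; exact lt_irrefl _ h
  have hv' : orr β o v' ≠ 0 := by
    rintro h0; rw [h0, mul_zero] at h; exact lt_irrefl _ h
  have hu : 0 < (o.1 - β.1) ^ 2 + (o.2 - β.2) ^ 2 := by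
    by_contra hcon
    push Not at hcon
    have h1 : o.1 - β.1 = 0 := by nlinarith [sq_nonneg (o.1 - β.1), sq_nonneg (o.2 - β.2)]
    have h2 : o.2 - β.2 = 0 := by nlinarith [sq_nonneg (o.1 - β.1), sq_nonneg (o.2 - β.2)]
    apply hv
    unfold orr
    rw [h1, h2]; ring
  have key : akey β o v' - akey β o v =
      ((o.1 - β.1) ^ 2 + (o.2 - β.2) ^ 2) * orr β v v' / (orr β o v * orr β o v') := by
    unfold akey
    field_simp
    unfold orr
    ring
  rw [← sub_pos, key]
  constructor
  · intro h1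
    have h2 : 0 < ((o.1 - β.1) ^ 2 + (o.2 - β.2) ^ 2) * orr β v v' := by
      by_contra hcon
      push Not at hcon
      have := div_nonpos_of_nonpos_of_nonneg hcon h.le
      linarith
    exact (mul_pos_iff_of_pos_left hu).mp h2
  · intro h1
    exact div_pos (mul_pos hu h1) h

/-- `U` and `V` avoid each other -/
def Avoid (U V : Finset (ℝ × ℝ)) : Prop :=
  ∀ a ∈ U, ∀ a' ∈ U, a ≠ a' → ∀ b ∈ V, ∀ b' ∈ V, 0 < orr a a' b * orr a a' b'

lemma matching_of_avoid (U V : Finset (ℝ × ℝ)) (o : ℝ × ℝ)
    (hUV : Avoid U V) (hVU : Avoid V U) (ho : ∀ a ∈ U, ∀ b ∈ V, 0 < orr o a b) :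
    ∃ F : Finset ((ℝ × ℝ) × (ℝ × ℝ)), F.card = min U.card V.card ∧
      (∀ e ∈ F, e.1 ∈ U ∧ e.2 ∈ V) ∧
      (∀ e ∈ F, ∀ e' ∈ F, e ≠ e' → CrossO e.1 e.2 e'.1 e'.2) := by
  classical
  rcases Nat.eq_zero_or_pos (min U.card V.card) with h0 | hpos
  · exact ⟨∅, by simp [h0], by simp, by simp⟩
  set k := min U.card V.card with hk
  obtain ⟨U', hU', hU'c⟩ := Finset.exists_subset_card_eq (show k ≤ U.card from min_le_left _ _)
  obtain ⟨V', hV', hV'c⟩ := Finset.exists_subset_card_eq (show k ≤ V.card from min_le_right _ _)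
  have hUne : U'.Nonempty := by rw [← Finset.card_pos]; omega
  have hVne : V'.Nonempty := by rw [← Finset.card_pos]; omega
  obtain ⟨a0, ha0'⟩ := hUne
  obtain ⟨b0, hb0'⟩ := hVne
  have ha0 := hU' ha0'
  have hb0 := hV' hb0'
  -- keys
  have hkU : ∀ a ∈ U, ∀ a' ∈ U, (akey b0 o a < akey b0 o a' ↔ 0 < orr b0 a a') := by
    intro a ha a' ha'
    apply akey_lt
    have h1 := ho a ha b0 hb0
    have h2 := ho a' ha' b0 hb0
    have e1 : orr b0 o a = orr o a b0 := by unfold orr; ring
    have e2 : orr b0 o a' = orr o a' b0 := by unfold orr; ring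
    rw [e1, e2]
    exact mul_pos h1 h2
  have hkV : ∀ b ∈ V, ∀ b' ∈ V, (akey a0 o b < akey a0 o b' ↔ 0 < orr a0 b b') := by
    intro b hb b' hb'
    apply akey_lt
    have h1 := ho a0 ha0 b hb
    have h2 := ho a0 ha0 b' hb'
    have e1 : orr a0 o b = - orr o a0 b := by unfold orr; ring
    have e2 : orr a0 o b' = - orr o a0 b' := by unfold orr; ring
    rw [e1, e2]
    nlinarith [mul_pos h1 h2]
  have hinjU : Set.InjOn (akey b0 o) U' := by
    intro a ha a' ha' heq
    by_contra hne
    have h1 := hUV a (hU' ha) a' (hU' ha') hne b0 hb0 b0 hb0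
    have h2 : orr a a' b0 ≠ 0 := by
      intro h; rw [h] at h1; simp at h1
    rcases lt_or_gt_of_ne h2 with h3 | h3
    · have := (hkU a' (hU' ha') a (hU' ha)).mpr (by
        have e : orr b0 a' a = - orr a a' b0 := by unfold orr; ring
        rw [e]; linarith)
      linarith
    · have := (hkU a (hU' ha) a' (hU' ha')).mpr (by
        have e : orr b0 a a' = orr a a' b0 := by unfold orr; ring
        rw [e]; linarith)
      linarith
  have hinjV : Set.InjOn (akey a0 o) V' := by
    intro a ha a' ha' heq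
    by_contra hne
    have h1 := hVU a (hV' ha) a' (hV' ha') hne a0 ha0 a0 ha0
    have h2 : orr a a' a0 ≠ 0 := by
      intro h; rw [h] at h1; simp at h1
    rcases lt_or_gt_of_ne h2 with h3 | h3
    · have := (hkV a' (hV' ha') a (hV' ha)).mpr (by
        have e : orr a0 a' a = - orr a a' a0 := by unfold orr; ring
        rw [e]; linarith)
      linarith
    · have := (hkV a (hV' ha) a' (hV' ha')).mpr (by
        have e : orr a0 a a' = orr a a' a0 := by unfold orr; ring
        rw [e]; linarith)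
      linarith
  obtain ⟨p, hpU, hplt⟩ := exists_enum U' (akey b0 o) hinjU k hU'c hpos
  obtain ⟨q, hqV, hqlt⟩ := exists_enum V' (akey a0 o) hinjV k hV'c hpos
  have hpU2 : ∀ i, i < k → p i ∈ U := fun i hi => hU' (hpU i hi)
  have hqV2 : ∀ i, i < k → q i ∈ V := fun i hi => hV' (hqV i hi)
  have hpne : ∀ i j, i < j → j < k → p i ≠ p j := by
    intro i j hij hj heq
    have := hplt i j hij hj
    rw [heq] at this
    exact lt_irrefl _ this
  have hqne : ∀ i j, i < j → j < k → q i ≠ q j := by
    intro i j hij hj heq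
    have := hqlt i j hij hj
    rw [heq] at this
    exact lt_irrefl _ this
  -- orientation facts
  have hP : ∀ i j, i < j → j < k → ∀ b ∈ V, 0 < orr (p i) (p j) b := by
    intro i j hij hj b hb
    have h1 := (hkU _ (hpU2 i (hij.trans hj)) _ (hpU2 j hj)).mp (hplt i j hij hj)
    have e : orr b0 (p i) (p j) = orr (p i) (p j) b0 := by unfold orr; ring
    rw [e] at h1
    have h2 := hUV _ (hpU2 i (hij.trans hj)) _ (hpU2 j hj) (hpne i j hij hj) b0 hb0 b hb
    exact (mul_pos_iff_of_pos_left h1).mp h2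
  have hQ : ∀ i j, i < j → j < k → ∀ a ∈ U, 0 < orr (q i) (q j) a := by
    intro i j hij hj a ha
    have h1 := (hkV _ (hqV2 i (hij.trans hj)) _ (hqV2 j hj)).mp (hqlt i j hij hj)
    have e : orr a0 (q i) (q j) = orr (q i) (q j) a0 := by unfold orr; ring
    rw [e] at h1
    have h2 := hVU _ (hqV2 i (hij.trans hj)) _ (hqV2 j hj) (hqne i j hij hj) a0 ha0 a ha
    exact (mul_pos_iff_of_pos_left h1).mp h2
  have hcross : ∀ i j, i < j → j < k → CrossO (p i) (q i) (p j) (q j) := by
    intro i j hij hj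
    have hi := hij.trans hj
    have h1 := hP i j hij hj (q i) (hqV2 i hi)
    have h2 := hP i j hij hj (q j) (hqV2 j hj)
    have h3 := hQ i j hij hj (p i) (hpU2 i hi)
    have h4 := hQ i j hij hj (p j) (hpU2 j hj)
    constructor
    · have e1 : orr (p i) (q i) (p j) = - orr (p i) (p j) (q i) := by unfold orr; ring
      have e2 : orr (p i) (q i) (q j) = orr (q i) (q j) (p i) := by unfold orr; ring
      rw [e1, e2]
      nlinarith [mul_pos h1 h3]
    · have e1 : orr (p j) (q j) (p i) = orr (p i) (p j) (q j) := by unfold orr; ring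
      have e2 : orr (p j) (q j) (q i) = - orr (q i) (q j) (p j) := by unfold orr; ring
      rw [e1, e2]
      nlinarith [mul_pos h2 h4]
  refine ⟨(Finset.range k).image (fun i => (p i, q i)), ?_, ?_, ?_⟩
  · rw [Finset.card_image_of_injOn, Finset.card_range]
    intro i hi j hj heq
    have hi' : i < k := Finset.mem_range.mp hi
    have hj' : j < k := Finset.mem_range.mp hj
    have heq1 : p i = p j := (Prod.ext_iff.mp heq).1
    by_contra hne
    rcases lt_or_gt_of_ne hne with h | h
    · exact hpne i j h hj' heq1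
    · exact hpne j i h hi' heq1.symm
  · intro e he
    obtain ⟨i, hi, rfl⟩ := Finset.mem_image.mp he
    exact ⟨hpU2 i (Finset.mem_range.mp hi), hqV2 i (Finset.mem_range.mp hi)⟩
  · intro e he e' he' hne
    obtain ⟨i, hi, rfl⟩ := Finset.mem_image.mp he
    obtain ⟨j, hj, rfl⟩ := Finset.mem_image.mp he'
    have hij : i ≠ j := fun h => hne (by rw [h])
    rcases lt_or_gt_of_ne hij with h | h
    · exact hcross i j h (Finset.mem_range.mp hj)
    · exact (hcross j i h (Finset.mem_range.mp hi)).symm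

end Pool.Agent.helper45
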