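import Mathlib
import Pool.Agent.helper45.CF5

/-! A chain of clusters in homogeneous convex position has a large crossing family. -/

namespace Pool.Agent.helper45

open Finset

/-- a line through two points of a cluster separates at most one other cluster -/
lemma no_two_separated {a a' b b' c c' : ℝ × ℝ} (hb : orr a a' b * orr a a' b' < 0)
    (hc : orr a a' c * orr a a' c' < 0) (σ : ℝ)
    (h1 : 0 < σ * orr a b c) (h2 : 0 < σ * orr a b c') (h3 : 0 < σ * orr a b' c)
    (h4 : 0 < σ * orr a b' c') : False := by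
  have key : orr a a' b' * orr a a' c' * orr a b c - orr a a' b' * orr a a' c * orr a b c'
      - orr a a' b * orr a a' c' * orr a b' c + orr a a' b * orr a a' c * orr a b' c' = 0 := by
    unfold orr; ring
  -- multiply by signs
  set B := orr a a' b
  set B' := orr a a' b'
  set C := orr a a' c
  set C' := orr a a' c'
  have hBC : (B' * C') * (B * C) > 0 := by nlinarith [mul_pos_of_neg_of_neg hb hc]
  have hx1 : B' * C' * (B' * C) < 0 := by
    have hB'0 : B' ≠ 0 := by rintro h0; rw [h0] at hb; simp at hb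
    have : 0 < B' ^ 2 := by positivity
    nlinarith
  have hx2 : B' * C' * (B * C') < 0 := by
    have hC'0 : C' ≠ 0 := by rintro h0; rw [h0] at hc; simp at hc
    have : 0 < C' ^ 2 := by positivity
    nlinarith
  have hx3 : 0 < (B' * C') ^ 2 := by
    have hB'0 : B' ≠ 0 := by rintro h0; rw [h0] at hb; simp at hb
    have hC'0 : C' ≠ 0 := by rintro h0; rw [h0] at hc; simp at hc
    positivity
  have t1 : 0 < (B' * C') ^ 2 * (σ * orr a b c) := mul_pos hx3 h1
  have t2 : 0 < -(B' * C' * (B' * C)) * (σ * orr a b c') := mul_pos (by linarith) h2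
  have t3 : 0 < -(B' * C' * (B * C')) * (σ * orr a b' c) := mul_pos (by linarith) h3
  have t4 : 0 < (B' * C' * (B * C)) * (σ * orr a b' c') := mul_pos hBC h4
  have : (B' * C') * σ * (B' * C' * orr a b c - B' * C * orr a b c'
      - B * C' * orr a b' c + B * C * orr a b' c') = 0 := by rw [key]; ring
  nlinarith

/-- four clusters in order: segments joining alternate clusters cross -/
lemma crossO_of_convex {a b c d : ℝ × ℝ} (h1 : 0 < orr a b c) (h2 : 0 < orr a b d)
    (h3 : 0 < orr a c d) (h4 : 0 < orr b c d) : CrossO a c b d := by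
  constructor
  · have e1 : orr a c b = - orr a b c := by unfold orr; ring
    rw [e1]
    nlinarith [mul_pos h1 h3]
  · have e1 : orr b d a = orr a b d := by unfold orr; ring
    have e2 : orr b d c = - orr b c d := by unfold orr; ring
    rw [e1, e2]
    nlinarith [mul_pos h2 h4]

lemma crossing_of_clusters (P : Finset (ℝ × ℝ))
    (hgp : ∀ a ∈ P, ∀ b ∈ P, ∀ c ∈ P, a ≠ b → a ≠ c → b ≠ c → orr a b c ≠ 0)
    (o : ℝ × ℝ) (t w q : ℕ) (hq : 0 < q) (W : ℕ → Finset (ℝ × ℝ))
    (hWP : ∀ r < t, W r ⊆ P) (hWc : ∀ r < t, (W r).card ≤ w)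
    (hcap : ∀ r1 r2 r3, r1 < r2 → r2 < r3 → r3 < t → ∀ x ∈ W r1, ∀ y ∈ W r2, ∀ z ∈ W r3,
      0 < orr x y z)
    (hoo : ∀ r1 r2, r1 < r2 → r2 < t → ∀ x ∈ W r1, ∀ y ∈ W r2, 0 < orr o x y) :
    ∃ (F : Finset ((ℝ × ℝ) × (ℝ × ℝ))) (h bad : ℕ),
      (∀ e ∈ F, e.1 ∈ P ∧ e.2 ∈ P ∧ e.1 ≠ e.2) ∧
      (∀ e ∈ F, ∀ e' ∈ F, e ≠ e' → CrossO e.1 e.2 e'.1 e'.2) ∧
      (t + 1) / 2 ≤ h ∧ h < (t + 1) / 2 + q ∧ bad * q ≤ t * (w * w) ∧
      (t - h) * w ≤ F.card + w * bad + ∑ r ∈ range t, (w - (W r).card) := by
  classical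
  -- disjoint clusters
  have hdisj : ∀ r1 r2, r1 < r2 → r2 < t → ∀ x ∈ W r1, ∀ y ∈ W r2, x ≠ y := by
    intro r1 r2 h12 h2 x hx y hy heq
    have := hoo r1 r2 h12 h2 x hx y hy
    rw [heq, orr_self23] at this
    exact lt_irrefl _ this
  have hdisj' : ∀ r1 r2, r1 ≠ r2 → r1 < t → r2 < t → ∀ x ∈ W r1, ∀ y ∈ W r2, x ≠ y := by
    intro r1 r2 hne h1 h2 x hx y hy
    rcases lt_or_gt_of_ne hne with h | h
    · exact hdisj r1 r2 h h2 x hx y hy
    · exact (hdisj r2 r1 h h1 y hy x hx).symm
  -- constant orientation for three distinct clusters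
  have hsign : ∀ r r1 r2, r < t → r1 < t → r2 < t → r ≠ r1 → r ≠ r2 → r1 ≠ r2 →
      ∃ σ : ℝ, ∀ x ∈ W r, ∀ y ∈ W r1, ∀ z ∈ W r2, 0 < σ * orr x y z := by
    intro r r1 r2 h h1 h2 h01 h02 h12
    rcases lt_or_gt_of_ne h01 with h01 | h01 <;> rcases lt_or_gt_of_ne h02 with h02 | h02 <;>
      rcases lt_or_gt_of_ne h12 with h12 | h12
    · exact ⟨1, fun x hx y hy z hz => by
        rw [one_mul]; exact hcap r r1 r2 h01 h12 h2 x hx y hy z hz⟩
    · exact ⟨-1, fun x hx y hy z hz => by
        have := hcap r r2 r1 h02 h12 h1 x hx z hz y hy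
        have e : orr x z y = - orr x y z := by unfold orr; ring
        linarith⟩
    · omega
    · exact ⟨1, fun x hx y hy z hz => by
        have := hcap r2 r r1 h02 h01 h1 z hz x hx y hy
        have e : orr z x y = orr x y z := by unfold orr; ring
        linarith⟩
    · exact ⟨-1, fun x hx y hy z hz => by
        have := hcap r1 r r2 h01 h02 h2 y hy x hx z hz
        have e : orr y x z = - orr x y z := by unfold orr; ring
        linarith⟩
    · omega
    · exact ⟨1, fun x hx y hy z hz => by
        have := hcap r1 r2 r h12 h02 h y hy z hz x hx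
        have e : orr y z x = orr x y z := by unfold orr; ring
        linarith⟩
    · exact ⟨-1, fun x hx y hy z hz => by
        have := hcap r2 r1 r h12 h01 h z hz y hy x hx
        have e : orr z y x = - orr x y z := by unfold orr; ring
        linarith⟩
  -- bad partners
  let sep : ℕ → ℕ → Prop := fun r r' => ∃ aa : (ℝ × ℝ) × (ℝ × ℝ), aa ∈ W r ×ˢ W r ∧
    ∃ b ∈ W r', ∃ b' ∈ W r', orr aa.1 aa.2 b * orr aa.1 aa.2 b' < 0
  have hbadcount : ∀ r < t, ((range t).filter (fun r' => r' ≠ r ∧ sep r r')).card ≤ w * w := by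
    intro r hr
    have hex : ∀ r', sep r r' → ∃ aa : (ℝ × ℝ) × (ℝ × ℝ), aa ∈ W r ×ˢ W r ∧
      ∃ b ∈ W r', ∃ b' ∈ W r', orr aa.1 aa.2 b * orr aa.1 aa.2 b' < 0 := fun r' h => h
    let f : ℕ → (ℝ × ℝ) × (ℝ × ℝ) := fun r' => if h : sep r r' then (hex r' h).choose else default
    have hf : ∀ r', sep r r' → f r' ∈ W r ×ˢ W r ∧
      ∃ b ∈ W r', ∃ b' ∈ W r', orr (f r').1 (f r').2 b * orr (f r').1 (f r').2 b' < 0 := by
      intro r' h
      simp only [f, h, dite_true]
      exact (hex r' h).choose_spec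
    calc ((range t).filter (fun r' => r' ≠ r ∧ sep r r')).card
        ≤ (W r ×ˢ W r).card := by
          apply Finset.card_le_card_of_injOn f
          · intro r' hr'
            have := (Finset.mem_filter.mp (Finset.mem_coe.mp hr')).2.2
            exact (hf r' this).1
          · intro r1 h1 r2 h2 heq
            have h1' := Finset.mem_filter.mp (Finset.mem_coe.mp h1)
            have h2' := Finset.mem_filter.mp (Finset.mem_coe.mp h2)
            by_contra hne
            obtain ⟨hm1, b, hb, b', hb', hbb⟩ := hf r1 h1'.2.2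
            obtain ⟨hm2, c, hc, c', hc', hcc⟩ := hf r2 h2'.2.2
            rw [← heq] at hcc
            obtain ⟨σ, hσ⟩ := hsign r r1 r2 hr (Finset.mem_range.mp h1'.1)
              (Finset.mem_range.mp h2'.1) (Ne.symm h1'.2.1) (Ne.symm h2'.2.1) hne
            have ha : (f r1).1 ∈ W r := (Finset.mem_product.mp hm1).1
            exact no_two_separated hbb hcc σ (hσ _ ha b hb c hc) (hσ _ ha b hb c' hc')
              (hσ _ ha b' hb' c hc) (hσ _ ha b' hb' c' hc')
      _ = (W r).card * (W r).card := Finset.card_product _ _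
      _ ≤ w * w := Nat.mul_le_mul (hWc r hr) (hWc r hr)
  -- not separated implies avoiding
  have havoid : ∀ r r', r < t → r' < t → r ≠ r' → ¬ sep r r' → Avoid (W r) (W r') := by
    intro r r' hr hr' hne hns a ha a' ha' haa b hb b' hb'
    have h1 : orr a a' b ≠ 0 := hgp a (hWP r hr ha) a' (hWP r hr ha') b (hWP r' hr' hb) haa
      (hdisj' r r' hne hr hr' a ha b hb) (hdisj' r r' hne hr hr' a' ha' b hb)
    have h2 : orr a a' b' ≠ 0 := hgp a (hWP r hr ha) a' (hWP r hr ha') b' (hWP r' hr' hb') haa
      (hdisj' r r' hne hr hr' a ha b' hb') (hdisj' r r' hne hr hr' a' ha' b' hb')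
    by_contra hcon
    push Not at hcon
    apply hns
    exact ⟨(a, a'), Finset.mem_product.mpr ⟨ha, ha'⟩, b, hb, b', hb',
      lt_of_le_of_ne hcon (mul_ne_zero h1 h2)⟩
  -- choose the shift
  set h0 := (t + 1) / 2 with hh0
  let badset : ℕ → Finset ℕ := fun h => (range (t - h)).filter
    (fun r => sep r (r + h) ∨ sep (r + h) r)
  have hsum : ∑ h ∈ Finset.Ico h0 (h0 + q), (badset h).card ≤ t * (w * w) := by
    -- inject pairs into the set of separated ordered pairs
    let S : Finset (ℕ × ℕ) := (range t ×ˢ range t).filter (fun x => x.2 ≠ x.1 ∧ sep x.1 x.2)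
    have hS : S.card ≤ t * (w * w) := by
      have h1 : S = (range t).biUnion (fun r => ((range t).filter
          (fun r' => r' ≠ r ∧ sep r r')).image (fun r' => (r, r'))) := by
        ext ⟨r, r'⟩
        simp only [S, Finset.mem_filter, Finset.mem_product, Finset.mem_range, Finset.mem_biUnion,
          Finset.mem_image, Prod.mk.injEq]
        constructor
        · rintro ⟨⟨h1, h2⟩, h3, h4⟩
          exact ⟨r, h1, r', ⟨h2, h3, h4⟩, rfl, rfl⟩
        · rintro ⟨r1, h1, r2, ⟨h2, h3, h4⟩, rfl, rfl⟩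
          exact ⟨⟨h1, h2⟩, h3, h4⟩
      rw [h1]
      calc _ ≤ (range t).card * (w * w) := by
            apply Finset.card_biUnion_le_card_mul
            intro r hr
            exact Finset.card_image_le.trans (hbadcount r (Finset.mem_range.mp hr))
        _ = t * (w * w) := by rw [Finset.card_range]
    -- the sigma-type of bad pairs
    let T : Finset (ℕ × ℕ) := (Finset.Ico h0 (h0 + q)).biUnion
      (fun h => (badset h).image (fun r => (h, r)))
    have hT : T.card = ∑ h ∈ Finset.Ico h0 (h0 + q), (badset h).card := by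
      rw [Finset.card_biUnion]
      · apply Finset.sum_congr rfl
        intro h _
        apply Finset.card_image_of_injective
        intro r r' hrr
        exact (Prod.ext_iff.mp hrr).2
      · intro h _ h' _ hne
        simp only [Function.onFun]
        rw [Finset.disjoint_left]
        rintro ⟨x, y⟩ hx hy
        simp only [Finset.mem_image, Prod.mk.injEq] at hx hy
        obtain ⟨r, -, h1, -⟩ := hx
        obtain ⟨r', -, h2, -⟩ := hy
        exact hne (h1.trans h2.symm)
    rw [← hT]
    refine le_trans ?_ hS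
    apply Finset.card_le_card_of_injOn
      (fun x => if sep x.2 (x.2 + x.1) then (x.2, x.2 + x.1) else (x.2 + x.1, x.2))
    · rintro ⟨h, r⟩ hx
      simp only [T, Finset.coe_biUnion, Finset.mem_coe, Finset.mem_Ico, Finset.coe_image,
        Set.mem_iUnion, Set.mem_image, Prod.mk.injEq] at hx
      obtain ⟨h', ⟨hh1, hh2⟩, r', hr', rfl, rfl⟩ := hx
      simp only [badset, Finset.mem_filter, Finset.mem_range] at hr'
      have hpos : 0 < h' := by omega
      by_cases hsep : sep r' (r' + h')
      · simp only [hsep, if_true, S, Finset.mem_coe, Finset.mem_filter, Finset.mem_product,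
          Finset.mem_range]
        refine ⟨⟨by omega, by omega⟩, by omega, trivial⟩
      · simp only [hsep, if_false, S, Finset.mem_coe, Finset.mem_filter, Finset.mem_product,
          Finset.mem_range]
        refine ⟨⟨by omega, by omega⟩, by omega, ?_⟩
        rcases hr'.2 with h | h
        · exact absurd h hsep
        · exact h
    · rintro ⟨h, r⟩ hx ⟨h', r'⟩ hx' heq
      simp only [T, Finset.coe_biUnion, Finset.mem_coe, Finset.mem_Ico, Finset.coe_image,
        Set.mem_iUnion, Set.mem_image, Prod.mk.injEq] at hx hx'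
      obtain ⟨k, ⟨hk1, hk2⟩, s, hs, hks, hss⟩ := hx
      obtain ⟨k', ⟨hk1', hk2'⟩, s', hs', hks', hss'⟩ := hx'
      subst hks hss hks' hss'
      simp only [badset, Finset.mem_filter, Finset.mem_range] at hs hs'
      simp only at heq
      have hkpos : 0 < k := by omega
      have hkpos' : 0 < k' := by omega
      by_cases h1 : sep s (s + k) <;> by_cases h2 : sep s' (s' + k') <;>
        simp only [h1, h2, if_true, if_false, Prod.mk.injEq] at heq
      · obtain ⟨e1, e2⟩ := heq
        simp only [Prod.mk.injEq]; omega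
      · obtain ⟨e1, e2⟩ := heq
        omega
      · obtain ⟨e1, e2⟩ := heq
        omega
      · obtain ⟨e1, e2⟩ := heq
        simp only [Prod.mk.injEq]; omega
  obtain ⟨h, hh, hbadh⟩ : ∃ h ∈ Finset.Ico h0 (h0 + q), (badset h).card * q ≤ t * (w * w) := by
    by_contra hcon
    push Not at hcon
    have h1 : ∑ h ∈ Finset.Ico h0 (h0 + q), t * (w * w)
        < ∑ h ∈ Finset.Ico h0 (h0 + q), (badset h).card * q := by
      apply Finset.sum_lt_sum_of_nonempty
      · exact ⟨h0, Finset.mem_Ico.mpr ⟨le_refl _, by omega⟩⟩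
      · intro h hh; exact hcon h hh
    have h2 : ∑ h ∈ Finset.Ico h0 (h0 + q), (badset h).card * q
        = (∑ h ∈ Finset.Ico h0 (h0 + q), (badset h).card) * q := (Finset.sum_mul _ _ _).symm
    have h3 : ∑ h ∈ Finset.Ico h0 (h0 + q), t * (w * w) = q * (t * (w * w)) := by
      rw [Finset.sum_const, Nat.card_Ico, smul_eq_mul]
      congr 1
      omega
    rw [h2, h3, Nat.mul_comm] at h1
    exact absurd (Nat.lt_of_mul_lt_mul_right h1) (not_lt.mpr hsum)
  rw [Finset.mem_Ico] at hh
  -- the matchings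
  have hmatch : ∀ r, r < t - h → r ∉ badset h →
      ∃ F : Finset ((ℝ × ℝ) × (ℝ × ℝ)), F.card = min (W r).card (W (r + h)).card ∧
      (∀ e ∈ F, e.1 ∈ W r ∧ e.2 ∈ W (r + h)) ∧
      (∀ e ∈ F, ∀ e' ∈ F, e ≠ e' → CrossO e.1 e.2 e'.1 e'.2) := by
    intro r hr hnb
    have hpos : 0 < h := by omega
    have hrt : r < t := by omega
    have hrht : r + h < t := by omega
    have hns : ¬ (sep r (r + h) ∨ sep (r + h) r) := fun hc =>
      hnb (Finset.mem_filter.mpr ⟨Finset.mem_range.mpr hr, hc⟩)
    push Not at hns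
    exact matching_of_avoid (W r) (W (r + h)) o
      (havoid r (r + h) hrt hrht (by omega) hns.1)
      (havoid (r + h) r hrht hrt (by omega) hns.2)
      (fun a ha b hb => hoo r (r + h) (by omega) hrht a ha b hb)
  let Fr : ℕ → Finset ((ℝ × ℝ) × (ℝ × ℝ)) := fun r =>
    if hr : r < t - h ∧ r ∉ badset h then (hmatch r hr.1 hr.2).choose else ∅
  have hFr : ∀ r, r < t - h → r ∉ badset h → (Fr r).card = min (W r).card (W (r + h)).card ∧
      (∀ e ∈ Fr r, e.1 ∈ W r ∧ e.2 ∈ W (r + h)) ∧
      (∀ e ∈ Fr r, ∀ e' ∈ Fr r, e ≠ e' → CrossO e.1 e.2 e'.1 e'.2) := by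
    intro r hr hnb
    simp only [Fr, hr, hnb, not_false_eq_true, and_self, dite_true]
    exact (hmatch r hr hnb).choose_spec
  set G := range (t - h) \ badset h with hG
  have hGmem : ∀ r ∈ G, r < t - h ∧ r ∉ badset h := by
    intro r hr
    rw [hG, Finset.mem_sdiff, Finset.mem_range] at hr
    exact hr
  refine ⟨G.biUnion Fr, h, (badset h).card, ?_, ?_, hh.1, hh.2, hbadh, ?_⟩
  · intro e he
    obtain ⟨r, hr, her⟩ := Finset.mem_biUnion.mp he
    obtain ⟨hr1, hr2⟩ := hGmem r hr
    obtain ⟨h1, h2⟩ := (hFr r hr1 hr2).2.1 e her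
    exact ⟨hWP r (by omega) h1, hWP (r + h) (by omega) h2,
      hdisj r (r + h) (by omega) (by omega) _ h1 _ h2⟩
  · intro e he e' he' hne
    obtain ⟨r, hr, her⟩ := Finset.mem_biUnion.mp he
    obtain ⟨r', hr', her'⟩ := Finset.mem_biUnion.mp he'
    obtain ⟨hr1, hr2⟩ := hGmem r hr
    obtain ⟨hr1', hr2'⟩ := hGmem r' hr'
    by_cases hrr : r = r'
    · subst hrr
      exact (hFr r hr1 hr2).2.2 e her e' her' hne
    · obtain ⟨h1, h2⟩ := (hFr r hr1 hr2).2.1 e her
      obtain ⟨h3, h4⟩ := (hFr r' hr1' hr2').2.1 e' her'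
      rcases lt_or_gt_of_ne hrr with hlt | hlt
      · exact crossO_of_convex
          (hcap r r' (r + h) hlt (by omega) (by omega) _ h1 _ h3 _ h2)
          (hcap r r' (r' + h) hlt (by omega) (by omega) _ h1 _ h3 _ h4)
          (hcap r (r + h) (r' + h) (by omega) (by omega) (by omega) _ h1 _ h2 _ h4)
          (hcap r' (r + h) (r' + h) (by omega) (by omega) (by omega) _ h3 _ h2 _ h4)
      · exact (crossO_of_convex
          (hcap r' r (r' + h) hlt (by omega) (by omega) _ h3 _ h1 _ h4)
          (hcap r' r (r + h) hlt (by omega) (by omega) _ h3 _ h1 _ h2)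
          (hcap r' (r' + h) (r + h) (by omega) (by omega) (by omega) _ h3 _ h4 _ h2)
          (hcap r (r' + h) (r + h) (by omega) (by omega) (by omega) _ h1 _ h4 _ h2)).symm
  · -- the counting
    have hcardF : (G.biUnion Fr).card = ∑ r ∈ G, min (W r).card (W (r + h)).card := by
      rw [Finset.card_biUnion]
      · apply Finset.sum_congr rfl
        intro r hr
        obtain ⟨hr1, hr2⟩ := hGmem r hr
        exact (hFr r hr1 hr2).1
      · intro r hr r' hr' hne
        simp only [Function.onFun]
        rw [Finset.disjoint_left]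
        intro e he he'
        obtain ⟨hr1, hr2⟩ := hGmem r hr
        obtain ⟨hr1', hr2'⟩ := hGmem r' hr'
        have h1 := ((hFr r hr1 hr2).2.1 e he).1
        have h2 := ((hFr r' hr1' hr2').2.1 e he').1
        exact hdisj' r r' hne (by omega) (by omega) _ h1 _ h2 rfl
    have hbs : badset h ⊆ range (t - h) := Finset.filter_subset _ _
    have hsplit : ∑ r ∈ range (t - h), w = ∑ r ∈ G, w + ∑ r ∈ badset h, w := by
      rw [hG]; exact (Finset.sum_sdiff hbs).symm
    have h1 : ∑ r ∈ G, w ≤ ∑ r ∈ G, min (W r).card (W (r + h)).card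
        + ∑ r ∈ G, ((w - (W r).card) + (w - (W (r + h)).card)) := by
      rw [← Finset.sum_add_distrib]
      apply Finset.sum_le_sum
      intro r hr
      obtain ⟨hr1, hr2⟩ := hGmem r hr
      have a1 := hWc r (by omega)
      have a2 := hWc (r + h) (by omega)
      rcases le_total (W r).card (W (r + h)).card with h3 | h3
      · rw [min_eq_left h3]; omega
      · rw [min_eq_right h3]; omega
    have h2 : ∑ r ∈ G, ((w - (W r).card) + (w - (W (r + h)).card))
        ≤ ∑ r ∈ range (t - h), ((w - (W r).card) + (w - (W (r + h)).card)) := by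
      apply Finset.sum_le_sum_of_subset
      rw [hG]; exact Finset.sdiff_subset
    have h3 : ∑ r ∈ range (t - h), ((w - (W r).card) + (w - (W (r + h)).card))
        ≤ ∑ r ∈ range t, (w - (W r).card) := by
      rw [Finset.sum_add_distrib]
      have e1 : ∑ r ∈ range (t - h), (w - (W (r + h)).card)
          = ∑ r ∈ Finset.Ico h (h + (t - h)), (w - (W r).card) := by
        rw [Finset.sum_Ico_eq_sum_range]
        have : h + (t - h) - h = t - h := by omega
        rw [this]
        apply Finset.sum_congr rfl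
        intro r _
        rw [Nat.add_comm]
      rw [e1, ← Finset.sum_union]
      · apply Finset.sum_le_sum_of_subset
        intro r hr
        rw [Finset.mem_union, Finset.mem_range, Finset.mem_Ico] at hr
        rw [Finset.mem_range]
        omega
      · rw [Finset.disjoint_left]
        intro r hr hr'
        rw [Finset.mem_range] at hr
        rw [Finset.mem_Ico] at hr'
        omega
    have e0 : ∑ r ∈ range (t - h), w = (t - h) * w := by
      rw [Finset.sum_const, Finset.card_range, smul_eq_mul]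
    have e2 : ∑ r ∈ badset h, w = w * (badset h).card := by
      rw [Finset.sum_const, smul_eq_mul, Nat.mul_comm]
    rw [hcardF]
    rw [e0, e2] at hsplit
    omega

end Pool.Agent.helper45
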