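import Mathlib
import Pool.Agent.helper45.CF6

/-! Selection of good indices. -/

namespace Pool.Agent.helper45

open Finset

/-- vertex set of a triple -/
def vset (τ : ℕ × ℕ × ℕ) : Finset ℕ := {τ.1, τ.2.1, τ.2.2}

lemma good_indices (N s R : ℕ) (C : ℕ → ℕ → ℕ → Prop)
    (hR : ∀ (F : Finset (ℕ × ℕ × ℕ)) (a : ℕ),
      (∀ τ ∈ F, τ.2.2 < N ∧ τ.1 + s ≤ τ.2.1 ∧ τ.2.1 + s ≤ τ.2.2 ∧ C τ.1 τ.2.1 τ.2.2 ∧
        τ.2.1 / s = a) →
      (∀ τ ∈ F, ∀ τ' ∈ F, τ ≠ τ' → Disjoint (vset τ) (vset τ')) → F.card ≤ R) :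
    ∃ G ⊆ range N, N ≤ G.card + 3 * (R * (N / s + 1)) ∧
      ∀ i ∈ G, ∀ j ∈ G, ∀ k ∈ G, i + s ≤ j → j + s ≤ k → ¬ C i j k := by
  classical
  set T : Finset (ℕ × ℕ × ℕ) := (range N ×ˢ range N ×ˢ range N).filter
    (fun τ => τ.1 + s ≤ τ.2.1 ∧ τ.2.1 + s ≤ τ.2.2 ∧ C τ.1 τ.2.1 τ.2.2) with hT
  set Fam : Finset (Finset (ℕ × ℕ × ℕ)) := T.powerset.filter
    (fun F => ∀ τ ∈ F, ∀ τ' ∈ F, τ ≠ τ' → Disjoint (vset τ) (vset τ')) with hFam
  have hne : Fam.Nonempty := ⟨∅, by
    rw [hFam, Finset.mem_filter]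
    exact ⟨Finset.mem_powerset.mpr (Finset.empty_subset _), by simp⟩⟩
  obtain ⟨F, hF, hmax⟩ := Finset.exists_max_image Fam Finset.card hne
  rw [hFam, Finset.mem_filter, Finset.mem_powerset] at hF
  obtain ⟨hFT, hFd⟩ := hF
  have hTmem : ∀ τ ∈ T, τ.1 < N ∧ τ.2.1 < N ∧ τ.2.2 < N ∧ τ.1 + s ≤ τ.2.1 ∧ τ.2.1 + s ≤ τ.2.2 ∧
      C τ.1 τ.2.1 τ.2.2 := by
    intro τ hτ
    rw [hT, Finset.mem_filter, Finset.mem_product, Finset.mem_product] at hτ
    simp only [Finset.mem_range] at hτ
    tauto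
  -- size of F
  have hFcard : F.card ≤ R * (N / s + 1) := by
    have h1 : F.card ≤ R * (F.image (fun τ => τ.2.1 / s)).card := by
      apply Finset.card_le_mul_card_image
      intro a _
      apply hR _ a
      · intro τ hτ
        rw [Finset.mem_filter] at hτ
        have := hTmem τ (hFT hτ.1)
        tauto
      · intro τ hτ τ' hτ' hne
        exact hFd τ (Finset.mem_filter.mp hτ).1 τ' (Finset.mem_filter.mp hτ').1 hne
    have h2 : (F.image (fun τ => τ.2.1 / s)).card ≤ N / s + 1 := by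
      have hsub : F.image (fun τ => τ.2.1 / s) ⊆ range (N / s + 1) := by
        intro a ha
        obtain ⟨τ, hτ, rfl⟩ := Finset.mem_image.mp ha
        rw [Finset.mem_range]
        have := (hTmem τ (hFT hτ)).2.1
        have h3 : τ.2.1 / s ≤ N / s := Nat.div_le_div_right this.le
        omega
      calc _ ≤ (range (N / s + 1)).card := Finset.card_le_card hsub
        _ = N / s + 1 := Finset.card_range _
    exact h1.trans (Nat.mul_le_mul_left _ h2)
  refine ⟨range N \ F.biUnion vset, Finset.sdiff_subset, ?_, ?_⟩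
  · have h1 : (F.biUnion vset).card ≤ F.card * 3 := by
      apply Finset.card_biUnion_le_card_mul
      intro τ _
      exact Finset.card_le_three
    have h2 : N - (F.biUnion vset).card ≤ (range N \ F.biUnion vset).card := by
      have := Finset.le_card_sdiff (F.biUnion vset) (range N)
      rwa [Finset.card_range] at this
    omega
  · intro i hi j hj k hk hij hjk hC
    rw [Finset.mem_sdiff, Finset.mem_range] at hi hj hk
    have hτT : (i, j, k) ∈ T := by
      rw [hT, Finset.mem_filter, Finset.mem_product, Finset.mem_product]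
      simp only [Finset.mem_range]
      exact ⟨⟨hi.1, hj.1, hk.1⟩, hij, hjk, hC⟩
    have hnotin : (i, j, k) ∉ F := by
      intro h
      apply hi.2
      exact Finset.mem_biUnion.mpr ⟨_, h, by simp [vset]⟩
    have hdis : ∀ τ ∈ F, Disjoint (vset (i, j, k)) (vset τ) := by
      intro τ hτ
      rw [Finset.disjoint_left]
      intro a ha ha'
      simp only [vset, Finset.mem_insert, Finset.mem_singleton] at ha
      rcases ha with rfl | rfl | rfl
      · exact hi.2 (Finset.mem_biUnion.mpr ⟨τ, hτ, ha'⟩)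
      · exact hj.2 (Finset.mem_biUnion.mpr ⟨τ, hτ, ha'⟩)
      · exact hk.2 (Finset.mem_biUnion.mpr ⟨τ, hτ, ha'⟩)
    have hbig : insert (i, j, k) F ∈ Fam := by
      rw [hFam, Finset.mem_filter, Finset.mem_powerset]
      refine ⟨Finset.insert_subset hτT hFT, ?_⟩
      intro τ hτ τ' hτ' hne
      rcases Finset.mem_insert.mp hτ with rfl | h1 <;> rcases Finset.mem_insert.mp hτ' with rfl | h2
      · exact absurd rfl hne
      · exact hdis τ' h2
      · exact (hdis τ h1).symm
      · exact hFd τ h1 τ' h2 hne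
    have := hmax _ hbig
    rw [Finset.card_insert_of_notMem hnotin] at this
    omega

/-- the projective map sending `o` to vertical infinity -/
noncomputable def proj (o p : ℝ × ℝ) : ℝ × ℝ :=
  (-(p.1 - o.1) / (p.2 - o.2), -1 / (p.2 - o.2))

lemma orr_proj {o x y z : ℝ × ℝ} (hx : o.2 < x.2) (hy : o.2 < y.2) (hz : o.2 < z.2) :
    orr (proj o x) (proj o z) (proj o y) =
      orr x y z / ((x.2 - o.2) * (y.2 - o.2) * (z.2 - o.2)) := by
  have h1 : x.2 - o.2 ≠ 0 := by linarith
  have h2 : y.2 - o.2 ≠ 0 := by linarith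
  have h3 : z.2 - o.2 ≠ 0 := by linarith
  unfold proj orr
  simp only
  field_simp
  ring

lemma proj_lt {o x y : ℝ × ℝ} (hx : o.2 < x.2) (hy : o.2 < y.2) :
    (proj o x).1 < (proj o y).1 ↔ 0 < orr o x y := by
  have h1 : 0 < x.2 - o.2 := by linarith
  have h2 : 0 < y.2 - o.2 := by linarith
  have key : (proj o y).1 - (proj o x).1 = orr o x y / ((x.2 - o.2) * (y.2 - o.2)) := by
    unfold proj orr
    simp only
    field_simp
    ring
  rw [← sub_pos, key]
  constructor
  · intro h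
    by_contra hc
    push Not at hc
    have := div_nonpos_of_nonpos_of_nonneg hc (mul_pos h1 h2).le
    linarith
  · intro h
    exact div_pos h (mul_pos h1 h2)

end Pool.Agent.helper45
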