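import Mathlib
import Pool.Agent.helper45.CF7

/-! The core theorem, sign version. -/

namespace Pool.Agent.helper45

open Finset

/-- split off the `k` lowest points -/
lemma split_lowest (P : Finset (ℝ × ℝ)) (hinj : Set.InjOn Prod.snd (P : Set (ℝ × ℝ))) (k : ℕ)
    (hk : k ≤ P.card) : ∃ B ⊆ P, B.card = k ∧ ∀ b ∈ B, ∀ a ∈ P \ B, b.2 < a.2 := by
  classical
  induction k with
  | zero => exact ⟨∅, Finset.empty_subset _, rfl, by simp⟩
  | succ k ih =>
    obtain ⟨B, hBP, hBc, hB⟩ := ih (by omega)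
    have hne : (P \ B).Nonempty := by
      rw [← Finset.card_pos, Finset.card_sdiff_of_subset hBP]
      omega
    obtain ⟨x, hx, hxmin⟩ := Finset.exists_min_image (P \ B) Prod.snd hne
    have hx' := Finset.mem_sdiff.mp hx
    refine ⟨insert x B, Finset.insert_subset hx'.1 hBP, ?_, ?_⟩
    · rw [Finset.card_insert_of_notMem hx'.2, hBc]
    · intro b hb a ha
      rw [Finset.mem_sdiff, Finset.mem_insert, not_or] at ha
      have ha' : a ∈ P \ B := Finset.mem_sdiff.mpr ⟨ha.1, ha.2.2⟩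
      rcases Finset.mem_insert.mp hb with rfl | hb
      · refine lt_of_le_of_ne (hxmin a ha') ?_
        intro heq
        exact ha.2.1 (hinj ha.1 hx'.1 heq.symm)
      · exact hB b hb a ha'

/-- endpoints in `P` and pairwise crossing -/
def CrossFamO (P : Finset (ℝ × ℝ)) (F : Finset ((ℝ × ℝ) × (ℝ × ℝ))) : Prop :=
  (∀ e ∈ F, e.1 ∈ P ∧ e.2 ∈ P ∧ e.1 ≠ e.2) ∧
  (∀ e ∈ F, ∀ e' ∈ F, e ≠ e' → CrossO e.1 e.2 e'.1 e'.2)

/-- sign version of a non-crossing family of size at least `m` -/
def NonCrossO (P : Finset (ℝ × ℝ)) (m : ℕ) : Prop :=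
  ∃ P1 P2 P3 P4 : Finset (ℝ × ℝ), m ≤ P1.card ∧ m ≤ P2.card ∧ m ≤ P3.card ∧ m ≤ P4.card ∧
    P1 ⊆ P ∧ P2 ⊆ P ∧ P3 ⊆ P ∧ P4 ⊆ P ∧
    ∀ p1 ∈ P1, ∀ p2 ∈ P2, ∀ p3 ∈ P3, ∀ p4 ∈ P4, InTri p1 p2 p3 p4

lemma final_estimate (δ : ℝ) (hδ : 0 < δ) (hδ1 : δ ≤ 1 / 12) (R s w N nt h q bad Fc D : ℕ)
    (hw0 : 0 < w)
    (hs : 3 * (R : ℝ) ≤ δ * s) (hw : (s : ℝ) ≤ δ * w) (hnt : N < nt * (w + s) + (w + s))
    (hh : h < (nt + 1) / 2 + q) (hq : (q : ℝ) ≤ δ * nt + 1) (hq' : δ * nt < q)
    (hbad : bad * q ≤ nt * (w * w)) (hcount : (nt - h) * w ≤ Fc + w * bad + D)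
    (hD : D * s ≤ 3 * (R * (N + s))) (hs0 : 0 < s) :
    (1 / 2 - 3 * δ) * N - (w + w ^ 3 / δ + 3 * R) ≤ (Fc : ℝ) := by
  have hN0 : (0 : ℝ) ≤ N := Nat.cast_nonneg _
  have hR0 : (0 : ℝ) ≤ R := Nat.cast_nonneg _
  have hwpos : (0 : ℝ) < w := by exact_mod_cast hw0
  have hspos : (0 : ℝ) < s := by exact_mod_cast hs0
  have hnt0 : (0 : ℝ) ≤ nt := Nat.cast_nonneg _
  -- D ≤ δ N + 3 R
  have hD' : (D : ℝ) ≤ δ * N + 3 * R := by
    have h1 : (D : ℝ) * s ≤ 3 * (R * (N + s)) := by exact_mod_cast hD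
    have h2 : 3 * ((R : ℝ) * (N + s)) ≤ (δ * N + 3 * R) * s := by nlinarith
    exact le_of_mul_le_mul_right (h1.trans h2) hspos
  -- nt * w ≥ (1 - δ) N - w
  have hntw : (1 - δ) * N - w ≤ nt * w := by
    have h1 : (N : ℝ) < nt * (w + s) + (w + s) := by exact_mod_cast hnt
    have h2 : ((nt : ℝ) + 1) * (w + s) ≤ (nt + 1) * ((1 + δ) * w) := by
      apply mul_le_mul_of_nonneg_left _ (by linarith)
      linarith
    have h3 : (N : ℝ) < (1 + δ) * ((nt + 1) * w) := by nlinarith
    have h4 : (1 - δ) * (N : ℝ) ≤ (1 - δ) * ((1 + δ) * ((nt + 1) * w)) := by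
      apply mul_le_mul_of_nonneg_left h3.le
      linarith
    have h5 : 0 ≤ ((nt : ℝ) + 1) * w := by positivity
    nlinarith [mul_nonneg (sq_nonneg δ) h5]
  -- bad
  have hbad' : (bad : ℝ) ≤ w ^ 2 / δ := by
    rw [le_div_iff₀ hδ]
    have h1 : (bad : ℝ) * q ≤ nt * (w * w) := by exact_mod_cast hbad
    rcases Nat.eq_zero_or_pos nt with h0 | h0
    · subst h0
      have hq0 : (0 : ℝ) < q := by
        have := hq'
        simpa using this
      have h2 : (bad : ℝ) * q ≤ 0 := by simpa using h1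
      have h3 : (bad : ℝ) ≤ 0 := by
        by_contra hc
        push Not at hc
        have := mul_pos hc hq0
        linarith
      have h4 : 0 ≤ (w : ℝ) ^ 2 := by positivity
      nlinarith
    · have hntpos : (0 : ℝ) < nt := by exact_mod_cast h0
      have hb0 : (0 : ℝ) ≤ bad := Nat.cast_nonneg _
      have h2 : (bad : ℝ) * (δ * nt) ≤ nt * (w * w) :=
        (mul_le_mul_of_nonneg_left hq'.le hb0).trans h1
      have h3 : (bad : ℝ) * δ * nt ≤ w ^ 2 * nt := by nlinarith
      exact le_of_mul_le_mul_right h3 hntpos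
  -- nt - h
  have hnth : (1 / 2 - δ) * nt - 1 / 2 ≤ ((nt - h : ℕ) : ℝ) := by
    have h1 : (nt : ℝ) - h ≤ ((nt - h : ℕ) : ℝ) := by
      rw [sub_le_iff_le_add]
      exact_mod_cast (show nt ≤ nt - h + h by omega)
    have h2 : 2 * (h : ℝ) + 1 ≤ nt + 2 * q := by
      have : 2 * h + 1 ≤ nt + 2 * q := by omega
      exact_mod_cast this
    linarith
  have hcount' : ((nt - h : ℕ) : ℝ) * w ≤ Fc + w * bad + D := by exact_mod_cast hcount
  have h6 : ((1 / 2 - δ) * nt - 1 / 2) * w ≤ ((nt - h : ℕ) : ℝ) * w :=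
    mul_le_mul_of_nonneg_right hnth hwpos.le
  have h7 : (w : ℝ) * bad ≤ w * (w ^ 2 / δ) := mul_le_mul_of_nonneg_left hbad' hwpos.le
  have h8 : (w : ℝ) * (w ^ 2 / δ) = w ^ 3 / δ := by ring
  have h9 : (1 / 2 - δ) * ((1 - δ) * N - w) ≤ (1 / 2 - δ) * (nt * w) :=
    mul_le_mul_of_nonneg_left hntw (by linarith)
  have h10 : 0 ≤ δ ^ 2 * N := by positivity
  have h11 : 0 ≤ δ * N := by positivity
  have h12 : 0 ≤ δ * w := by positivity
  nlinarith

theorem core (m : ℕ) (hm : 0 < m) (c : ℝ) (hc0 : 0 ≤ c) (hc : c < 1 / 2) :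
    ∃ n0 : ℕ, ∀ P : Finset (ℝ × ℝ), n0 ≤ P.card →
      (∀ a ∈ P, ∀ b ∈ P, ∀ c ∈ P, a ≠ b → a ≠ c → b ≠ c → orr a b c ≠ 0) →
      Set.InjOn Prod.snd (P : Set (ℝ × ℝ)) →
      (∃ F, CrossFamO P F ∧ c * P.card ≤ F.card) ∨ NonCrossO P m := by
  classical
  obtain ⟨M, hM⟩ := noncrossing_of_block (6 * m) m
  obtain ⟨R, hR⟩ := block_of_cups M
  set δ : ℝ := (1 / 2 - c) / 6 with hδdef
  have hδ : 0 < δ := by rw [hδdef]; linarith
  have hδ1 : δ ≤ 1 / 12 := by rw [hδdef]; linarith
  obtain ⟨s0, hs0⟩ := exists_nat_gt (3 * (R : ℝ) / δ)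
  set s := s0 + 1 with hs
  have hspos : 0 < s := by omega
  have hsR : 3 * (R : ℝ) ≤ δ * s := by
    have h1 : 3 * (R : ℝ) / δ < s := by
      rw [hs]; push_cast; linarith
    rw [div_lt_iff₀ hδ] at h1
    linarith
  obtain ⟨w0, hw0⟩ := exists_nat_gt ((s : ℝ) / δ)
  set w := w0 + 1 with hw
  have hwpos : 0 < w := by omega
  have hws : (s : ℝ) ≤ δ * w := by
    have h1 : (s : ℝ) / δ < w := by
      rw [hw]; push_cast; linarith
    rw [div_lt_iff₀ hδ] at h1
    linarith
  set C0 : ℝ := w + w ^ 3 / δ + 3 * R with hC0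
  obtain ⟨n1, hn1⟩ := exists_nat_gt ((C0 + 6 * m) / (3 * δ))
  refine ⟨n1 + 6 * m + 1, ?_⟩
  intro P hP hgp hinj
  by_cases hNC : NonCrossO P m
  · exact Or.inr hNC
  left
  obtain ⟨B, hBP, hBc, hB⟩ := split_lowest P hinj (6 * m) (by omega)
  set A := P \ B with hA
  have hAP : A ⊆ P := Finset.sdiff_subset
  have hAc : A.card = P.card - 6 * m := by
    rw [hA, Finset.card_sdiff_of_subset hBP, hBc]
  have hBne : B.Nonempty := by rw [← Finset.card_pos]; omega
  have hAne : A.Nonempty := by rw [← Finset.card_pos]; omega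
  -- the threshold
  obtain ⟨t, htB, htA⟩ : ∃ t : ℝ, (∀ b ∈ B, b.2 < t) ∧ ∀ a ∈ A, t < a.2 := by
    obtain ⟨b1, hb1, hb1max⟩ := Finset.exists_max_image B Prod.snd hBne
    obtain ⟨a1, ha1, ha1min⟩ := Finset.exists_min_image A Prod.snd hAne
    have hlt := hB b1 hb1 a1 ha1
    refine ⟨(b1.2 + a1.2) / 2, ?_, ?_⟩
    · intro b hb
      have := hb1max b hb
      linarith
    · intro a ha
      have := ha1min a ha
      linarith
  obtain ⟨o, hot, hoP, hodeep⟩ := exists_deep_point m hm B hBc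
    (fun a ha b hb c hc => hgp a (hBP ha) b (hBP hb) c (hBP hc)) t htB P
  have hoA : ∀ a ∈ A, o.2 < a.2 := fun a ha => hot.trans (htA a ha)
  set N := A.card with hN
  have hNpos : 0 < N := Finset.card_pos.mpr hAne
  have hkinj : Set.InjOn (fun a => (proj o a).1) (A : Set (ℝ × ℝ)) := by
    intro a ha a' ha' heq
    by_contra hne
    have h1 := hoP a (hAP ha) a' (hAP ha') hne
    have h2 : orr o a a' ≠ 0 := by
      rw [← orr_cyc]; exact h1
    simp only at heq
    rcases lt_or_gt_of_ne h2 with h3 | h3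
    · have h4 : 0 < orr o a' a := by
        have e : orr o a' a = - orr o a a' := by unfold orr; ring
        rw [e]; linarith
      have := (proj_lt (hoA a' ha') (hoA a ha)).mpr h4
      linarith
    · have := (proj_lt (hoA a ha) (hoA a' ha')).mpr h3
      linarith
  obtain ⟨p, hpA, hplt⟩ := exists_enum A (fun a => (proj o a).1) hkinj N rfl hNpos
  have hpne : ∀ i j, i < N → j < N → i ≠ j → p i ≠ p j := by
    intro i j hi hj hne heq
    rcases lt_or_gt_of_ne hne with h | h
    · have := hplt i j h hj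
      rw [heq] at this; exact lt_irrefl _ this
    · have := hplt j i h hi
      rw [heq] at this; exact lt_irrefl _ this
  have hoo : ∀ i j, i < j → j < N → 0 < orr o (p i) (p j) := by
    intro i j hij hj
    exact (proj_lt (hoA _ (hpA i (hij.trans hj))) (hoA _ (hpA j hj))).mp (hplt i j hij hj)
  -- an enumeration of B
  let bB : Fin (6 * m) → ℝ × ℝ := fun i => ((B.equivFinOfCardEq hBc).symm i : ℝ × ℝ)
  have hbBinj : Function.Injective bB := by
    intro i j hij
    exact (B.equivFinOfCardEq hBc).symm.injective (Subtype.ext hij)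
  have hbBmem : ∀ i, bB i ∈ B := fun i => ((B.equivFinOfCardEq hBc).symm i).2
  have hbBimg : univ.image bB = B := by
    apply Finset.eq_of_subset_of_card_le
    · intro b hb
      obtain ⟨i, -, rfl⟩ := Finset.mem_image.mp hb
      exact hbBmem i
    · rw [Finset.card_image_of_injective _ hbBinj, Finset.card_univ, Fintype.card_fin, hBc]
  have hcountB : ∀ x y, (B.filter fun b => 0 < orr x y b).card
      = (univ.filter fun i => 0 < orr x y (bB i)).card := by
    intro x y
    rw [← hbBimg, Finset.filter_image, Finset.card_image_of_injective _ hbBinj]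
  -- good indices
  obtain ⟨G, hGN, hGc, hGcap⟩ := good_indices N s R (fun i j k => orr (p i) (p j) (p k) < 0)
    (by
      intro F a hF hFd
      by_contra hcon
      push Not at hcon
      apply hNC
      -- choose a reference triple
      have hFne : F.Nonempty := by rw [← Finset.card_pos]; omega
      obtain ⟨τ0, hτ0⟩ := hFne
      have hidx : ∀ τ ∈ F, ∀ τ' ∈ F, τ.1 < τ'.2.1 ∧ τ.2.1 < τ'.2.2 := by
        intro τ hτ τ' hτ'
        obtain ⟨h1, h2, h3, h4, h5⟩ := hF τ hτ
        obtain ⟨h1', h2', h3', h4', h5'⟩ := hF τ' hτ'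
        have e1 := Nat.div_add_mod τ.2.1 s
        have e2 := Nat.mod_lt τ.2.1 hspos
        have e3 := Nat.div_add_mod τ'.2.1 s
        have e4 := Nat.mod_lt τ'.2.1 hspos
        rw [h5] at e1
        rw [h5'] at e3
        constructor <;> omega
      have hlt : ∀ τ ∈ F, τ.1 < N ∧ τ.2.1 < N ∧ τ.2.2 < N ∧ τ.1 < τ.2.1 ∧ τ.2.1 < τ.2.2 := by
        intro τ hτ
        obtain ⟨h1, h2, h3, -, -⟩ := hF τ hτ
        refine ⟨by omega, by omega, by omega, by omega, by omega⟩
      have hinj1 : ∀ τ ∈ F, ∀ τ' ∈ F, τ ≠ τ' → τ.1 ≠ τ'.1 ∧ τ.2.1 ≠ τ'.2.1 ∧ τ.2.2 ≠ τ'.2.2 := by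
        intro τ hτ τ' hτ' hne
        have hd := hFd τ hτ τ' hτ' hne
        rw [Finset.disjoint_left] at hd
        refine ⟨?_, ?_, ?_⟩
        · intro heq
          exact hd (a := τ.1) (by simp [vset]) (by simp [vset, heq])
        · intro heq
          exact hd (a := τ.2.1) (by simp [vset]) (by simp [vset, heq])
        · intro heq
          exact hd (a := τ.2.2) (by simp [vset]) (by simp [vset, heq])
      obtain ⟨X, hX, Y, hY, Z, hZ, hXc, hYc, hZc, hblock⟩ := hR F
        (fun τ => proj o (p τ.1)) (fun τ => proj o (p τ.2.1)) (fun τ => proj o (p τ.2.2))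
        (proj o (p τ0.2.1)).1 hcon.le
        (fun τ hτ => hplt _ _ (hidx τ hτ τ0 hτ0).1 (hlt τ0 hτ0).2.1)
        (fun τ hτ => hplt _ _ (hidx τ0 hτ0 τ hτ).2 (hlt τ hτ).2.2.1)
        (fun τ hτ τ' hτ' => hplt _ _ (hidx τ hτ τ' hτ').1 (hlt τ' hτ').2.1)
        (fun τ hτ τ' hτ' => hplt _ _ (hidx τ hτ τ' hτ').2 (hlt τ' hτ').2.2.1)
        (fun τ hτ => by
          obtain ⟨h1, h2, h3, h4, h5⟩ := hlt τ hτ
          have hx := hoA _ (hpA _ h1)
          have hy := hoA _ (hpA _ h2)
          have hz := hoA _ (hpA _ h3)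
          rw [orr_proj hx hy hz]
          apply div_neg_of_neg_of_pos (hF τ hτ).2.2.2.1
          apply mul_pos (mul_pos _ _) _ <;> linarith)
      have hblock' : ∀ i ∈ X, ∀ j ∈ Y, ∀ k ∈ Z, orr (p i.1) (p j.2.1) (p k.2.2) < 0 := by
        intro i hi j hj k hk
        have h := hblock i hi j hj k hk
        have hx := hoA _ (hpA _ (hlt i (hX hi)).1)
        have hy := hoA _ (hpA _ (hlt j (hY hj)).2.1)
        have hz := hoA _ (hpA _ (hlt k (hZ hk)).2.2.1)
        rw [orr_proj hx hy hz] at h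
        by_contra hc
        push Not at hc
        have : 0 ≤ orr (p i.1) (p j.2.1) (p k.2.2) /
            (((p i.1).2 - o.2) * ((p j.2.1).2 - o.2) * ((p k.2.2).2 - o.2)) := by
          apply div_nonneg hc
          apply mul_nonneg (mul_nonneg _ _) _ <;> linarith
        linarith
      -- point sets
      set X' := X.image (fun τ => p τ.1) with hX'
      set Y' := Y.image (fun τ => p τ.2.1) with hY'
      set Z' := Z.image (fun τ => p τ.2.2) with hZ'
      have hX'c : M ≤ X'.card := by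
        rw [hX', Finset.card_image_of_injOn, hXc]
        intro τ hτ τ' hτ' heq
        by_contra hne
        exact hpne _ _ (hlt τ (hX hτ)).1 (hlt τ' (hX hτ')).1
          (hinj1 τ (hX hτ) τ' (hX hτ') hne).1 heq
      have hY'c : M ≤ Y'.card := by
        rw [hY', Finset.card_image_of_injOn, hYc]
        intro τ hτ τ' hτ' heq
        by_contra hne
        exact hpne _ _ (hlt τ (hY hτ)).2.1 (hlt τ' (hY hτ')).2.1
          (hinj1 τ (hY hτ) τ' (hY hτ') hne).2.1 heq
      have hZ'c : M ≤ Z'.card := by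
        rw [hZ', Finset.card_image_of_injOn, hZc]
        intro τ hτ τ' hτ' heq
        by_contra hne
        exact hpne _ _ (hlt τ (hZ hτ)).2.2.1 (hlt τ' (hZ hτ')).2.2.1
          (hinj1 τ (hZ hτ) τ' (hZ hτ') hne).2.2 heq
      have hX'A : X' ⊆ A := by
        intro x hx
        obtain ⟨τ, hτ, rfl⟩ := Finset.mem_image.mp hx
        exact hpA _ (hlt τ (hX hτ)).1
      have hY'A : Y' ⊆ A := by
        intro x hx
        obtain ⟨τ, hτ, rfl⟩ := Finset.mem_image.mp hx
        exact hpA _ (hlt τ (hY hτ)).2.1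
      have hZ'A : Z' ⊆ A := by
        intro x hx
        obtain ⟨τ, hτ, rfl⟩ := Finset.mem_image.mp hx
        exact hpA _ (hlt τ (hZ hτ)).2.2.1
      have hXY : ∀ x ∈ X', ∀ y ∈ Y', 0 < orr o x y := by
        intro x hx y hy
        obtain ⟨τ, hτ, rfl⟩ := Finset.mem_image.mp hx
        obtain ⟨τ', hτ', rfl⟩ := Finset.mem_image.mp hy
        exact hoo _ _ (hidx τ (hX hτ) τ' (hY hτ')).1 (hlt τ' (hY hτ')).2.1
      have hYZ : ∀ y ∈ Y', ∀ z ∈ Z', 0 < orr o y z := by
        intro y hy z hz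
        obtain ⟨τ, hτ, rfl⟩ := Finset.mem_image.mp hy
        obtain ⟨τ', hτ', rfl⟩ := Finset.mem_image.mp hz
        exact hoo _ _ (hidx τ (hY hτ) τ' (hZ hτ')).2 (hlt τ' (hZ hτ')).2.2.1
      have hABne : ∀ a ∈ A, ∀ b ∈ B, a ≠ b := by
        intro a ha b hb heq
        rw [hA, Finset.mem_sdiff] at ha
        rw [heq] at ha
        exact ha.2 hb
      have hxyne : ∀ x y, 0 < orr o x y → x ≠ y := by
        intro x y h heq
        rw [heq, orr_self23] at h
        exact lt_irrefl _ h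
      obtain ⟨P1, P2, P3, P4, c1, c2, c3, c4, s1, s2, s3, s4, htri⟩ := hM bB o t X' Y' Z' hbBinj
        (fun i => htB _ (hbBmem i)) hot (fun y hy => htA y (hY'A hy)) hXY hYZ
        (by
          intro x hx y hy z hz
          obtain ⟨τ, hτ, rfl⟩ := Finset.mem_image.mp hx
          obtain ⟨τ', hτ', rfl⟩ := Finset.mem_image.mp hy
          obtain ⟨τ'', hτ'', rfl⟩ := Finset.mem_image.mp hz
          exact hblock' τ hτ τ' hτ' τ'' hτ'')
        (by
          intro x hx y hy i
          exact hgp x (hAP (hX'A hx)) y (hAP (hY'A hy)) _ (hBP (hbBmem i))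
            (hxyne x y (hXY x hx y hy)) (hABne x (hX'A hx) _ (hbBmem i))
            (hABne y (hY'A hy) _ (hbBmem i)))
        (by
          intro y hy z hz i
          exact hgp y (hAP (hY'A hy)) z (hAP (hZ'A hz)) _ (hBP (hbBmem i))
            (hxyne y z (hYZ y hy z hz)) (hABne y (hY'A hy) _ (hbBmem i))
            (hABne z (hZ'A hz) _ (hbBmem i)))
        (by
          intro x hx y hy
          rw [← hcountB]
          apply hodeep
          rw [orr_cyc]
          exact hXY x hx y hy)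
        (by
          intro y hy z hz
          rw [← hcountB]
          apply hodeep
          rw [orr_cyc]
          exact hYZ y hy z hz)
        hX'c hY'c hZ'c
      have hsubP : X' ∪ Y' ∪ Z' ∪ univ.image bB ⊆ P := by
        rw [hbBimg]
        apply Finset.union_subset (Finset.union_subset (Finset.union_subset _ _) _) hBP
        · exact hX'A.trans hAP
        · exact hY'A.trans hAP
        · exact hZ'A.trans hAP
      exact ⟨P1, P2, P3, P4, c1, c2, c3, c4, s1.trans hsubP, s2.trans hsubP, s3.trans hsubP,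
        s4.trans hsubP, htri⟩)
  -- clusters
  set nt := N / (w + s) with hnt
  set Wi : ℕ → Finset ℕ := fun r => G.filter (fun i => r * (w + s) ≤ i ∧ i < r * (w + s) + w)
    with hWi
  have hGlt : ∀ i ∈ G, i < N := fun i hi => Finset.mem_range.mp (hGN hi)
  have hWimem : ∀ r i, i ∈ Wi r → i ∈ G ∧ r * (w + s) ≤ i ∧ i < r * (w + s) + w := by
    intro r i hi
    exact Finset.mem_filter.mp hi
  have hgap : ∀ r1 r2 i j, r1 < r2 → i ∈ Wi r1 → j ∈ Wi r2 → i + s ≤ j := by
    intro r1 r2 i j h12 hi hj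
    obtain ⟨-, h1, h2⟩ := hWimem r1 i hi
    obtain ⟨-, h3, h4⟩ := hWimem r2 j hj
    have h5 : (r1 + 1) * (w + s) ≤ r2 * (w + s) := Nat.mul_le_mul_right _ h12
    have h6 : (r1 + 1) * (w + s) = r1 * (w + s) + (w + s) := by ring
    omega
  have hpinjG : ∀ r, Set.InjOn p (Wi r : Set ℕ) := by
    intro r i hi j hj heq
    by_contra hne
    exact hpne i j (hGlt i (hWimem r i hi).1) (hGlt j (hWimem r j hj).1) hne heq
  have hWicard : ∀ r, (Wi r).card ≤ w := by
    intro r
    have hsub : Wi r ⊆ Finset.Ico (r * (w + s)) (r * (w + s) + w) := by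
      intro i hi
      rw [Finset.mem_Ico]
      exact (hWimem r i hi).2
    have := Finset.card_le_card hsub
    rw [Nat.card_Ico] at this
    omega
  obtain ⟨q0, hq0⟩ := exists_nat_gt (0 : ℝ)
  set q := ⌊δ * nt⌋₊ + 1 with hq
  have hqle : (q : ℝ) ≤ δ * nt + 1 := by
    rw [hq]; push_cast
    have := Nat.floor_le (show 0 ≤ δ * (nt : ℝ) by positivity)
    linarith
  have hqgt : δ * nt < q := by
    rw [hq]; push_cast
    exact Nat.lt_floor_add_one _
  obtain ⟨F, h, bad, hF1, hF2, hh1, hh2, hbad, hcount⟩ := crossing_of_clusters P hgp o nt w q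
    (by omega) (fun r => (Wi r).image p)
    (by
      intro r _ x hx
      obtain ⟨i, hi, rfl⟩ := Finset.mem_image.mp hx
      exact hAP (hpA i (hGlt i (hWimem r i hi).1)))
    (by
      intro r _
      exact Finset.card_image_le.trans (hWicard r))
    (by
      intro r1 r2 r3 h12 h23 _ x hx y hy z hz
      obtain ⟨i, hi, rfl⟩ := Finset.mem_image.mp hx
      obtain ⟨j, hj, rfl⟩ := Finset.mem_image.mp hy
      obtain ⟨k, hk, rfl⟩ := Finset.mem_image.mp hz
      have g1 := hgap r1 r2 i j h12 hi hj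
      have g2 := hgap r2 r3 j k h23 hj hk
      have hiG := (hWimem r1 i hi).1
      have hjG := (hWimem r2 j hj).1
      have hkG := (hWimem r3 k hk).1
      have h1 := hGcap i hiG j hjG k hkG g1 g2
      push Not at h1
      have hi' := hGlt i hiG
      have hj' := hGlt j hjG
      have hk' := hGlt k hkG
      have h2 : orr (p i) (p j) (p k) ≠ 0 := hgp _ (hAP (hpA i hi')) _ (hAP (hpA j hj')) _
        (hAP (hpA k hk')) (hpne i j hi' hj' (by omega)) (hpne i k hi' hk' (by omega))
        (hpne j k hj' hk' (by omega))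
      exact lt_of_le_of_ne h1 h2.symm)
    (by
      intro r1 r2 h12 _ x hx y hy
      obtain ⟨i, hi, rfl⟩ := Finset.mem_image.mp hx
      obtain ⟨j, hj, rfl⟩ := Finset.mem_image.mp hy
      have g1 := hgap r1 r2 i j h12 hi hj
      exact hoo i j (by omega) (hGlt j (hWimem r2 j hj).1))
  refine ⟨F, ⟨hF1, hF2⟩, ?_⟩
  -- deficits
  set D := ∑ r ∈ range nt, (w - ((Wi r).image p).card) with hD
  have hDle : D ≤ 3 * (R * (N / s + 1)) := by
    have h1 : ∀ r, w - ((Wi r).image p).card
        = (Finset.Ico (r * (w + s)) (r * (w + s) + w) \ G).card := by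
      intro r
      rw [Finset.card_image_of_injOn (hpinjG r)]
      have h2 : Wi r = Finset.Ico (r * (w + s)) (r * (w + s) + w) ∩ G := by
        ext i
        simp only [hWi, Finset.mem_filter, Finset.mem_inter, Finset.mem_Ico]
        tauto
      rw [h2]
      have h3 := Finset.card_inter_add_card_sdiff (Finset.Ico (r * (w + s)) (r * (w + s) + w)) G
      rw [Nat.card_Ico] at h3
      omega
    have h4 : D = ((range nt).biUnion
        (fun r => Finset.Ico (r * (w + s)) (r * (w + s) + w) \ G)).card := by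
      rw [hD, Finset.card_biUnion]
      · exact Finset.sum_congr rfl (fun r _ => h1 r)
      · intro r _ r' _ hne
        simp only [Function.onFun]
        rw [Finset.disjoint_left]
        intro i hi hi'
        rw [Finset.mem_sdiff, Finset.mem_Ico] at hi hi'
        rcases lt_or_gt_of_ne hne with hlt | hlt
        · have h5 : (r + 1) * (w + s) ≤ r' * (w + s) := Nat.mul_le_mul_right _ hlt
          have h6 : (r + 1) * (w + s) = r * (w + s) + (w + s) := by ring
          omega
        · have h5 : (r' + 1) * (w + s) ≤ r * (w + s) := Nat.mul_le_mul_right _ hlt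
          have h6 : (r' + 1) * (w + s) = r' * (w + s) + (w + s) := by ring
          omega
    have h7 : (range nt).biUnion
        (fun r => Finset.Ico (r * (w + s)) (r * (w + s) + w) \ G) ⊆ range N \ G := by
      intro i hi
      obtain ⟨r, hr, hi⟩ := Finset.mem_biUnion.mp hi
      rw [Finset.mem_sdiff, Finset.mem_Ico] at hi
      rw [Finset.mem_sdiff, Finset.mem_range]
      refine ⟨?_, hi.2⟩
      have h8 : (r + 1) * (w + s) ≤ nt * (w + s) :=
        Nat.mul_le_mul_right _ (Finset.mem_range.mp hr)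
      have h9 : (r + 1) * (w + s) = r * (w + s) + (w + s) := by ring
      have h10 : nt * (w + s) ≤ N := Nat.div_mul_le_self _ _
      omega
    have h11 : (range N \ G).card = N - G.card := by
      rw [Finset.card_sdiff_of_subset hGN, Finset.card_range]
    have h12 := Finset.card_le_card h7
    rw [← h4, h11] at h12
    omega
  have hDs : D * s ≤ 3 * (R * (N + s)) := by
    calc D * s ≤ 3 * (R * (N / s + 1)) * s := Nat.mul_le_mul_right _ hDle
      _ = 3 * (R * (N / s * s + s)) := by ring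
      _ ≤ 3 * (R * (N + s)) := by
          apply Nat.mul_le_mul_left
          apply Nat.mul_le_mul_left
          have := Nat.div_mul_le_self N s
          omega
  have hntN : N < nt * (w + s) + (w + s) := by
    have h1 := Nat.div_add_mod N (w + s)
    have h2 := Nat.mod_lt N (show 0 < w + s by omega)
    rw [Nat.mul_comm] at h1
    rw [hnt]
    omega
  have hest := final_estimate δ hδ hδ1 R s w N nt h q bad F.card D hwpos hsR hws hntN hh2 hqle
    hqgt hbad hcount hDs hspos
  -- conclude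
  have hPN : (P.card : ℝ) = N + 6 * m := by
    have : P.card = N + 6 * m := by omega
    rw [this]; push_cast; ring
  have hNn1 : (n1 : ℝ) ≤ N := by
    have : n1 ≤ N := by omega
    exact_mod_cast this
  have hlarge : C0 + 6 * m ≤ 3 * δ * N := by
    rw [div_lt_iff₀ (by positivity)] at hn1
    have h1 : (n1 : ℝ) * (3 * δ) ≤ N * (3 * δ) :=
      mul_le_mul_of_nonneg_right hNn1 (by positivity)
    linarith
  rw [hPN]
  have hcδ : c = 1 / 2 - 6 * δ := by rw [hδdef]; ring
  have hm0 : (0 : ℝ) ≤ m := Nat.cast_nonneg _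
  have hδm : 0 ≤ δ * m := by positivity
  rw [hcδ]
  nlinarith

end Pool.Agent.helper45
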