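import Mathlib
import Pool.Agent.helper45.CF8

/-! Removing the assumption of distinct heights. -/

namespace Pool.Agent.helper45

open Finset

/-- a vertical shear -/
def shear (ε : ℝ) : ℝ × ℝ ≃ ℝ × ℝ where
  toFun p := (p.1, p.2 + ε * p.1)
  invFun p := (p.1, p.2 - ε * p.1)
  left_inv p := by ext <;> simp
  right_inv p := by ext <;> simp

lemma orr_shear (ε : ℝ) (a b c : ℝ × ℝ) :
    orr (shear ε a) (shear ε b) (shear ε c) = orr a b c := by
  unfold orr shear
  simp only [Equiv.coe_fn_mk]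
  ring

lemma orr_shear_symm (ε : ℝ) (a b c : ℝ × ℝ) :
    orr ((shear ε).symm a) ((shear ε).symm b) ((shear ε).symm c) = orr a b c := by
  have := orr_shear ε ((shear ε).symm a) ((shear ε).symm b) ((shear ε).symm c)
  simpa using this.symm

lemma exists_shear (P : Finset (ℝ × ℝ)) :
    ∃ ε : ℝ, Set.InjOn (fun p => (shear ε p).2) (P : Set (ℝ × ℝ)) := by
  classical
  obtain ⟨ε, hε⟩ := Infinite.exists_notMem_finset
    ((P ×ˢ P).image (fun x : (ℝ × ℝ) × (ℝ × ℝ) => -(x.2.2 - x.1.2) / (x.2.1 - x.1.1)))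
  refine ⟨ε, ?_⟩
  intro p hp q hq heq
  have heq' : p.2 + ε * p.1 = q.2 + ε * q.1 := heq
  by_contra hne
  by_cases h1 : q.1 - p.1 = 0
  · apply hne
    have h2 : p.1 = q.1 := by linarith
    ext
    · exact h2
    · rw [h2] at heq'; linarith
  · apply hε
    rw [Finset.mem_image]
    refine ⟨(p, q), Finset.mem_product.mpr ⟨hp, hq⟩, ?_⟩
    simp only
    rw [div_eq_iff h1]
    linarith

theorem core' (m : ℕ) (hm : 0 < m) (c : ℝ) (hc0 : 0 ≤ c) (hc : c < 1 / 2) :
    ∃ n0 : ℕ, ∀ P : Finset (ℝ × ℝ), n0 ≤ P.card →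
      (∀ a ∈ P, ∀ b ∈ P, ∀ c ∈ P, a ≠ b → a ≠ c → b ≠ c → orr a b c ≠ 0) →
      (∃ F, CrossFamO P F ∧ c * P.card ≤ F.card) ∨ NonCrossO P m := by
  classical
  obtain ⟨n0, hn0⟩ := core m hm c hc0 hc
  refine ⟨n0, ?_⟩
  intro P hP hgp
  obtain ⟨ε, hε⟩ := exists_shear P
  set σ := shear ε with hσ
  set P' := P.image σ with hP'
  have hc' : P'.card = P.card := Finset.card_image_of_injective _ σ.injective
  have hmem : ∀ a ∈ P', σ.symm a ∈ P := by
    intro a ha
    obtain ⟨b, hb, rfl⟩ := Finset.mem_image.mp ha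
    simpa using hb
  have hgp' : ∀ a ∈ P', ∀ b ∈ P', ∀ c ∈ P', a ≠ b → a ≠ c → b ≠ c → orr a b c ≠ 0 := by
    intro a ha b hb c hc hab hac hbc
    rw [← orr_shear_symm ε a b c]
    exact hgp _ (hmem a ha) _ (hmem b hb) _ (hmem c hc)
      (fun h => hab (σ.symm.injective h)) (fun h => hac (σ.symm.injective h))
      (fun h => hbc (σ.symm.injective h))
  have hinj' : Set.InjOn Prod.snd (P' : Set (ℝ × ℝ)) := by
    intro a ha b hb hab
    obtain ⟨a', ha', rfl⟩ := Finset.mem_image.mp (Finset.mem_coe.mp ha)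
    obtain ⟨b', hb', rfl⟩ := Finset.mem_image.mp (Finset.mem_coe.mp hb)
    rw [hε ha' hb' hab]
  rcases hn0 P' (by rw [hc']; exact hP) hgp' hinj' with ⟨F, ⟨hF1, hF2⟩, hFc⟩ | h
  · left
    set τ : (ℝ × ℝ) × (ℝ × ℝ) → (ℝ × ℝ) × (ℝ × ℝ) := fun e => (σ.symm e.1, σ.symm e.2) with hτ
    have hτinj : Function.Injective τ := by
      rintro ⟨a, b⟩ ⟨a', b'⟩ h
      simp only [hτ, Prod.mk.injEq] at h
      rw [σ.symm.injective h.1, σ.symm.injective h.2]
    refine ⟨F.image τ, ⟨?_, ?_⟩, ?_⟩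
    · intro e he
      obtain ⟨e', he', rfl⟩ := Finset.mem_image.mp he
      obtain ⟨h1, h2, h3⟩ := hF1 e' he'
      exact ⟨hmem _ h1, hmem _ h2, fun h => h3 (σ.symm.injective h)⟩
    · intro e he e' he' hne
      obtain ⟨e1, he1, rfl⟩ := Finset.mem_image.mp he
      obtain ⟨e2, he2, rfl⟩ := Finset.mem_image.mp he'
      have := hF2 e1 he1 e2 he2 (fun h => hne (by rw [h]))
      unfold CrossO at this ⊢
      simp only [hτ]
      rw [orr_shear_symm, orr_shear_symm, orr_shear_symm, orr_shear_symm]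
      exact this
    · rw [Finset.card_image_of_injective _ hτinj, ← hc']
      exact hFc
  · right
    obtain ⟨P1, P2, P3, P4, c1, c2, c3, c4, s1, s2, s3, s4, htri⟩ := h
    refine ⟨P1.image σ.symm, P2.image σ.symm, P3.image σ.symm, P4.image σ.symm, ?_, ?_, ?_, ?_,
      ?_, ?_, ?_, ?_, ?_⟩
    · rwa [Finset.card_image_of_injective _ σ.symm.injective]
    · rwa [Finset.card_image_of_injective _ σ.symm.injective]
    · rwa [Finset.card_image_of_injective _ σ.symm.injective]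
    · rwa [Finset.card_image_of_injective _ σ.symm.injective]
    · intro x hx
      obtain ⟨y, hy, rfl⟩ := Finset.mem_image.mp hx
      exact hmem _ (s1 hy)
    · intro x hx
      obtain ⟨y, hy, rfl⟩ := Finset.mem_image.mp hx
      exact hmem _ (s2 hy)
    · intro x hx
      obtain ⟨y, hy, rfl⟩ := Finset.mem_image.mp hx
      exact hmem _ (s3 hy)
    · intro x hx
      obtain ⟨y, hy, rfl⟩ := Finset.mem_image.mp hx
      exact hmem _ (s4 hy)
    · intro p1 h1 p2 h2 p3 h3 p4 h4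
      obtain ⟨q1, hq1, rfl⟩ := Finset.mem_image.mp h1
      obtain ⟨q2, hq2, rfl⟩ := Finset.mem_image.mp h2
      obtain ⟨q3, hq3, rfl⟩ := Finset.mem_image.mp h3
      obtain ⟨q4, hq4, rfl⟩ := Finset.mem_image.mp h4
      have := htri q1 hq1 q2 hq2 q3 hq3 q4 hq4
      unfold InTri at this ⊢
      rw [orr_shear_symm, orr_shear_symm, orr_shear_symm]
      exact this

end Pool.Agent.helper45
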