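import Mathlib

/-! Extending 7-colourings over a 7-clique in a graph of maximum degree 8. -/

set_option linter.unusedSectionVars false

namespace Pool.Agent.helper45.BK

open Finset

variable {V : Type*} [Fintype V] [DecidableEq V] (G : SimpleGraph V) [DecidableRel G.Adj]

/-- neighbours of `v` in `K` -/
def nb (K : Finset V) (v : V) : Finset V := K.filter (fun x => G.Adj x v)

/-- elements of `K` having a neighbour in `B` of colour `c` -/
def cov (K : Finset V) (f : V → Fin 7) (B : Finset V) (c : Fin 7) : Finset V :=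
  K.filter (fun x => ∃ v ∈ B, G.Adj x v ∧ f v = c)

/-- a 7-clique in a graph of maximum degree 8 without 8-cliques -/
structure Setup (K : Finset V) : Prop where
  card : K.card = 7
  clique : ∀ x ∈ K, ∀ y ∈ K, x ≠ y → G.Adj x y
  two : ∀ x ∈ K, (Kᶜ.filter (fun v => G.Adj x v)).card ≤ 2
  deg : ∀ v, v ∉ K → (nb G K v).card + (Kᶜ.filter (fun w => G.Adj v w)).card ≤ 8
  six : ∀ v, v ∉ K → (nb G K v).card ≤ 6
  twin : ∀ v w, v ∉ K → w ∉ K → v ≠ w → nb G K v = nb G K w → 6 ≤ (nb G K v).card → ¬ G.Adj v w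

variable {G} {K : Finset V}

lemma mem_nb {v x : V} : x ∈ nb G K v ↔ x ∈ K ∧ G.Adj x v := by simp [nb]

lemma nb_subset (v : V) : nb G K v ⊆ K := Finset.filter_subset _ _

lemma mem_cov {f : V → Fin 7} {B : Finset V} {c : Fin 7} {x : V} :
    x ∈ cov G K f B c ↔ x ∈ K ∧ ∃ v ∈ B, G.Adj x v ∧ f v = c := by simp [cov]

lemma cov_subset (f : V → Fin 7) (B : Finset V) (c : Fin 7) : cov G K f B c ⊆ K :=
  Finset.filter_subset _ _

/-- properness on a set -/
def Proper (G : SimpleGraph V) (f : V → Fin 7) (B : Finset V) : Prop :=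
  ∀ u ∈ B, ∀ v ∈ B, G.Adj u v → f u ≠ f v

lemma GH (S : Setup G K) (f : V → Fin 7) (hf : Proper G f Kᶜ)
    (h1 : ∀ c, ∃ x ∈ K, x ∉ cov G K f Kᶜ c)
    (h2 : ∀ c d, c ≠ d → (cov G K f Kᶜ c ∩ cov G K f Kᶜ d).card ≤ 5) : G.Colorable 7 := by
  classical
  let t : {x // x ∈ K} → Finset (Fin 7) := fun x =>
    Finset.univ.filter (fun c => x.1 ∉ cov G K f Kᶜ c)
  have ht : ∀ x, 5 ≤ (t x).card := by
    intro x
    have h3 : (Finset.univ.filter (fun c => ¬ (x.1 ∉ cov G K f Kᶜ c))).card ≤ 2 := by
      refine le_trans ?_ (S.two x.1 x.2)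
      refine le_trans (Finset.card_le_card ?_) (Finset.card_image_le (f := f))
      intro c hc
      simp only [Finset.mem_filter, Finset.mem_univ, true_and, not_not] at hc
      rw [mem_cov] at hc
      obtain ⟨_, v, hv, hxv, hfv⟩ := hc
      rw [Finset.mem_image]
      exact ⟨v, by simp only [Finset.mem_filter]; exact ⟨hv, hxv⟩, hfv⟩
    have h4 := Finset.card_filter_add_card_filter_not (s := (Finset.univ : Finset (Fin 7)))
      (fun c => x.1 ∉ cov G K f Kᶜ c)
    rw [Finset.card_univ, Fintype.card_fin] at h4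
    simp only [t]
    omega
  have hcardK : Fintype.card {x // x ∈ K} = 7 := by rw [Fintype.card_coe, S.card]
  have hall : ∀ s : Finset {x // x ∈ K}, s.card ≤ (s.biUnion t).card := by
    intro s
    rcases s.eq_empty_or_nonempty with rfl | ⟨x, hx⟩
    · simp
    have h5 : 5 ≤ (s.biUnion t).card :=
      (ht x).trans (Finset.card_le_card (Finset.subset_biUnion_of_mem t hx))
    have hs7 : s.card ≤ 7 := by
      rw [← hcardK]; exact Finset.card_le_univ s
    by_contra hlt
    push Not at hlt
    have hmiss : ∀ c, c ∉ s.biUnion t → ∀ y ∈ s, (y : V) ∈ cov G K f Kᶜ c := by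
      intro c hc y hy
      by_contra hny
      apply hc
      rw [Finset.mem_biUnion]
      exact ⟨y, hy, by simp only [t, Finset.mem_filter, Finset.mem_univ, true_and]; exact hny⟩
    have hcompl : ((s.biUnion t)ᶜ).card = 7 - (s.biUnion t).card := by
      rw [Finset.card_compl, Fintype.card_fin]
    rcases Nat.lt_or_ge s.card 7 with h7 | h7
    · have h6 : s.card = 6 := by omega
      have : 1 < ((s.biUnion t)ᶜ).card := by omega
      obtain ⟨c, hc, d, hd, hcd⟩ := Finset.one_lt_card.mp this
      rw [Finset.mem_compl] at hc hd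
      have h8 := h2 c d hcd
      have h9 : (s.map (Function.Embedding.subtype _)) ⊆ cov G K f Kᶜ c ∩ cov G K f Kᶜ d := by
        intro y hy
        rw [Finset.mem_map] at hy
        obtain ⟨z, hz, rfl⟩ := hy
        rw [Finset.mem_inter]
        exact ⟨hmiss c hc z hz, hmiss d hd z hz⟩
      have h10 := Finset.card_le_card h9
      rw [Finset.card_map] at h10
      omega
    · have hs : s = Finset.univ := by
        apply Finset.eq_univ_of_card
        rw [hcardK]; omega
      have : 0 < ((s.biUnion t)ᶜ).card := by omega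
      obtain ⟨c, hc⟩ := Finset.card_pos.mp this
      rw [Finset.mem_compl] at hc
      obtain ⟨y, hy, hny⟩ := h1 c
      exact hny (hmiss c hc ⟨y, hy⟩ (by rw [hs]; exact Finset.mem_univ _))
  obtain ⟨g, hg, hgt⟩ := (Finset.all_card_le_biUnion_card_iff_exists_injective t).mp hall
  refine ⟨SimpleGraph.Coloring.mk (fun v => if h : v ∈ K then g ⟨v, h⟩ else f v) ?_⟩
  have key : ∀ x (hx : x ∈ K) v, v ∉ K → G.Adj x v → g ⟨x, hx⟩ ≠ f v := by
    intro x hx v hv hxv heq
    have := hgt ⟨x, hx⟩
    simp only [t, Finset.mem_filter, Finset.mem_univ, true_and] at this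
    apply this
    rw [mem_cov]
    exact ⟨hx, v, by simpa using hv, hxv, heq.symm⟩
  intro u v huv
  by_cases hu : u ∈ K <;> by_cases hv : v ∈ K
  · simp only [hu, hv, dite_true]
    intro h
    have := hg h
    exact huv.ne (by simpa using this)
  · simp only [hu, hv, dite_true, dite_false]
    exact key u hu v hv huv
  · simp only [hu, hv, dite_true, dite_false]
    exact (key v hv u hu huv.symm).symm
  · simp only [hu, hv, dite_false]
    exact hf u (by simpa using hu) v (by simpa using hv) huv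

lemma three (S : Setup G K) {x v1 v2 v3 : V} (hx : x ∈ K) (h1 : v1 ∉ K) (h2 : v2 ∉ K)
    (h3 : v3 ∉ K) (a1 : G.Adj x v1) (a2 : G.Adj x v2) (a3 : G.Adj x v3) (h12 : v1 ≠ v2)
    (h13 : v1 ≠ v3) (h23 : v2 ≠ v3) : False := by
  have h := S.two x hx
  have h4 : ({v1, v2, v3} : Finset V) ⊆ Kᶜ.filter (fun v => G.Adj x v) := by
    intro w hw
    simp only [Finset.mem_insert, Finset.mem_singleton] at hw
    rw [Finset.mem_filter, Finset.mem_compl]
    rcases hw with rfl | rfl | rfl
    · exact ⟨h1, a1⟩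
    · exact ⟨h2, a2⟩
    · exact ⟨h3, a3⟩
  have h5 := Finset.card_le_card h4
  rw [Finset.card_eq_three.mpr ⟨v1, v2, v3, h12, h13, h23, rfl⟩] at h5
  omega

lemma sum14 (S : Setup G K) {A B C : Finset V} (hA : A ⊆ K) (hB : B ⊆ K) (hC : C ⊆ K)
    (h : ∀ x, x ∈ A → x ∈ B → x ∈ C → False) : A.card + B.card + C.card ≤ 14 := by
  have h1 := Finset.card_union_add_card_inter A B
  have h2 : (A ∪ B).card ≤ 7 := by
    rw [← S.card]; exact Finset.card_le_card (Finset.union_subset hA hB)
  have h3 : Disjoint (A ∩ B) C := by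
    rw [Finset.disjoint_left]
    intro x hx hc
    rw [Finset.mem_inter] at hx
    exact h x hx.1 hx.2 hc
  have h4 : ((A ∩ B) ∪ C).card ≤ 7 := by
    rw [← S.card]
    exact Finset.card_le_card (Finset.union_subset (Finset.inter_subset_left.trans hA) hC)
  rw [Finset.card_union_of_disjoint h3] at h4
  omega

end Pool.Agent.helper45.BK
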