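import Mathlib
import Pool.Agent.helper45.BK1

/-! Placing a vertex with many neighbours in the clique. -/

set_option linter.unusedSectionVars false

namespace Pool.Agent.helper45.BK

open Finset

variable {V : Type*} [Fintype V] [DecidableEq V] {G : SimpleGraph V} [DecidableRel G.Adj]
  {K : Finset V}

lemma cov_mono {f : V → Fin 7} {B B' : Finset V} (h : B ⊆ B') (c : Fin 7) :
    cov G K f B c ⊆ cov G K f B' c := by
  intro x hx
  rw [mem_cov] at hx ⊢
  obtain ⟨h1, v, h2, h3⟩ := hx
  exact ⟨h1, v, h h2, h3⟩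

/-- three large covers are impossible -/
lemma three_cov (S : Setup G K) {f : V → Fin 7} {b : V} (hb : b ∉ K) {c d : Fin 7} (hcd : c ≠ d)
    (h1 : 6 ≤ (cov G K f (Kᶜ \ {b}) c).card) (h2 : 6 ≤ (cov G K f (Kᶜ \ {b}) d).card)
    (h3 : 4 ≤ (nb G K b).card) : False := by
  have := sum14 S (cov_subset (G := G) (K := K) f (Kᶜ \ {b}) c)
    (cov_subset (G := G) (K := K) f (Kᶜ \ {b}) d) (nb_subset (G := G) (K := K) b) (by
      intro x hx1 hx2 hx3
      rw [mem_cov] at hx1 hx2
      rw [mem_nb] at hx3
      obtain ⟨hx, v, hv, hxv, hfv⟩ := hx1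
      obtain ⟨_, w, hw, hxw, hfw⟩ := hx2
      rw [Finset.mem_sdiff, Finset.mem_compl, Finset.mem_singleton] at hv hw
      refine three S hx hv.1 hw.1 hb hxv hxw hx3.2 ?_ hv.2 hw.2
      rintro rfl
      exact hcd (hfv.symm.trans hfw))
  omega

lemma BL (S : Setup G K) {f : V → Fin 7} {b : V} (hb : b ∉ K) (h4 : 4 ≤ (nb G K b).card)
    (hf : Proper G f (Kᶜ \ {b})) {x : V} (hx : x ∈ K) (hxb : x ∉ nb G K b)
    (hd : ∀ d, ¬ (K \ {x} ⊆ cov G K f (Kᶜ \ {b}) d)) : G.Colorable 7 := by
  classical
  have hxb' : ¬ G.Adj x b := fun h => hxb (mem_nb.mpr ⟨hx, h⟩)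
  -- choose a colour for `b` which is also free at `x`
  obtain ⟨c, hc⟩ : ∃ c : Fin 7, c ∉ (Kᶜ.filter (fun w => G.Adj b w)).image f ∪
      (Kᶜ.filter (fun w => G.Adj x w)).image f := by
    by_contra hcon
    push Not at hcon
    have h1 : (Finset.univ : Finset (Fin 7)) ⊆ (Kᶜ.filter (fun w => G.Adj b w)).image f ∪
      (Kᶜ.filter (fun w => G.Adj x w)).image f := fun c _ => hcon c
    have h2 := Finset.card_le_card h1
    rw [Finset.card_univ, Fintype.card_fin] at h2
    have h3 := Finset.card_union_le ((Kᶜ.filter (fun w => G.Adj b w)).image f)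
      ((Kᶜ.filter (fun w => G.Adj x w)).image f)
    have h5 := Finset.card_image_le (s := Kᶜ.filter (fun w => G.Adj b w)) (f := f)
    have h6 := Finset.card_image_le (s := Kᶜ.filter (fun w => G.Adj x w)) (f := f)
    have h7 := S.deg b hb
    have h8 := S.two x hx
    omega
  have hcb : ∀ w, w ∉ K → G.Adj b w → f w ≠ c := by
    intro w hw hbw hfw
    apply hc
    rw [Finset.mem_union, Finset.mem_image]
    left
    exact ⟨w, by simp only [Finset.mem_filter, Finset.mem_compl]; exact ⟨hw, hbw⟩, hfw⟩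
  have hcx : ∀ w, w ∉ K → G.Adj x w → f w ≠ c := by
    intro w hw hbw hfw
    apply hc
    rw [Finset.mem_union, Finset.mem_image, Finset.mem_image]
    right
    exact ⟨w, by simp only [Finset.mem_filter, Finset.mem_compl]; exact ⟨hw, hbw⟩, hfw⟩
  let f' : V → Fin 7 := Function.update f b c
  have hf'b : f' b = c := Function.update_self _ _ _
  have hf' : ∀ w, w ≠ b → f' w = f w := fun w hw => Function.update_of_ne hw _ _
  have hprop : Proper G f' Kᶜ := by
    intro u hu v hv huv
    rw [Finset.mem_compl] at hu hv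
    by_cases h1 : u = b
    · subst h1
      rw [hf'b, hf' v huv.ne']
      exact (hcb v hv huv).symm
    · by_cases h2 : v = b
      · subst h2
        rw [hf'b, hf' u h1]
        exact hcb u hu huv.symm
      · rw [hf' u h1, hf' v h2]
        exact hf u (by simp [hu, h1]) v (by simp [hv, h2]) huv
  have hxc : x ∉ cov G K f' Kᶜ c := by
    rw [mem_cov]
    rintro ⟨_, v, hv, hxv, hfv⟩
    rw [Finset.mem_compl] at hv
    have hvb : v ≠ b := fun h => hxb' (h ▸ hxv)
    rw [hf' v hvb] at hfv
    exact hcx v hv hxv hfv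
  have hcovd : ∀ d, d ≠ c → cov G K f' Kᶜ d ⊆ cov G K f (Kᶜ \ {b}) d := by
    intro d hdc y hy
    rw [mem_cov] at hy ⊢
    obtain ⟨h1, v, hv, hyv, hfv⟩ := hy
    have hvb : v ≠ b := by
      rintro rfl
      rw [hf'b] at hfv
      exact hdc hfv.symm
    rw [hf' v hvb] at hfv
    exact ⟨h1, v, by simp only [Finset.mem_sdiff, Finset.mem_singleton]; exact ⟨hv, hvb⟩, hyv, hfv⟩
  apply GH S f' hprop
  · intro d
    by_cases hdc : d = c
    · subst hdc; exact ⟨x, hx, hxc⟩
    · by_contra hcon
      push Not at hcon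
      apply hd d
      intro y hy
      exact hcovd d hdc (hcon y (Finset.mem_sdiff.mp hy).1)
  · intro d e hde
    by_contra hcon
    push Not at hcon
    -- auxiliary: a large intersection with colour `c`
    have aux : ∀ e, e ≠ c → 5 < (cov G K f' Kᶜ c ∩ cov G K f' Kᶜ e).card → False := by
      intro e hec hlt
      have h1 : cov G K f' Kᶜ c ∩ cov G K f' Kᶜ e ⊆ K \ {x} := by
        intro y hy
        rw [Finset.mem_inter] at hy
        rw [Finset.mem_sdiff, Finset.mem_singleton]
        exact ⟨cov_subset _ _ _ hy.1, fun h => hxc (h ▸ hy.1)⟩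
      have h2 : (K \ {x}).card = 6 := by
        rw [Finset.card_sdiff_of_subset (by simpa using hx), S.card]; simp
      have h3 : cov G K f' Kᶜ c ∩ cov G K f' Kᶜ e = K \ {x} :=
        Finset.eq_of_subset_of_card_le h1 (by omega)
      apply hd e
      rw [← h3]
      exact Finset.inter_subset_right.trans (hcovd e hec)
    by_cases hdc : d = c
    · subst hdc
      exact aux e (Ne.symm hde) hcon
    · by_cases hec : e = c
      · subst hec
        rw [Finset.inter_comm] at hcon
        exact aux d hdc hcon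
      · refine three_cov S hb hde (f := f) ?_ ?_ h4
        · exact (Nat.succ_le_of_lt hcon).trans ((Finset.card_le_card Finset.inter_subset_left).trans
            (Finset.card_le_card (hcovd d hdc)))
        · exact (Nat.succ_le_of_lt hcon).trans ((Finset.card_le_card Finset.inter_subset_right).trans
            (Finset.card_le_card (hcovd e hec)))

lemma TL (S : Setup G K) {f : V → Fin 7} {b b' : V} (hb : b ∉ K) (hb' : b' ∉ K) (hne : b ≠ b')
    (heq : nb G K b = nb G K b') (h6 : 6 ≤ (nb G K b).card)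
    (hf : Proper G f (Kᶜ \ {b, b'})) : G.Colorable 7 := by
  classical
  have hadj : ¬ G.Adj b b' := S.twin b b' hb hb' hne heq h6
  have hcard : (nb G K b).card = 6 := le_antisymm (S.six b hb) h6
  have hcard' : (nb G K b').card = 6 := by rw [← heq]; exact hcard
  obtain ⟨x0, hx0, hx0b⟩ : ∃ x ∈ K, x ∉ nb G K b := by
    by_contra hcon
    push Not at hcon
    have := Finset.card_le_card (show K ⊆ nb G K b from hcon)
    rw [S.card] at this
    omega
  have hnb : ∀ x ∈ K, x ≠ x0 → x ∈ nb G K b := by
    intro x hx hne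
    by_contra hcon
    have h1 : nb G K b ⊆ K \ {x0, x} := by
      intro y hy
      simp only [Finset.mem_sdiff, Finset.mem_insert, Finset.mem_singleton, not_or]
      exact ⟨nb_subset _ hy, fun h => hx0b (h ▸ hy), fun h => hcon (h ▸ hy)⟩
    have h2 := Finset.card_le_card h1
    rw [Finset.card_sdiff_of_subset (by
      intro y hy
      simp only [Finset.mem_insert, Finset.mem_singleton] at hy
      rcases hy with rfl | rfl
      · exact hx0
      · exact hx), S.card, Finset.card_pair (Ne.symm hne)] at h2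
    omega
  obtain ⟨u, hu⟩ : ∃ u : Fin 7, u ∉ ((Kᶜ.filter (fun w => G.Adj b w)).image f ∪
      (Kᶜ.filter (fun w => G.Adj b' w)).image f) ∪ (Kᶜ.filter (fun w => G.Adj x0 w)).image f := by
    by_contra hcon
    push Not at hcon
    have h2 := Finset.card_le_card (show (Finset.univ : Finset (Fin 7)) ⊆ _ from fun c _ => hcon c)
    rw [Finset.card_univ, Fintype.card_fin] at h2
    have h3 := Finset.card_union_le ((Kᶜ.filter (fun w => G.Adj b w)).image f ∪
      (Kᶜ.filter (fun w => G.Adj b' w)).image f) ((Kᶜ.filter (fun w => G.Adj x0 w)).image f)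
    have h3' := Finset.card_union_le ((Kᶜ.filter (fun w => G.Adj b w)).image f)
      ((Kᶜ.filter (fun w => G.Adj b' w)).image f)
    have h5 := Finset.card_image_le (s := Kᶜ.filter (fun w => G.Adj b w)) (f := f)
    have h5' := Finset.card_image_le (s := Kᶜ.filter (fun w => G.Adj b' w)) (f := f)
    have h6 := Finset.card_image_le (s := Kᶜ.filter (fun w => G.Adj x0 w)) (f := f)
    have h7 := S.deg b hb
    have h7' := S.deg b' hb'
    have h8 := S.two x0 hx0
    omega
  simp only [Finset.mem_union, Finset.mem_image, Finset.mem_filter, Finset.mem_compl, not_or,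
    not_exists, not_and] at hu
  obtain ⟨⟨hu1, hu2⟩, hu3⟩ := hu
  let f' : V → Fin 7 := Function.update (Function.update f b u) b' u
  have hf'b' : f' b' = u := Function.update_self _ _ _
  have hf'b : f' b = u := by
    simp only [f']
    rw [Function.update_of_ne hne, Function.update_self]
  have hf' : ∀ w, w ≠ b → w ≠ b' → f' w = f w := by
    intro w h1 h2
    simp only [f']
    rw [Function.update_of_ne h2, Function.update_of_ne h1]
  have hprop : Proper G f' Kᶜ := by
    have key : ∀ w, w ∉ K → w ≠ b → w ≠ b' → (G.Adj b w ∨ G.Adj b' w) → f w ≠ u := by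
      intro w hw _ _ h
      rcases h with h | h
      · exact fun h' => hu1 w ⟨hw, h⟩ h'
      · exact fun h' => hu2 w ⟨hw, h⟩ h'
    intro v hv w hw hvw
    rw [Finset.mem_compl] at hv hw
    by_cases h1 : v = b
    · subst h1
      have h2 : w ≠ b' := fun h => hadj (h ▸ hvw)
      rw [hf'b, hf' w hvw.ne' h2]
      exact (key w hw hvw.ne' h2 (Or.inl hvw)).symm
    by_cases h2 : v = b'
    · subst h2
      have h3 : w ≠ b := fun h => hadj (h ▸ hvw.symm)
      rw [hf'b', hf' w h3 hvw.ne']
      exact (key w hw h3 hvw.ne' (Or.inr hvw)).symm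
    by_cases h3 : w = b
    · subst h3
      rw [hf'b, hf' v h1 h2]
      exact key v hv h1 h2 (Or.inl hvw.symm)
    by_cases h4 : w = b'
    · subst h4
      rw [hf'b', hf' v h1 h2]
      exact key v hv h1 h2 (Or.inr hvw.symm)
    rw [hf' v h1 h2, hf' w h3 h4]
    exact hf v (by simp [hv, h1, h2]) w (by simp [hw, h3, h4]) hvw
  have hx0u : x0 ∉ cov G K f' Kᶜ u := by
    rw [mem_cov]
    rintro ⟨_, v, hv, hxv, hfv⟩
    rw [Finset.mem_compl] at hv
    have h1 : v ≠ b := fun h => hx0b (mem_nb.mpr ⟨hx0, h ▸ hxv⟩)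
    have h2 : v ≠ b' := fun h => hx0b (heq ▸ mem_nb.mpr ⟨hx0, h ▸ hxv⟩)
    rw [hf' v h1 h2] at hfv
    exact hu3 v ⟨hv, hxv⟩ hfv
  have hother : ∀ d, d ≠ u → cov G K f' Kᶜ d ⊆ {x0} := by
    intro d hd y hy
    rw [mem_cov] at hy
    obtain ⟨hyK, v, hv, hyv, hfv⟩ := hy
    rw [Finset.mem_compl] at hv
    rw [Finset.mem_singleton]
    by_contra hne'
    have h1 := hnb y hyK hne'
    have h2 := heq ▸ h1
    rw [mem_nb] at h1 h2
    refine three S hyK hb hb' hv h1.2 h2.2 hyv hne ?_ ?_
    · rintro rfl; rw [hf'b] at hfv; exact hd hfv.symm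
    · rintro rfl; rw [hf'b'] at hfv; exact hd hfv.symm
  apply GH S f' hprop
  · intro d
    by_cases hd : d = u
    · subst hd; exact ⟨x0, hx0, hx0u⟩
    · obtain ⟨y, hy⟩ : ∃ y, y ∈ nb G K b := Finset.card_pos.mp (by omega)
      refine ⟨y, nb_subset _ hy, fun h => ?_⟩
      have := hother d hd h
      rw [Finset.mem_singleton] at this
      exact hx0b (this ▸ hy)
  · intro d e hde
    by_cases hd : d = u
    · have he : e ≠ u := fun h => hde (hd.trans h.symm)
      have := Finset.card_le_card (Finset.inter_subset_right.trans (hother e he) :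
        cov G K f' Kᶜ d ∩ cov G K f' Kᶜ e ⊆ {x0})
      rw [Finset.card_singleton] at this
      omega
    · have := Finset.card_le_card (Finset.inter_subset_left.trans (hother d hd) :
        cov G K f' Kᶜ d ∩ cov G K f' Kᶜ e ⊆ {x0})
      rw [Finset.card_singleton] at this
      omega

end Pool.Agent.helper45.BK
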