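import Mathlib
import Pool.Agent.helper45.BK2

/-! Colourings whose classes outside the clique have at most two vertices. -/

set_option linter.unusedSectionVars false

namespace Pool.Agent.helper45.BK

open Finset

variable {V : Type*} [Fintype V] [DecidableEq V] {G : SimpleGraph V} [DecidableRel G.Adj]
  {K : Finset V}

/-- a vertex outside `K` has a free colour outside a small set of excluded colours -/
lemma exists_free (S : Setup G K) (f : V → Fin 7) {p : V} (hp : p ∉ K) (Ex : Finset (Fin 7))
    (h : Ex.card + 2 ≤ (nb G K p).card) :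
    ∃ u, u ∉ Ex ∧ ∀ w, w ∉ K → G.Adj p w → f w ≠ u := by
  classical
  obtain ⟨u, hu⟩ : ∃ u : Fin 7, u ∉ Ex ∪ (Kᶜ.filter (fun w => G.Adj p w)).image f := by
    by_contra hcon
    push Not at hcon
    have h2 := Finset.card_le_card (show (Finset.univ : Finset (Fin 7)) ⊆ _ from fun c _ => hcon c)
    rw [Finset.card_univ, Fintype.card_fin] at h2
    have h3 := Finset.card_union_le Ex ((Kᶜ.filter (fun w => G.Adj p w)).image f)
    have h5 := Finset.card_image_le (s := Kᶜ.filter (fun w => G.Adj p w)) (f := f)
    have h7 := S.deg p hp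
    omega
  rw [Finset.mem_union, not_or] at hu
  refine ⟨u, hu.1, ?_⟩
  intro w hw hpw hfw
  apply hu.2
  rw [Finset.mem_image]
  exact ⟨w, by simp only [Finset.mem_filter, Finset.mem_compl]; exact ⟨hw, hpw⟩, hfw⟩

lemma proper_update {f : V → Fin 7} {B : Finset V} (hf : Proper G f B) {p : V} {u : Fin 7}
    (hu : ∀ w ∈ B, G.Adj p w → f w ≠ u) : Proper G (Function.update f p u) B := by
  intro v hv w hw hvw
  by_cases h1 : v = p
  · subst h1
    rw [Function.update_self, Function.update_of_ne hvw.ne']
    exact (hu w hw hvw).symm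
  · by_cases h2 : w = p
    · subst h2
      rw [Function.update_self, Function.update_of_ne h1]
      exact hu v hv hvw.symm
    · rw [Function.update_of_ne h1, Function.update_of_ne h2]
      exact hf v hv w hw hvw

theorem caseI (S : Setup G K) {f : V → Fin 7} (hf : Proper G f Kᶜ)
    (hcl : ∀ c, (Kᶜ.filter (fun v => f v = c)).card ≤ 2) {b : V} (hb : b ∉ K)
    (h4 : 4 ≤ (nb G K b).card) (hmax : ∀ v, v ∉ K → (nb G K v).card ≤ (nb G K b).card) :
    G.Colorable 7 := by
  classical
  by_contra hnc
  have hfb : Proper G f (Kᶜ \ {b}) := fun u hu v hv huv =>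
    hf u (Finset.mem_sdiff.mp hu).1 v (Finset.mem_sdiff.mp hv).1 huv
  have hBL : ∀ f' : V → Fin 7, Proper G f' (Kᶜ \ {b}) → ∀ x ∈ K, x ∉ nb G K b →
      ∃ d, K \ {x} ⊆ cov G K f' (Kᶜ \ {b}) d := by
    intro f' hf' x hx hxb
    by_contra hcon
    push Not at hcon
    exact hnc (BL S hb h4 hf' hx hxb hcon)
  have hTL : ∀ p, p ∉ K → p ≠ b → nb G K b = nb G K p → (nb G K b).card < 6 := by
    intro p hp hpb heq
    by_contra h6
    push Not at h6
    exact hnc (TL S hb hp hpb.symm heq h6 (fun u hu v hv huv =>
      hf u (Finset.mem_sdiff.mp hu).1 v (Finset.mem_sdiff.mp hv).1 huv))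
  have hb6 := S.six b hb
  obtain ⟨x1, hx1, hx1b⟩ : ∃ x ∈ K, x ∉ nb G K b := by
    by_contra hcon
    push Not at hcon
    have := Finset.card_le_card (show K ⊆ nb G K b from hcon)
    rw [S.card] at this
    omega
  have hK6 : (K \ {x1}).card = 6 := by
    rw [Finset.card_sdiff_of_subset (by simpa using hx1), S.card]; simp
  have hbK : nb G K b ⊆ K \ {x1} := by
    intro y hy
    rw [Finset.mem_sdiff, Finset.mem_singleton]
    exact ⟨nb_subset _ hy, fun h => hx1b (h ▸ hy)⟩
  obtain ⟨d, hd⟩ := hBL f hfb x1 hx1 hx1b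
  set D := (Kᶜ \ {b}).filter (fun v => f v = d) with hD
  have hDmem : ∀ v, v ∈ D ↔ v ∉ K ∧ v ≠ b ∧ f v = d := by
    intro v
    rw [hD, Finset.mem_filter, Finset.mem_sdiff, Finset.mem_compl, Finset.mem_singleton, and_assoc]
  have hDcard : D.card ≤ 2 := by
    refine (Finset.card_le_card ?_).trans (hcl d)
    intro v hv
    rw [hDmem] at hv
    rw [Finset.mem_filter, Finset.mem_compl]
    exact ⟨hv.1, hv.2.2⟩
  have hdD : ∀ y ∈ K \ {x1}, ∃ v ∈ D, G.Adj y v := by
    intro y hy
    have := hd hy
    rw [mem_cov] at this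
    obtain ⟨_, v, hv, hyv, hfv⟩ := this
    refine ⟨v, ?_, hyv⟩
    rw [Finset.mem_sdiff, Finset.mem_compl, Finset.mem_singleton] at hv
    rw [hDmem]
    exact ⟨hv.1, hv.2, hfv⟩
  have hDne : D.Nonempty := by
    obtain ⟨y, hy⟩ : (K \ {x1}).Nonempty := Finset.card_pos.mp (by omega)
    obtain ⟨v, hv, _⟩ := hdD y hy
    exact ⟨v, hv⟩
  obtain ⟨p, hpD, hpmax⟩ := Finset.exists_max_image D (fun v => (nb G K v).card) hDne
  obtain ⟨hp, hpb, hfp⟩ := (hDmem p).mp hpD
  rcases (D.erase p).eq_empty_or_nonempty with hemp | ⟨q, hq⟩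
  · -- only one vertex: a twin of `b`
    have hcov : K \ {x1} ⊆ nb G K p := by
      intro y hy
      obtain ⟨v, hv, hyv⟩ := hdD y hy
      have : v = p := by
        by_contra hne
        have : v ∈ D.erase p := Finset.mem_erase.mpr ⟨hne, hv⟩
        rw [hemp] at this
        simp at this
      subst this
      exact mem_nb.mpr ⟨(Finset.mem_sdiff.mp hy).1, hyv⟩
    have h1 := Finset.card_le_card hcov
    have h2 := hmax p hp
    have h3 := S.six p hp
    have h5 : nb G K b = K \ {x1} := Finset.eq_of_subset_of_card_le hbK (by omega)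
    have h6 : K \ {x1} = nb G K p := Finset.eq_of_subset_of_card_le hcov (by omega)
    have := hTL p hp hpb (h5.trans h6)
    omega
  · have hqD := Finset.mem_of_mem_erase hq
    have hqp : q ≠ p := Finset.ne_of_mem_erase hq
    obtain ⟨hqK, hqb, hfq⟩ := (hDmem q).mp hqD
    have hDpq : ∀ v ∈ D, v = p ∨ v = q := by
      intro v hv
      by_contra hcon
      push Not at hcon
      have : ({p, q, v} : Finset V) ⊆ D := by
        intro w hw
        simp only [Finset.mem_insert, Finset.mem_singleton] at hw
        rcases hw with rfl | rfl | rfl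
        · exact hpD
        · exact hqD
        · exact hv
      have h1 := Finset.card_le_card this
      rw [Finset.card_eq_three.mpr ⟨p, q, v, hqp.symm, hcon.1.symm, hcon.2.symm, rfl⟩] at h1
      omega
    have hcov : K \ {x1} ⊆ nb G K p ∪ nb G K q := by
      intro y hy
      obtain ⟨v, hv, hyv⟩ := hdD y hy
      have hyK := (Finset.mem_sdiff.mp hy).1
      rw [Finset.mem_union]
      rcases hDpq v hv with rfl | rfl
      · exact Or.inl (mem_nb.mpr ⟨hyK, hyv⟩)
      · exact Or.inr (mem_nb.mpr ⟨hyK, hyv⟩)
    have hpq6 : 6 ≤ (nb G K p).card + (nb G K q).card := by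
      have h1 := Finset.card_le_card hcov
      have h2 := Finset.card_union_le (nb G K p) (nb G K q)
      omega
    have hqlep : (nb G K q).card ≤ (nb G K p).card := hpmax q hqD
    have hpb' := hmax p hp
    have hsum := sum14 S (nb_subset (G := G) (K := K) b) (nb_subset (G := G) (K := K) p)
      (nb_subset (G := G) (K := K) q) (by
        intro x h1 h2 h3
        rw [mem_nb] at h1 h2 h3
        exact three S h1.1 hb hp hqK h1.2 h2.2 h3.2 hpb.symm hqb.symm hqp.symm)
    have hq5 : (nb G K q).card ≤ 5 := by omega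
    -- moving `p` to a free colour
    have claimA : ∀ u, u ≠ d → (∀ w, w ∉ K → G.Adj p w → f w ≠ u) →
        K \ {x1} ⊆ cov G K f (Kᶜ \ {b}) u ∪ nb G K p := by
      intro u hud hu
      have hprop : Proper G (Function.update f p u) (Kᶜ \ {b}) :=
        proper_update hfb (fun w hw hpw => hu w (by
          simpa using (Finset.mem_sdiff.mp hw).1) hpw)
      obtain ⟨v, hv⟩ := hBL _ hprop x1 hx1 hx1b
      by_cases hvd : v = d
      · exfalso
        subst hvd
        have h1 : K \ {x1} ⊆ nb G K q := by
          intro y hy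
          have := hv hy
          rw [mem_cov] at this
          obtain ⟨hyK, w, hw, hyw, hfw⟩ := this
          rw [Finset.mem_sdiff, Finset.mem_compl, Finset.mem_singleton] at hw
          have hwp : w ≠ p := by
            rintro rfl
            rw [Function.update_self] at hfw
            exact hud hfw
          rw [Function.update_of_ne hwp] at hfw
          rcases hDpq w ((hDmem w).mpr ⟨hw.1, hw.2, hfw⟩) with h | h
          · exact absurd h hwp
          · subst h; exact mem_nb.mpr ⟨hyK, hyw⟩
        have := Finset.card_le_card h1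
        omega
      · by_cases hvu : v = u
        · subst hvu
          intro y hy
          have := hv hy
          rw [mem_cov] at this
          obtain ⟨hyK, w, hw, hyw, hfw⟩ := this
          rw [Finset.mem_union]
          by_cases hwp : w = p
          · subst hwp; exact Or.inr (mem_nb.mpr ⟨hyK, hyw⟩)
          · rw [Function.update_of_ne hwp] at hfw
            exact Or.inl (mem_cov.mpr ⟨hyK, w, hw, hyw, hfw⟩)
        · exfalso
          have h1 : K \ {x1} ⊆ cov G K f (Kᶜ \ {b}) v := by
            intro y hy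
            have := hv hy
            rw [mem_cov] at this
            obtain ⟨hyK, w, hw, hyw, hfw⟩ := this
            have hwp : w ≠ p := by
              rintro rfl
              rw [Function.update_self] at hfw
              exact hvu hfw.symm
            rw [Function.update_of_ne hwp] at hfw
            exact mem_cov.mpr ⟨hyK, w, hw, hyw, hfw⟩
          have h2 := Finset.card_le_card h1
          have h3 := Finset.card_le_card hd
          exact three_cov S hb hvd (f := f) (by omega) (by omega) h4
    obtain ⟨u, hud, hu⟩ := exists_free S f hp {d} (by rw [Finset.card_singleton]; omega)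
    rw [Finset.mem_singleton] at hud
    have hA := claimA u hud hu
    have hsub : nb G K b ⊆ nb G K p := by
      intro y hy
      by_contra hyp
      have hy1 := hbK hy
      have hyK := (Finset.mem_sdiff.mp hy1).1
      have hyq : y ∈ nb G K q := by
        rcases Finset.mem_union.mp (hcov hy1) with h | h
        · exact absurd h hyp
        · exact h
      rcases Finset.mem_union.mp (hA hy1) with h | h
      · rw [mem_cov] at h
        obtain ⟨_, w, hw, hyw, hfw⟩ := h
        rw [Finset.mem_sdiff, Finset.mem_compl, Finset.mem_singleton] at hw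
        refine three S hyK hb hqK hw.1 (mem_nb.mp hy).2 (mem_nb.mp hyq).2 hyw hqb.symm
          (Ne.symm hw.2) ?_
        rintro rfl
        exact hud (hfw.symm.trans hfq)
      · exact hyp h
    have heq : nb G K b = nb G K p := Finset.eq_of_subset_of_card_le hsub hpb'
    have hlt := hTL p hp hpb heq
    rw [heq] at hlt h4
    obtain ⟨u2, hu2d, hu2⟩ := exists_free S f hp {d, u} (by
      rw [Finset.card_pair (Ne.symm hud)]; omega)
    simp only [Finset.mem_insert, Finset.mem_singleton, not_or] at hu2d
    have hA2 := claimA u2 hu2d.1 hu2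
    obtain ⟨y, hy, hyp⟩ : ∃ y ∈ K \ {x1}, y ∉ nb G K p := by
      by_contra hcon
      push Not at hcon
      have := Finset.card_le_card (show K \ {x1} ⊆ nb G K p from hcon)
      omega
    have hyK := (Finset.mem_sdiff.mp hy).1
    have hyq : y ∈ nb G K q := by
      rcases Finset.mem_union.mp (hcov hy) with h | h
      · exact absurd h hyp
      · exact h
    have g1 : y ∈ cov G K f (Kᶜ \ {b}) u := by
      rcases Finset.mem_union.mp (hA hy) with h | h
      · exact h
      · exact absurd h hyp
    have g2 : y ∈ cov G K f (Kᶜ \ {b}) u2 := by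
      rcases Finset.mem_union.mp (hA2 hy) with h | h
      · exact h
      · exact absurd h hyp
    rw [mem_cov] at g1 g2
    obtain ⟨_, w, hw, hyw, hfw⟩ := g1
    obtain ⟨_, w2, hw2, hyw2, hfw2⟩ := g2
    rw [Finset.mem_sdiff, Finset.mem_compl] at hw hw2
    refine three S hyK hqK hw.1 hw2.1 (mem_nb.mp hyq).2 hyw hyw2 ?_ ?_ ?_
    · rintro rfl; exact hud (hfw.symm.trans hfq)
    · rintro rfl; exact hu2d.1 (hfw2.symm.trans hfq)
    · rintro rfl; exact hu2d.2 (hfw2.symm.trans hfw)

theorem caseII (S : Setup G K) {f : V → Fin 7} (hf : Proper G f Kᶜ)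
    (hcl : ∀ c, (Kᶜ.filter (fun v => f v = c)).card ≤ 2)
    (h3 : ∀ v, v ∉ K → (nb G K v).card ≤ 3) : G.Colorable 7 := by
  classical
  by_contra hnc
  have hGH : ∀ f' : V → Fin 7, Proper G f' Kᶜ → (∀ c, (cov G K f' Kᶜ c).card ≤ 6) →
      (∀ c d, c ≠ d → (cov G K f' Kᶜ c).card ≤ 5 ∨ (cov G K f' Kᶜ d).card ≤ 5) → False := by
    intro f' hf' h1 h2
    apply hnc
    apply GH S f' hf'
    · intro c
      by_contra hcon
      push Not at hcon
      have := Finset.card_le_card (show K ⊆ cov G K f' Kᶜ c from hcon)
      rw [S.card] at this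
      have := h1 c
      omega
    · intro c d hcd
      rcases h2 c d hcd with h | h
      · exact (Finset.card_le_card Finset.inter_subset_left).trans h
      · exact (Finset.card_le_card Finset.inter_subset_right).trans h
  -- structure of a class with a large cover
  have hpair : ∀ c, 6 ≤ (cov G K f Kᶜ c).card → ∃ p q, p ≠ q ∧ p ∉ K ∧ q ∉ K ∧ f p = c ∧ f q = c ∧
      (∀ v, v ∉ K → f v = c → v = p ∨ v = q) ∧ cov G K f Kᶜ c = nb G K p ∪ nb G K q ∧
      (nb G K p).card = 3 ∧ (nb G K q).card = 3 ∧ (cov G K f Kᶜ c).card = 6 := by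
    intro c hc
    have hbi : cov G K f Kᶜ c = (Kᶜ.filter (fun v => f v = c)).biUnion (fun v => nb G K v) := by
      ext x
      rw [mem_cov, Finset.mem_biUnion]
      constructor
      · rintro ⟨hx, v, hv, hxv, hfv⟩
        exact ⟨v, Finset.mem_filter.mpr ⟨hv, hfv⟩, mem_nb.mpr ⟨hx, hxv⟩⟩
      · rintro ⟨v, hv, hxv⟩
        rw [Finset.mem_filter] at hv
        rw [mem_nb] at hxv
        exact ⟨hxv.1, v, hv.1, hxv.2, hv.2⟩
    have hle : (cov G K f Kᶜ c).card ≤ (Kᶜ.filter (fun v => f v = c)).card * 3 := by
      rw [hbi]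
      apply Finset.card_biUnion_le_card_mul
      intro v hv
      rw [Finset.mem_filter, Finset.mem_compl] at hv
      exact h3 v hv.1
    have h2 := hcl c
    have hcard : (Kᶜ.filter (fun v => f v = c)).card = 2 := by omega
    obtain ⟨p, q, hpq, hset⟩ := Finset.card_eq_two.mp hcard
    have hp : p ∈ Kᶜ.filter (fun v => f v = c) := by rw [hset]; simp
    have hq : q ∈ Kᶜ.filter (fun v => f v = c) := by rw [hset]; simp
    rw [Finset.mem_filter, Finset.mem_compl] at hp hq
    have hcov : cov G K f Kᶜ c = nb G K p ∪ nb G K q := by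
      rw [hbi, hset, Finset.biUnion_insert, Finset.singleton_biUnion]
    have h5 := Finset.card_union_le (nb G K p) (nb G K q)
    have h6 := h3 p hp.1
    have h7 := h3 q hq.1
    rw [hcov] at hc
    refine ⟨p, q, hpq, hp.1, hq.1, hp.2, hq.2, ?_, hcov, by omega, by omega, by
      rw [hcov]; omega⟩
    intro v hv hfv
    have : v ∈ Kᶜ.filter (fun v => f v = c) := by
      rw [Finset.mem_filter, Finset.mem_compl]; exact ⟨hv, hfv⟩
    rw [hset] at this
    simpa using this
  have hle6 : ∀ c, (cov G K f Kᶜ c).card ≤ 6 := by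
    intro c
    by_contra hcon
    push Not at hcon
    obtain ⟨p, q, _, _, _, _, _, _, _, _, _, h⟩ := hpair c (by omega)
    omega
  -- two classes with large intersection
  obtain ⟨c, d, hcd, hcdcard⟩ : ∃ c d, c ≠ d ∧ 6 ≤ (cov G K f Kᶜ c ∩ cov G K f Kᶜ d).card := by
    by_contra hcon
    push Not at hcon
    apply hnc
    apply GH S f hf
    · intro c
      by_contra hcon2
      push Not at hcon2
      have := Finset.card_le_card (show K ⊆ cov G K f Kᶜ c from hcon2)
      rw [S.card] at this
      have := hle6 c
      omega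
    · intro c d hcd
      have := hcon c d hcd
      omega
  obtain ⟨p, q, hpq, hp, hq, hfp, hfq, hpqc, hcovc, hp3, hq3, hc6⟩ := hpair c
    (hcdcard.trans (Finset.card_le_card Finset.inter_subset_left))
  obtain ⟨p', q', hpq', hp', hq', hfp', hfq', hpqd, hcovd, hp3', hq3', hd6⟩ := hpair d
    (hcdcard.trans (Finset.card_le_card Finset.inter_subset_right))
  have hS : cov G K f Kᶜ c = cov G K f Kᶜ d := by
    have h1 : cov G K f Kᶜ c ∩ cov G K f Kᶜ d = cov G K f Kᶜ c :=
      Finset.eq_of_subset_of_card_le Finset.inter_subset_left (by omega)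
    have h2 : cov G K f Kᶜ c ∩ cov G K f Kᶜ d = cov G K f Kᶜ d :=
      Finset.eq_of_subset_of_card_le Finset.inter_subset_right (by omega)
    exact h1.symm.trans h2
  have hKS : (K \ cov G K f Kᶜ c).card = 1 := by
    rw [Finset.card_sdiff_of_subset (cov_subset _ _ _), S.card]; omega
  have hother : ∀ e, e ≠ c → e ≠ d → cov G K f Kᶜ e ⊆ K \ cov G K f Kᶜ c := by
    intro e hec hed x hx
    rw [Finset.mem_sdiff]
    refine ⟨cov_subset _ _ _ hx, fun hxc => ?_⟩
    have hxd := hS ▸ hxc
    rw [mem_cov] at hx hxc hxd
    obtain ⟨hxK, v, hv, hxv, hfv⟩ := hx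
    obtain ⟨_, v1, hv1, hxv1, hfv1⟩ := hxc
    obtain ⟨_, v2, hv2, hxv2, hfv2⟩ := hxd
    rw [Finset.mem_compl] at hv hv1 hv2
    refine three S hxK hv hv1 hv2 hxv hxv1 hxv2 ?_ ?_ ?_
    · rintro rfl; exact hec (hfv.symm.trans hfv1)
    · rintro rfl; exact hed (hfv.symm.trans hfv2)
    · rintro rfl; exact hcd (hfv1.symm.trans hfv2)
  -- step 1: no vertex of the class `c` has a free colour different from `d`
  have step1 : ∀ v w, v ≠ w → v ∉ K → w ∉ K → f v = c → f w = c →
      (∀ z, z ∉ K → f z = c → z = v ∨ z = w) → (nb G K v).card = 3 → (nb G K w).card = 3 →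
      ∀ u, u ≠ c → u ≠ d → ∃ z, z ∉ K ∧ G.Adj v z ∧ f z = u := by
    intro v w hvw hv hw hfv hfw hcls hv3 hw3 u huc hud
    by_contra hcon
    push Not at hcon
    have hprop : Proper G (Function.update f v u) Kᶜ :=
      proper_update hf (fun z hz hvz => hcon z (by simpa using hz) hvz)
    have k1 : cov G K (Function.update f v u) Kᶜ c ⊆ nb G K w := by
      intro x hx
      rw [mem_cov] at hx
      obtain ⟨hxK, z, hz, hxz, hfz⟩ := hx
      rw [Finset.mem_compl] at hz
      have hzv : z ≠ v := by
        rintro rfl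
        rw [Function.update_self] at hfz
        exact huc hfz
      rw [Function.update_of_ne hzv] at hfz
      rcases hcls z hz hfz with h | h
      · exact absurd h hzv
      · subst h; exact mem_nb.mpr ⟨hxK, hxz⟩
    have k2 : cov G K (Function.update f v u) Kᶜ u ⊆ (K \ cov G K f Kᶜ c) ∪ nb G K v := by
      intro x hx
      rw [mem_cov] at hx
      obtain ⟨hxK, z, hz, hxz, hfz⟩ := hx
      rw [Finset.mem_union]
      by_cases hzv : z = v
      · subst hzv; exact Or.inr (mem_nb.mpr ⟨hxK, hxz⟩)
      · rw [Function.update_of_ne hzv] at hfz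
        exact Or.inl (hother u huc hud (mem_cov.mpr ⟨hxK, z, hz, hxz, hfz⟩))
    have k3 : ∀ e, e ≠ u → cov G K (Function.update f v u) Kᶜ e ⊆ cov G K f Kᶜ e := by
      intro e he x hx
      rw [mem_cov] at hx ⊢
      obtain ⟨hxK, z, hz, hxz, hfz⟩ := hx
      have hzv : z ≠ v := by
        rintro rfl
        rw [Function.update_self] at hfz
        exact he hfz.symm
      rw [Function.update_of_ne hzv] at hfz
      exact ⟨hxK, z, hz, hxz, hfz⟩
    have k4 : ∀ e, e ≠ d → (cov G K (Function.update f v u) Kᶜ e).card ≤ 4 := by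
      intro e hed
      by_cases hec : e = c
      · subst hec
        have := Finset.card_le_card k1
        omega
      · by_cases heu : e = u
        · subst heu
          have h1 := Finset.card_le_card k2
          have h2 := Finset.card_union_le (K \ cov G K f Kᶜ c) (nb G K v)
          omega
        · have h1 := Finset.card_le_card (k3 e heu)
          have h2 := Finset.card_le_card (hother e hec hed)
          omega
    apply hGH _ hprop
    · intro e
      by_cases hed : e = d
      · subst hed
        exact (Finset.card_le_card (k3 e (Ne.symm hud))).trans (by omega)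
      · have := k4 e hed
        omega
    · intro e1 e2 he
      by_cases h1 : e1 = d
      · right
        have := k4 e2 (fun h => he (h1.trans h.symm))
        omega
      · left
        have := k4 e1 h1
        omega
  -- hence such a vertex has no neighbour of colour `d`
  have step2 : ∀ v w, v ≠ w → v ∉ K → w ∉ K → f v = c → f w = c →
      (∀ z, z ∉ K → f z = c → z = v ∨ z = w) → (nb G K v).card = 3 → (nb G K w).card = 3 →
      ∀ z, z ∉ K → f z = d → ¬ G.Adj v z := by
    intro v w hvw hv hw hfv hfw hcls hv3 hw3 z hz hfz hvz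
    have h1 : (Finset.univ.erase c : Finset (Fin 7)) ⊆
        (Kᶜ.filter (fun w => G.Adj v w)).image f := by
      intro u hu
      have huc := Finset.ne_of_mem_erase hu
      rw [Finset.mem_image]
      by_cases hud : u = d
      · exact ⟨z, by simp only [Finset.mem_filter, Finset.mem_compl]; exact ⟨hz, hvz⟩,
          hfz.trans hud.symm⟩
      · obtain ⟨y, hy, hvy, hfy⟩ := step1 v w hvw hv hw hfv hfw hcls hv3 hw3 u huc hud
        exact ⟨y, by simp only [Finset.mem_filter, Finset.mem_compl]; exact ⟨hy, hvy⟩, hfy⟩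
    have h2 := Finset.card_le_card h1
    rw [Finset.card_erase_of_mem (Finset.mem_univ _), Finset.card_univ, Fintype.card_fin] at h2
    have h3 := Finset.card_image_le (s := Kᶜ.filter (fun w => G.Adj v w)) (f := f)
    have h4 := S.deg v hv
    omega
  have hpd := step2 p q hpq hp hq hfp hfq hpqc hp3 hq3
  have hqd := step2 q p hpq.symm hq hp hfq hfp (fun z h1 h2 => (hpqc z h1 h2).symm) hq3 hp3
  -- re-pairing
  have step3 : ∀ r r', r ≠ r' → r ∉ K → r' ∉ K → f r = d → f r' = d →
      (∀ z, z ∉ K → f z = d → z = r ∨ z = r') → (nb G K r).card = 3 → (nb G K r').card = 3 →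
      (nb G K p ∩ nb G K r).Nonempty → False := by
    intro r r' hrr hr hr' hfr hfr' hcls hr3 hr3' hne
    have hqr : q ≠ r := by rintro rfl; exact hcd (hfq.symm.trans hfr)
    have hpr : p ≠ r := by rintro rfl; exact hcd (hfp.symm.trans hfr)
    set f' := Function.update (Function.update f q d) r c with hf'
    have e1 : f' r = c := Function.update_self _ _ _
    have e2 : f' q = d := by rw [hf', Function.update_of_ne hqr, Function.update_self]
    have e3 : ∀ z, z ≠ q → z ≠ r → f' z = f z := by
      intro z h1 h2; rw [hf', Function.update_of_ne h2, Function.update_of_ne h1]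
    -- class `c` of `f'` is `{p, r}`, class `d` is `{q, r'}`
    have c1 : ∀ z, z ∉ K → f' z = c → z = p ∨ z = r := by
      intro z hz hfz
      by_cases h1 : z = q
      · subst h1; rw [e2] at hfz; exact absurd hfz.symm hcd
      by_cases h2 : z = r
      · exact Or.inr h2
      rw [e3 z h1 h2] at hfz
      rcases hpqc z hz hfz with h | h
      · exact Or.inl h
      · exact absurd h h1
    have c2 : ∀ z, z ∉ K → f' z = d → z = q ∨ z = r' := by
      intro z hz hfz
      by_cases h1 : z = q
      · exact Or.inl h1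
      by_cases h2 : z = r
      · subst h2; rw [e1] at hfz; exact absurd hfz hcd
      rw [e3 z h1 h2] at hfz
      rcases hcls z hz hfz with h | h
      · exact absurd h h2
      · exact Or.inr h
    have hprop : Proper G f' Kᶜ := by
      intro v hv w hw hvw heq
      rw [Finset.mem_compl] at hv hw
      by_cases h1 : f' v = c
      · have h2 : f' w = c := heq ▸ h1
        rcases c1 v hv h1 with rfl | rfl <;> rcases c1 w hw h2 with rfl | rfl
        · exact hvw.ne rfl
        · exact hpd _ hw hfr hvw
        · exact hpd _ hv hfr hvw.symm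
        · exact hvw.ne rfl
      by_cases h2 : f' v = d
      · have h3 : f' w = d := heq ▸ h2
        rcases c2 v hv h2 with rfl | rfl <;> rcases c2 w hw h3 with rfl | rfl
        · exact hvw.ne rfl
        · exact hqd _ hw hfr' hvw
        · exact hqd _ hv hfr' hvw.symm
        · exact hvw.ne rfl
      have hvq : v ≠ q := by rintro rfl; exact h2 e2
      have hvr : v ≠ r := by rintro rfl; exact h1 e1
      have hwq : w ≠ q := by rintro rfl; exact h2 (heq.trans e2)
      have hwr : w ≠ r := by rintro rfl; exact h1 (heq.trans e1)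
      rw [e3 v hvq hvr, e3 w hwq hwr] at heq
      exact hf v (by simpa using hv) w (by simpa using hw) hvw heq
    have k1 : (cov G K f' Kᶜ c).card ≤ 5 := by
      have h1 : cov G K f' Kᶜ c ⊆ nb G K p ∪ nb G K r := by
        intro x hx
        rw [mem_cov] at hx
        obtain ⟨hxK, z, hz, hxz, hfz⟩ := hx
        rw [Finset.mem_compl] at hz
        rw [Finset.mem_union]
        rcases c1 z hz hfz with rfl | rfl
        · exact Or.inl (mem_nb.mpr ⟨hxK, hxz⟩)
        · exact Or.inr (mem_nb.mpr ⟨hxK, hxz⟩)
      have h2 := Finset.card_le_card h1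
      have h3 := Finset.card_union_add_card_inter (nb G K p) (nb G K r)
      have h4 := Finset.card_pos.mpr hne
      omega
    have k2 : (cov G K f' Kᶜ d).card ≤ 6 := by
      have h1 : cov G K f' Kᶜ d ⊆ nb G K q ∪ nb G K r' := by
        intro x hx
        rw [mem_cov] at hx
        obtain ⟨hxK, z, hz, hxz, hfz⟩ := hx
        rw [Finset.mem_compl] at hz
        rw [Finset.mem_union]
        rcases c2 z hz hfz with rfl | rfl
        · exact Or.inl (mem_nb.mpr ⟨hxK, hxz⟩)
        · exact Or.inr (mem_nb.mpr ⟨hxK, hxz⟩)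
      have h2 := Finset.card_le_card h1
      have h3 := Finset.card_union_le (nb G K q) (nb G K r')
      omega
    have k3 : ∀ e, e ≠ c → e ≠ d → (cov G K f' Kᶜ e).card ≤ 1 := by
      intro e hec hed
      have h1 : cov G K f' Kᶜ e ⊆ cov G K f Kᶜ e := by
        intro x hx
        rw [mem_cov] at hx ⊢
        obtain ⟨hxK, z, hz, hxz, hfz⟩ := hx
        have h1 : z ≠ q := by rintro rfl; exact hed (hfz.symm.trans e2)
        have h2 : z ≠ r := by rintro rfl; exact hec (hfz.symm.trans e1)
        rw [e3 z h1 h2] at hfz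
        exact ⟨hxK, z, hz, hxz, hfz⟩
      have h2 := Finset.card_le_card (h1.trans (hother e hec hed))
      omega
    apply hGH f' hprop
    · intro e
      by_cases hec : e = c
      · subst hec; omega
      by_cases hed : e = d
      · subst hed; exact k2
      have := k3 e hec hed
      omega
    · intro e1' e2' he
      by_cases h1 : e1' = c
      · subst h1; exact Or.inl k1
      by_cases h2 : e2' = c
      · subst h2; exact Or.inr k1
      by_cases h3 : e1' = d
      · right
        have := k3 e2' h2 (fun h => he (h3.trans h.symm))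
        omega
      · left
        have := k3 e1' h1 h3
        omega
  obtain ⟨x, hx⟩ : (nb G K p).Nonempty := Finset.card_pos.mp (by omega)
  have hxS : x ∈ nb G K p' ∪ nb G K q' := by
    rw [← hcovd, ← hS, hcovc, Finset.mem_union]
    exact Or.inl hx
  rcases Finset.mem_union.mp hxS with h | h
  · exact step3 p' q' hpq' hp' hq' hfp' hfq' hpqd hp3' hq3' ⟨x, Finset.mem_inter.mpr ⟨hx, h⟩⟩
  · exact step3 q' p' hpq'.symm hq' hp' hfq' hfp' (fun z h1 h2 => (hpqd z h1 h2).symm) hq3' hp3'
      ⟨x, Finset.mem_inter.mpr ⟨hx, h⟩⟩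

/-- a proper 7-colouring outside `K` with classes of size at most two yields a 7-colouring -/
theorem core (S : Setup G K) {f : V → Fin 7} (hf : Proper G f Kᶜ)
    (hcl : ∀ c, (Kᶜ.filter (fun v => f v = c)).card ≤ 2) : G.Colorable 7 := by
  classical
  by_cases h : ∃ v, v ∉ K ∧ 4 ≤ (nb G K v).card
  · obtain ⟨v, hv, h4⟩ := h
    obtain ⟨b, hb, hmax⟩ := Finset.exists_max_image Kᶜ (fun v => (nb G K v).card)
      ⟨v, by simpa using hv⟩
    refine caseI S hf hcl (b := b) (by simpa using hb) (h4.trans (hmax v (by simpa using hv))) ?_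
    intro w hw
    exact hmax w (by simpa using hw)
  · push Not at h
    exact caseII S hf hcl (fun v hv => by have := h v hv; omega)

end Pool.Agent.helper45.BK
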