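import Mathlib

/-! Structure of graphs on 14 vertices with minimum degree 5, no independent 8-set and no perfect
matching, from Tutte's theorem. -/

set_option linter.unusedSectionVars false

namespace Pool.Agent.helper45.BK

open Finset

theorem tutte_structure {W : Type*} [Fintype W] [DecidableEq W] (hW : Fintype.card W = 14)
    (H : SimpleGraph W) [DecidableRel H.Adj]
    (hdeg : ∀ w, 5 ≤ (Finset.univ.filter (fun v => H.Adj w v)).card)
    (hfree : ∀ T : Finset W, T.card = 8 → ∃ a ∈ T, ∃ b ∈ T, H.Adj a b) :
    (∃ M : W → W, (∀ v, H.Adj v (M v)) ∧ ∀ v, M (M v) = v) ∨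
    (∃ A : Finset W, A.card = 7 ∧ ∀ a ∈ A, ∀ b, b ∉ A → ¬ H.Adj a b) ∨
    (∃ T E : Finset W, Disjoint T E ∧ T.card = 6 ∧ E.card = 3 ∧ (∀ a ∈ T, ∀ b ∈ T, ¬ H.Adj a b) ∧
      (∀ a ∈ T, ∀ b ∈ E, ¬ H.Adj a b) ∧ (∀ a ∈ E, ∀ b ∈ E, a ≠ b → H.Adj a b)) := by
  classical
  by_cases hPM : ∃ M : H.Subgraph, M.IsPerfectMatching
  · left
    obtain ⟨M, hM1, hM2⟩ := hPM
    have h : ∀ v, ∃! w, M.Adj v w := fun v => hM1 (hM2 v)
    choose g hg huniq using h
    refine ⟨g, fun v => M.adj_sub (hg v), fun v => ?_⟩
    exact (huniq (g v) v (hg v).symm).symm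
  right
  rw [SimpleGraph.tutte] at hPM
  push Not at hPM
  obtain ⟨u, hu⟩ := hPM
  unfold SimpleGraph.IsTutteViolator at hu
  set X : Set W := ((⊤ : H.Subgraph).deleteVerts u).verts with hX
  set H' : SimpleGraph X := ((⊤ : H.Subgraph).deleteVerts u).coe with hH'
  have hXmem : ∀ w, w ∈ X ↔ w ∉ u := by
    intro w
    rw [hX]
    simp
  have hadj : ∀ (x y : X), H.Adj x.1 y.1 → H'.Adj x y := by
    intro x y hxy
    rw [hH', SimpleGraph.Subgraph.coe_adj, SimpleGraph.Subgraph.deleteVerts_adj]
    exact ⟨trivial, (hXmem _).mp x.2, trivial, (hXmem _).mp y.2, hxy⟩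
  let κ : X → H'.ConnectedComponent := H'.connectedComponentMk
  have hκ : ∀ x y : X, H.Adj x.1 y.1 → κ x = κ y := by
    intro x y hxy
    exact SimpleGraph.ConnectedComponent.sound (hadj x y hxy).reachable
  let sz : H'.ConnectedComponent → ℕ := fun c => (Finset.univ.filter (fun x : X => κ x = c)).card
  have hsz : ∀ c : H'.ConnectedComponent, c.supp.ncard = sz c := by
    intro c
    rw [Set.ncard_eq_toFinset_card']
    congr 1
    ext x
    simp only [Set.mem_toFinset, SimpleGraph.ConnectedComponent.mem_supp_iff, Finset.mem_filter,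
      Finset.mem_univ, true_and, κ]
  have hcardX : Fintype.card X + u.ncard = 14 := by
    rw [← hW, ← Nat.card_eq_fintype_card, ← Nat.card_eq_fintype_card, Nat.card_coe_set_eq]
    have h1 : X = uᶜ := by
      ext w; rw [hXmem]; rfl
    rw [h1, add_comm]
    exact Set.ncard_add_ncard_compl u
  have hsum : ∑ c, sz c = Fintype.card X := by
    rw [← Finset.card_univ, Finset.card_eq_sum_card_fiberwise (f := κ) (t := Finset.univ)
      (fun x _ => by simp)]
  have hlow : ∀ x : X, 6 ≤ u.ncard + sz (κ x) := by
    intro x
    have h1 : Finset.univ.filter (fun v => H.Adj x.1 v) ⊆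
        u.toFinset ∪ ((Finset.univ.filter (fun y : X => κ y = κ x)).erase x).map
          (Function.Embedding.subtype _) := by
      intro v hv
      rw [Finset.mem_filter] at hv
      rw [Finset.mem_union, Set.mem_toFinset, Finset.mem_map]
      by_cases hvu : v ∈ u
      · exact Or.inl hvu
      · right
        refine ⟨⟨v, (hXmem v).mpr hvu⟩, ?_, rfl⟩
        rw [Finset.mem_erase, Finset.mem_filter]
        refine ⟨?_, Finset.mem_univ _, (hκ _ _ hv.2).symm⟩
        rintro rfl
        exact hv.2.ne rfl
    have h2 := Finset.card_le_card h1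
    have h3 := Finset.card_union_le u.toFinset
      (((Finset.univ.filter (fun y : X => κ y = κ x)).erase x).map (Function.Embedding.subtype _))
    rw [Finset.card_map, Finset.card_erase_of_mem (by simp), ← Set.ncard_eq_toFinset_card'] at h3
    have h4 := hdeg x.1
    have h5 : 0 < (Finset.univ.filter (fun y : X => κ y = κ x)).card :=
      Finset.card_pos.mpr ⟨x, by simp⟩
    simp only [sz]
    omega
  have hκsurj : ∀ c, ∃ x, κ x = c := fun c => c.exists_rep
  have hpos : ∀ c, 0 < sz c := by
    intro c
    obtain ⟨x, rfl⟩ := hκsurj c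
    exact Finset.card_pos.mpr ⟨x, by simp⟩
  have hlow' : ∀ c, 6 ≤ u.ncard + sz c := by
    intro c
    obtain ⟨x, rfl⟩ := hκsurj c
    exact hlow x
  -- at most seven components
  have hq7 : Fintype.card H'.ConnectedComponent ≤ 7 := by
    by_contra hcon
    push Not at hcon
    choose rep hrep using hκsurj
    have hinj : Function.Injective (fun c => (rep c).1) := by
      intro c d hcd
      have : rep c = rep d := Subtype.ext hcd
      rw [← hrep c, ← hrep d, this]
    have h8 : 8 ≤ (Finset.univ.image (fun c => (rep c).1)).card := by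
      rw [Finset.card_image_of_injective _ hinj, Finset.card_univ]; exact hcon
    obtain ⟨T, hT, hT8⟩ := Finset.exists_subset_card_eq h8
    obtain ⟨a, ha, b, hb, hab⟩ := hfree T hT8
    have ha' := hT ha
    have hb' := hT hb
    rw [Finset.mem_image] at ha' hb'
    obtain ⟨c, _, rfl⟩ := ha'
    obtain ⟨d, _, rfl⟩ := hb'
    have := hκ _ _ hab
    rw [hrep, hrep] at this
    subst this
    exact hab.ne rfl
  have hodd : ((⊤ : H.Subgraph).deleteVerts u).coe.oddComponents.ncard =
      (Finset.univ.filter (fun c => Odd (sz c))).card := by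
    rw [Set.ncard_eq_toFinset_card']
    congr 1
    ext c
    simp only [SimpleGraph.oddComponents, Set.mem_toFinset, Set.mem_ofPred_eq, Finset.mem_filter,
      Finset.mem_univ, true_and]
    rw [← hsz]
  have hpar := SimpleGraph.odd_ncard_oddComponents ((⊤ : H.Subgraph).deleteVerts u).coe
  rw [hodd] at hu hpar
  rw [Nat.card_eq_fintype_card] at hpar
  have hqle : (Finset.univ.filter (fun c => Odd (sz c))).card ≤
      Fintype.card H'.ConnectedComponent := by
    rw [← Finset.card_univ]
    exact Finset.card_le_card (Finset.filter_subset _ _)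
  set q := (Finset.univ.filter (fun c => Odd (sz c))).card with hq
  set n := Fintype.card H'.ConnectedComponent with hn
  set s := u.ncard with hs
  have hq2 : s + 2 ≤ q := by
    by_contra hcon
    have h1 : q = s + 1 := by omega
    have h2 : Fintype.card X = 14 - s := by omega
    rw [h1] at hpar
    have h3 : Odd (s + 1) ↔ Odd (Fintype.card X) := hpar
    rw [h2] at h3
    have h4 : s ≤ 14 := by omega
    rw [Nat.odd_iff, Nat.odd_iff] at h3
    omega
  have hmul : n * (6 - s) ≤ 14 - s := by
    have h1 : ∑ c : H'.ConnectedComponent, (6 - s) ≤ ∑ c, sz c :=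
      Finset.sum_le_sum (fun c _ => by have := hlow' c; omega)
    rw [Finset.sum_const, Finset.card_univ, smul_eq_mul, hsum] at h1
    have h2 : Fintype.card X = 14 - s := by omega
    rw [h2] at h1
    exact h1
  have hs05 : s = 0 ∨ s = 5 := by
    have h1 : s ≤ 5 := by omega
    interval_cases s
    · exact Or.inl rfl
    · omega
    · omega
    · omega
    · omega
    · exact Or.inr rfl
  -- embedding of subsets of `X` into `W`
  let ι : X ↪ W := Function.Embedding.subtype _
  have hcross : ∀ (x y : X), κ x ≠ κ y → ¬ H.Adj x.1 y.1 := fun x y h hxy => h (hκ x y hxy)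
  rcases hs05 with h0 | h5
  · -- two components of size seven
    left
    have hu0 : u = ∅ := by
      rw [← Set.ncard_eq_zero]; exact h0
    have hn2 : n = 2 := by
      rw [h0] at hmul hq2; omega
    have hqn : q = 2 := by omega
    have hallodd : ∀ c, Odd (sz c) := by
      intro c
      have h1 : Finset.univ.filter (fun c => Odd (sz c)) = Finset.univ := by
        apply Finset.eq_of_subset_of_card_le (Finset.filter_subset _ _)
        rw [Finset.card_univ]; omega
      have : c ∈ Finset.univ.filter (fun c => Odd (sz c)) := by rw [h1]; exact Finset.mem_univ _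
      exact (Finset.mem_filter.mp this).2
    have hge7 : ∀ c, 7 ≤ sz c := by
      intro c
      have h1 := hlow' c
      have h2 := hallodd c
      rw [Nat.odd_iff] at h2
      omega
    obtain ⟨c, d, hcd, huniv⟩ := Finset.card_eq_two.mp (show (Finset.univ :
      Finset H'.ConnectedComponent).card = 2 by rw [Finset.card_univ]; exact hn2)
    have hs2 : sz c + sz d = 14 := by
      have h1 := hsum
      rw [huniv, Finset.sum_pair hcd] at h1
      omega
    refine ⟨(Finset.univ.filter (fun x : X => κ x = c)).map ι, ?_, ?_⟩
    · rw [Finset.card_map]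
      have h1 := hge7 c
      have h2 := hge7 d
      have h3 : (Finset.univ.filter (fun x : X => κ x = c)).card = sz c := rfl
      omega
    · intro a ha b hb
      rw [Finset.mem_map] at ha hb
      obtain ⟨x, hx, rfl⟩ := ha
      have hbX : b ∈ X := by rw [hXmem, hu0]; exact Set.notMem_empty _
      have hxc := (Finset.mem_filter.mp hx).2
      apply hcross x ⟨b, hbX⟩
      intro h
      apply hb
      exact ⟨⟨b, hbX⟩, by rw [Finset.mem_filter]; exact ⟨Finset.mem_univ _, h ▸ hxc⟩, rfl⟩
  · -- six singletons and a triple
    right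
    have hn7 : n = 7 := by omega
    have hq7' : q = 7 := by omega
    have hallodd : ∀ c, Odd (sz c) := by
      intro c
      have h1 : Finset.univ.filter (fun c => Odd (sz c)) = Finset.univ := by
        apply Finset.eq_of_subset_of_card_le (Finset.filter_subset _ _)
        rw [Finset.card_univ]; omega
      have : c ∈ Finset.univ.filter (fun c => Odd (sz c)) := by rw [h1]; exact Finset.mem_univ _
      exact (Finset.mem_filter.mp this).2
    have hsum9 : ∑ c, sz c = 9 := by omega
    -- a component of size three
    obtain ⟨c0, hc0⟩ : ∃ c, sz c ≠ 1 := by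
      by_contra hcon
      push Not at hcon
      rw [Finset.sum_congr rfl (fun c _ => hcon c), Finset.sum_const, Finset.card_univ,
        smul_eq_mul] at hsum9
      omega
    have hc03 : 3 ≤ sz c0 := by
      have h1 := hallodd c0
      rw [Nat.odd_iff] at h1
      omega
    have hrest : ∑ c ∈ Finset.univ.erase c0, sz c = 9 - sz c0 := by
      have := Finset.add_sum_erase Finset.univ sz (Finset.mem_univ c0)
      omega
    have hcardrest : (Finset.univ.erase c0).card = 6 := by
      rw [Finset.card_erase_of_mem (Finset.mem_univ _), Finset.card_univ]; omega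
    have hrest6 : 6 ≤ ∑ c ∈ Finset.univ.erase c0, sz c := by
      have h1 : ∑ c ∈ Finset.univ.erase c0, 1 ≤ ∑ c ∈ Finset.univ.erase c0, sz c :=
        Finset.sum_le_sum (fun c _ => hpos c)
      rw [Finset.sum_const, hcardrest, smul_eq_mul, mul_one] at h1
      exact h1
    have hc0eq : sz c0 = 3 := by omega
    have hones : ∀ c, c ≠ c0 → sz c = 1 := by
      intro c hc
      by_contra hne
      have h2 : 2 ≤ sz c := by have := hpos c; omega
      have h3 : ∑ c ∈ Finset.univ.erase c0, 1 < ∑ c ∈ Finset.univ.erase c0, sz c :=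
        Finset.sum_lt_sum (fun c _ => hpos c) ⟨c, by simp [hc], by omega⟩
      rw [Finset.sum_const, hcardrest, smul_eq_mul, mul_one] at h3
      omega
    have hTcard : (Finset.univ.filter (fun x : X => κ x ≠ c0)).card = 6 := by
      have h1 := Finset.card_filter_add_card_filter_not (s := (Finset.univ : Finset X))
        (fun x => κ x = c0)
      rw [Finset.card_univ] at h1
      have h2 : (Finset.univ.filter (fun x : X => κ x = c0)).card = sz c0 := rfl
      have h3 : (Finset.univ.filter (fun x : X => ¬ κ x = c0)).card =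
        (Finset.univ.filter (fun x : X => κ x ≠ c0)).card := rfl
      omega
    have hTne : ∀ x y : X, κ x ≠ c0 → κ y ≠ c0 → x ≠ y → κ x ≠ κ y := by
      intro x y hx hy hxy h
      have h1 := hones _ hx
      have h2 : ({x, y} : Finset X) ⊆ Finset.univ.filter (fun z : X => κ z = κ x) := by
        intro z hz
        simp only [Finset.mem_insert, Finset.mem_singleton] at hz
        rw [Finset.mem_filter]
        rcases hz with rfl | rfl
        · exact ⟨Finset.mem_univ _, rfl⟩
        · exact ⟨Finset.mem_univ _, h.symm⟩
      have h3 := Finset.card_le_card h2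
      rw [Finset.card_pair hxy] at h3
      have h4 : (Finset.univ.filter (fun z : X => κ z = κ x)).card = sz (κ x) := rfl
      omega
    refine ⟨(Finset.univ.filter (fun x : X => κ x ≠ c0)).map ι,
      (Finset.univ.filter (fun x : X => κ x = c0)).map ι, ?_, ?_, ?_, ?_, ?_, ?_⟩
    · rw [Finset.disjoint_map]
      rw [Finset.disjoint_left]
      intro x hx hx'
      exact (Finset.mem_filter.mp hx).2 (Finset.mem_filter.mp hx').2
    · rw [Finset.card_map, hTcard]
    · rw [Finset.card_map]; exact hc0eq
    · intro a ha b hb hab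
      rw [Finset.mem_map] at ha hb
      obtain ⟨x, hx, rfl⟩ := ha
      obtain ⟨y, hy, rfl⟩ := hb
      have hxy : x ≠ y := by rintro rfl; exact hab.ne rfl
      exact hTne x y (Finset.mem_filter.mp hx).2 (Finset.mem_filter.mp hy).2 hxy (hκ x y hab)
    · intro a ha b hb hab
      rw [Finset.mem_map] at ha hb
      obtain ⟨x, hx, rfl⟩ := ha
      obtain ⟨y, hy, rfl⟩ := hb
      exact (Finset.mem_filter.mp hx).2 ((hκ x y hab).trans (Finset.mem_filter.mp hy).2)
    · intro a ha b hb hab
      rw [Finset.mem_map] at ha hb
      obtain ⟨x, hx, rfl⟩ := ha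
      obtain ⟨y, hy, rfl⟩ := hb
      by_contra hnadj
      have hxc := (Finset.mem_filter.mp hx).2
      have hyc := (Finset.mem_filter.mp hy).2
      have hxy : x ≠ y := fun h => hab (by rw [h])
      set T8 : Finset X := Finset.univ.filter (fun x : X => κ x ≠ c0) ∪ {x, y} with hT8
      have hcard8 : T8.card = 8 := by
        rw [hT8, Finset.card_union_of_disjoint, hTcard, Finset.card_pair hxy]
        rw [Finset.disjoint_left]
        intro z hz hz'
        simp only [Finset.mem_insert, Finset.mem_singleton] at hz'
        rw [Finset.mem_filter] at hz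
        rcases hz' with rfl | rfl
        · exact hz.2 hxc
        · exact hz.2 hyc
      obtain ⟨a, ha, b, hb, hab'⟩ := hfree (T8.map ι) (by rw [Finset.card_map, hcard8])
      rw [Finset.mem_map] at ha hb
      obtain ⟨z, hz, rfl⟩ := ha
      obtain ⟨w, hw, rfl⟩ := hb
      have hzw : κ z = κ w := hκ z w hab'
      have hne : z ≠ w := by rintro rfl; exact hab'.ne rfl
      have hmem : ∀ z ∈ T8, κ z ≠ c0 ∨ z = x ∨ z = y := by
        intro z hz
        rw [hT8, Finset.mem_union, Finset.mem_filter, Finset.mem_insert, Finset.mem_singleton] at hz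
        rcases hz with h | h
        · exact Or.inl h.2
        · exact Or.inr h
      by_cases hzc : κ z = c0
      · have hwc : κ w = c0 := hzw ▸ hzc
        rcases hmem z hz with h | rfl | rfl
        · exact h hzc
        · rcases hmem w hw with h | rfl | rfl
          · exact h hwc
          · exact hne rfl
          · exact hnadj hab'
        · rcases hmem w hw with h | rfl | rfl
          · exact h hwc
          · exact hnadj hab'.symm
          · exact hne rfl
      · have hwc : κ w ≠ c0 := hzw ▸ hzc
        exact hTne z w hzc hwc hne hzw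

end Pool.Agent.helper45.BK
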