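import Mathlib
import Pool.Agent.helper45.BK3
import Pool.Agent.helper45.BK4

/-! The two exceptional structures, and the colouring theorem on 21 vertices. -/

set_option linter.unusedSectionVars false

namespace Pool.Agent.helper45.BK

open Finset

variable {V : Type*} [Fintype V] [DecidableEq V] {G : SimpleGraph V} [DecidableRel G.Adj]
  {K : Finset V}

lemma two_colors (K A : Finset V) (κ : V → Fin 7)
    (h1 : ∀ v ∈ A, ((K ∪ A).filter (fun w => G.Adj v w)).card ≤ 1) (i j : Fin 7) (hij : i ≠ j)
    (hKA : Disjoint K A) :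
    ∃ g : V → Fin 7, (∀ v, g v = i ∨ g v = j) ∧ (∀ v ∈ A, ∀ w ∈ A, G.Adj v w → g v ≠ g w) ∧
      (∀ v ∈ A, ∀ x ∈ K, G.Adj v x → g v ≠ κ x) := by
  classical
  obtain ⟨e⟩ : Nonempty (V ≃ Fin (Fintype.card V)) := ⟨Fintype.equivFin V⟩
  have huniq : ∀ v ∈ A, ∀ w w', (w ∈ K ∨ w ∈ A) → (w' ∈ K ∨ w' ∈ A) → G.Adj v w → G.Adj v w' →
      w = w' := by
    intro v hv w w' hw hw' hvw hvw'
    have h2 := Finset.card_le_one.mp (h1 v hv)
    apply h2
    · rw [Finset.mem_filter, Finset.mem_union]; exact ⟨hw, hvw⟩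
    · rw [Finset.mem_filter, Finset.mem_union]; exact ⟨hw', hvw'⟩
  let h : V → Fin 7 := fun v => if ∃ w ∈ A, G.Adj v w ∧ e w < e v then j else i
  let g : V → Fin 7 := fun v => if ∃ x ∈ K, G.Adj v x ∧ κ x = h v then (if h v = i then j else i)
    else h v
  have hh : ∀ v, h v = i ∨ h v = j := by
    intro v
    simp only [h]
    split_ifs
    · exact Or.inr rfl
    · exact Or.inl rfl
  refine ⟨g, ?_, ?_, ?_⟩
  · intro v
    simp only [g]
    split_ifs
    · exact Or.inr rfl
    · exact Or.inl rfl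
    · exact hh v
  · intro v hv w hw hvw
    have hnK : ∀ a ∈ A, ∀ b ∈ A, G.Adj a b → g a = h a := by
      intro a ha b hb hab
      simp only [g]
      rw [if_neg]
      rintro ⟨x, hx, hax, _⟩
      have := huniq a ha x b (Or.inl hx) (Or.inr hb) hax hab
      subst this
      exact (Finset.disjoint_left.mp hKA hx) hb
    have key : ∀ a ∈ A, ∀ b ∈ A, G.Adj a b → e a < e b → g a ≠ g b := by
      intro a ha b hb hab hlt
      rw [hnK a ha b hb hab, hnK b hb a ha hab.symm]
      have e1 : h b = j := by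
        simp only [h]; rw [if_pos]; exact ⟨a, ha, hab.symm, hlt⟩
      have e2 : h a = i := by
        simp only [h]; rw [if_neg]
        rintro ⟨w, hw, haw, hwlt⟩
        have := huniq a ha w b (Or.inr hw) (Or.inr hb) haw hab
        subst this
        exact absurd hwlt (not_lt.mpr hlt.le)
      rw [e1, e2]; exact hij
    rcases lt_or_gt_of_ne (show e v ≠ e w from fun h => hvw.ne (e.injective h)) with h | h
    · exact key v hv w hw hvw h
    · exact (key w hw v hv hvw.symm h).symm
  · intro v hv x hx hvx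
    by_cases hc : ∃ x ∈ K, G.Adj v x ∧ κ x = h v
    · obtain ⟨y, hy, hvy, hκ⟩ := hc
      have := huniq v hv x y (Or.inl hx) (Or.inl hy) hvx hvy
      subst this
      simp only [g]
      rw [if_pos ⟨x, hx, hvx, hκ⟩, hκ]
      rcases hh v with h' | h'
      · rw [h', if_pos rfl]; exact hij.symm
      · rw [h', if_neg hij.symm]; exact hij
    · have hgv : g v = h v := by simp only [g]; rw [if_neg hc]
      rw [hgv]
      intro heq
      exact hc ⟨x, hx, hvx, heq.symm⟩

theorem caseA (hdeg : ∀ v, (Finset.univ.filter (fun w => G.Adj v w)).card ≤ 8)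
    (hK : K.card = 7) {A B : Finset V} (hA : A.card = 7) (hB : B.card = 7) (hKA : Disjoint K A)
    (hKB : Disjoint K B) (hAB : Disjoint A B) (hcover : ∀ v, v ∈ K ∨ v ∈ A ∨ v ∈ B)
    (hadj : ∀ a ∈ A, ∀ b ∈ B, G.Adj a b) : G.Colorable 7 := by
  classical
  obtain ⟨κ0⟩ : Nonempty ({x // x ∈ K} ≃ Fin 7) :=
    ⟨Fintype.equivFinOfCardEq (by rw [Fintype.card_coe, hK])⟩
  let κ : V → Fin 7 := fun v => if h : v ∈ K then κ0 ⟨v, h⟩ else 0
  have hκ : ∀ x ∈ K, ∀ y ∈ K, x ≠ y → κ x ≠ κ y := by
    intro x hx y hy hxy h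
    simp only [κ, hx, hy, dite_true] at h
    have := κ0.injective h
    exact hxy (by simpa using this)
  have hsmall : ∀ (C D : Finset V), D.card = 7 → Disjoint C D → Disjoint K D →
      (∀ v ∈ C, ∀ w ∈ D, G.Adj v w) → ∀ v ∈ C, ((K ∪ C).filter (fun w => G.Adj v w)).card ≤ 1 := by
    intro C D hD hCD hKD hCDadj v hv
    have h1 : (K ∪ C).filter (fun w => G.Adj v w) ∪ D ⊆ Finset.univ.filter (fun w => G.Adj v w) := by
      intro w hw
      rw [Finset.mem_union, Finset.mem_filter] at hw
      rw [Finset.mem_filter]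
      rcases hw with hw | hw
      · exact ⟨Finset.mem_univ _, hw.2⟩
      · exact ⟨Finset.mem_univ _, hCDadj v hv w hw⟩
    have h2 : Disjoint ((K ∪ C).filter (fun w => G.Adj v w)) D := by
      rw [Finset.disjoint_left]
      intro w hw hwD
      rw [Finset.mem_filter, Finset.mem_union] at hw
      rcases hw.1 with h | h
      · exact Finset.disjoint_left.mp hKD h hwD
      · exact Finset.disjoint_left.mp hCD h hwD
    have h3 := Finset.card_le_card h1
    rw [Finset.card_union_of_disjoint h2, hD] at h3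
    have := hdeg v
    omega
  obtain ⟨gA, gA1, gA2, gA3⟩ := two_colors (G := G) K A κ (hsmall A B hB hAB hKB hadj) 0 1
    (by decide) hKA
  obtain ⟨gB, gB1, gB2, gB3⟩ := two_colors (G := G) K B κ
    (hsmall B A hA hAB.symm hKA (fun b hb a ha => (hadj a ha b hb).symm)) 2 3 (by decide) hKB
  have hABne : ∀ v w, gA v ≠ gB w := by
    intro v w
    rcases gA1 v with h | h <;> rcases gB1 w with h' | h' <;> rw [h, h'] <;> decide
  let F : V → Fin 7 := fun v => if v ∈ K then κ v else if v ∈ A then gA v else gB v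
  have FK : ∀ v ∈ K, F v = κ v := fun v hv => by simp only [F, hv, if_true]
  have FA : ∀ v ∈ A, F v = gA v := fun v hv => by
    have : v ∉ K := fun h => Finset.disjoint_left.mp hKA h hv
    simp only [F, hv, this, if_true, if_false]
  have FB : ∀ v ∈ B, F v = gB v := fun v hv => by
    have h1 : v ∉ K := fun h => Finset.disjoint_left.mp hKB h hv
    have h2 : v ∉ A := fun h => Finset.disjoint_left.mp hAB h hv
    simp only [F, h1, h2, if_false]
  refine ⟨SimpleGraph.Coloring.mk F ?_⟩
  intro v w hvw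
  rcases hcover v with hv | hv | hv <;> rcases hcover w with hw | hw | hw
  · rw [FK v hv, FK w hw]; exact hκ v hv w hw hvw.ne
  · rw [FK v hv, FA w hw]; exact (gA3 w hw v hv hvw.symm).symm
  · rw [FK v hv, FB w hw]; exact (gB3 w hw v hv hvw.symm).symm
  · rw [FA v hv, FK w hw]; exact gA3 v hv w hw hvw
  · rw [FA v hv, FA w hw]; exact gA2 v hv w hw hvw
  · rw [FA v hv, FB w hw]; exact hABne v w
  · rw [FB v hv, FK w hw]; exact gB3 v hv w hw hvw
  · rw [FB v hv, FA w hw]; exact (hABne w v).symm
  · rw [FB v hv, FB w hw]; exact gB2 v hv w hw hvw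

theorem caseB (S : Setup G K) (hR : (Kᶜ : Finset V).card = 14) {T E : Finset V} (hTK : Disjoint K T)
    (hEK : Disjoint K E) (hTE : Disjoint T E) (hT6 : T.card = 6) (hE3 : E.card = 3)
    (hTT : ∀ a ∈ T, ∀ b ∈ T, a ≠ b → G.Adj a b) (hTEadj : ∀ a ∈ T, ∀ b ∈ E, G.Adj a b)
    (hEE : ∀ a ∈ E, ∀ b ∈ E, ¬ G.Adj a b) : G.Colorable 7 := by
  classical
  by_contra hnc
  set R0 : Finset V := Kᶜ \ (T ∪ E) with hR0
  have hTsub : T ⊆ Kᶜ := fun v hv => by
    rw [Finset.mem_compl]; exact fun h => Finset.disjoint_left.mp hTK h hv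
  have hEsub : E ⊆ Kᶜ := fun v hv => by
    rw [Finset.mem_compl]; exact fun h => Finset.disjoint_left.mp hEK h hv
  have hR0card : R0.card = 5 := by
    rw [hR0, Finset.card_sdiff_of_subset (Finset.union_subset hTsub hEsub),
      Finset.card_union_of_disjoint hTE, hR, hT6, hE3]
  have hR0mem : ∀ v, v ∈ R0 ↔ v ∉ K ∧ v ∉ T ∧ v ∉ E := by
    intro v
    rw [hR0, Finset.mem_sdiff, Finset.mem_compl, Finset.mem_union, not_or]
  have hcover : ∀ v, v ∉ K → v ∈ T ∨ v ∈ E ∨ v ∈ R0 := by
    intro v hv
    by_cases h1 : v ∈ T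
    · exact Or.inl h1
    by_cases h2 : v ∈ E
    · exact Or.inr (Or.inl h2)
    · exact Or.inr (Or.inr ((hR0mem v).mpr ⟨hv, h1, h2⟩))
  -- vertices of `T` have no further neighbours
  have hTnb : ∀ t ∈ T, nb G K t = ∅ ∧ ∀ w, w ∉ K → G.Adj t w → w ∈ T ∨ w ∈ E := by
    intro t ht
    have htK : t ∉ K := fun h => Finset.disjoint_left.mp hTK h ht
    have h1 : T.erase t ∪ E ⊆ Kᶜ.filter (fun w => G.Adj t w) := by
      intro w hw
      rw [Finset.mem_union, Finset.mem_erase] at hw
      rw [Finset.mem_filter]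
      rcases hw with ⟨h1, h2⟩ | h
      · exact ⟨hTsub h2, hTT t ht w h2 h1.symm⟩
      · exact ⟨hEsub h, hTEadj t ht w h⟩
    have h2 : (T.erase t ∪ E).card = 8 := by
      rw [Finset.card_union_of_disjoint, Finset.card_erase_of_mem ht, hT6, hE3]
      exact hTE.mono_left (Finset.erase_subset _ _)
    have h3 := S.deg t htK
    have h4 := Finset.card_le_card h1
    constructor
    · rw [← Finset.card_eq_zero]; omega
    · intro w hw htw
      have h5 : T.erase t ∪ E = Kᶜ.filter (fun w => G.Adj t w) :=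
        Finset.eq_of_subset_of_card_le h1 (by omega)
      have h6 : w ∈ T.erase t ∪ E := by
        rw [h5, Finset.mem_filter, Finset.mem_compl]; exact ⟨hw, htw⟩
      rw [Finset.mem_union, Finset.mem_erase] at h6
      rcases h6 with h | h
      · exact Or.inl h.2
      · exact Or.inr h
  have hEnb : ∀ w ∈ E, (nb G K w).card ≤ 2 ∧ (2 ≤ (nb G K w).card →
      ∀ z, z ∉ K → G.Adj w z → z ∈ T) := by
    intro w hw
    have hwK : w ∉ K := fun h => Finset.disjoint_left.mp hEK h hw
    have h1 : T ⊆ Kᶜ.filter (fun z => G.Adj w z) := by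
      intro z hz
      rw [Finset.mem_filter]
      exact ⟨hTsub hz, (hTEadj z hz w hw).symm⟩
    have h2 := S.deg w hwK
    have h3 := Finset.card_le_card h1
    refine ⟨by omega, ?_⟩
    intro h4 z hz hwz
    have h5 : T = Kᶜ.filter (fun z => G.Adj w z) := Finset.eq_of_subset_of_card_le h1 (by omega)
    rw [h5, Finset.mem_filter, Finset.mem_compl]
    exact ⟨hz, hwz⟩
  -- the colouring
  obtain ⟨eT⟩ : Nonempty ({x // x ∈ T} ≃ Fin 6) :=
    ⟨Fintype.equivFinOfCardEq (by rw [Fintype.card_coe, hT6])⟩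
  obtain ⟨eR⟩ : Nonempty ({x // x ∈ R0} ≃ Fin 5) :=
    ⟨Fintype.equivFinOfCardEq (by rw [Fintype.card_coe, hR0card])⟩
  let f : V → Fin 7 := fun v => if h : v ∈ T then (eT ⟨v, h⟩).castSucc else
    if h : v ∈ R0 then ((eR ⟨v, h⟩).castSucc).castSucc else Fin.last 6
  have fT : ∀ v ∈ T, f v ≠ Fin.last 6 := by
    intro v hv
    simp only [f, hv, dite_true]
    exact (Fin.castSucc_lt_last _).ne
  have fE : ∀ v ∈ E, f v = Fin.last 6 := by
    intro v hv
    have h1 : v ∉ T := fun h => Finset.disjoint_left.mp hTE h hv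
    have h2 : v ∉ R0 := fun h => ((hR0mem v).mp h).2.2 hv
    simp only [f, h1, h2, dite_false]
  have fR : ∀ v ∈ R0, f v ≠ Fin.last 6 := by
    intro v hv
    have h1 : v ∉ T := ((hR0mem v).mp hv).2.1
    simp only [f, hv, h1, dite_true, dite_false]
    exact (Fin.castSucc_lt_last _).ne
  have fTinj : ∀ v ∈ T, ∀ w ∈ T, f v = f w → v = w := by
    intro v hv w hw h
    simp only [f, hv, hw, dite_true] at h
    have h1 := eT.injective (Fin.castSucc_injective _ h)
    simpa using h1
  have fRinj : ∀ v ∈ R0, ∀ w ∈ R0, f v = f w → v = w := by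
    intro v hv w hw h
    have h1 : v ∉ T := ((hR0mem v).mp hv).2.1
    have h2 : w ∉ T := ((hR0mem w).mp hw).2.1
    simp only [f, hv, hw, h1, h2, dite_true, dite_false] at h
    have h3 := eR.injective (Fin.castSucc_injective _ (Fin.castSucc_injective _ h))
    simpa using h3
  have hprop : Proper G f Kᶜ := by
    have key : ∀ v w, v ∉ K → w ∉ K → v ∈ T → G.Adj v w → f v ≠ f w := by
      intro v w hv hw hvT hvw
      rcases (hTnb v hvT).2 w hw hvw with h | h
      · intro heq; exact hvw.ne (fTinj v hvT w h heq)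
      · rw [fE w h]; exact fT v hvT
    intro v hv w hw hvw
    rw [Finset.mem_compl] at hv hw
    by_cases hvT : v ∈ T
    · exact key v w hv hw hvT hvw
    by_cases hwT : w ∈ T
    · exact (key w v hw hv hwT hvw.symm).symm
    rcases hcover v hv with h | hvE | hvR
    · exact absurd h hvT
    · rcases hcover w hw with h | hwE | hwR
      · exact absurd h hwT
      · exact absurd hvw (hEE v hvE w hwE)
      · rw [fE v hvE]; exact (fR w hwR).symm
    · rcases hcover w hw with h | hwE | hwR
      · exact absurd h hwT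
      · rw [fE w hwE]; exact fR v hvR
      · intro heq; exact hvw.ne (fRinj v hvR w hwR heq)
  -- covers of the colour classes
  have hcov : ∀ c, c ≠ Fin.last 6 → cov G K f Kᶜ c = ∅ ∨
      ∃ s ∈ R0, f s = c ∧ cov G K f Kᶜ c = nb G K s := by
    intro c hc
    rcases (cov G K f Kᶜ c).eq_empty_or_nonempty with h | ⟨x, hx⟩
    · exact Or.inl h
    right
    have hmem : ∀ x v, x ∈ K → v ∉ K → G.Adj x v → f v = c → v ∈ R0 := by
      intro x v hx hv hxv hfv
      rcases hcover v hv with h | h | h
      · have := (hTnb v h).1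
        have h1 : x ∈ nb G K v := mem_nb.mpr ⟨hx, hxv⟩
        rw [this] at h1
        simp at h1
      · exact absurd (hfv.symm.trans (fE v h)) hc
      · exact h
    rw [mem_cov] at hx
    obtain ⟨hxK, s, hs, hxs, hfs⟩ := hx
    rw [Finset.mem_compl] at hs
    have hsR := hmem x s hxK hs hxs hfs
    refine ⟨s, hsR, hfs, ?_⟩
    ext y
    rw [mem_cov, mem_nb]
    constructor
    · rintro ⟨hyK, v, hv, hyv, hfv⟩
      rw [Finset.mem_compl] at hv
      have hvR := hmem y v hyK hv hyv hfv
      have := fRinj v hvR s hsR (hfv.trans hfs.symm)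
      subst this
      exact ⟨hyK, hyv⟩
    · rintro ⟨hyK, hys⟩
      exact ⟨hyK, s, by rw [Finset.mem_compl]; exact hs, hys, hfs⟩
  have hcov6 : cov G K f Kᶜ (Fin.last 6) = E.biUnion (fun w => nb G K w) := by
    ext x
    rw [mem_cov, Finset.mem_biUnion]
    constructor
    · rintro ⟨hx, v, hv, hxv, hfv⟩
      rw [Finset.mem_compl] at hv
      rcases hcover v hv with h | h | h
      · exact absurd hfv (fT v h)
      · exact ⟨v, h, mem_nb.mpr ⟨hx, hxv⟩⟩
      · exact absurd hfv (fR v h)
    · rintro ⟨v, hv, hxv⟩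
      rw [mem_nb] at hxv
      exact ⟨hxv.1, v, hEsub hv, hxv.2, fE v hv⟩
  have hle6 : ∀ c, (cov G K f Kᶜ c).card ≤ 6 := by
    intro c
    by_cases hc : c = Fin.last 6
    · subst hc
      rw [hcov6]
      have := Finset.card_biUnion_le_card_mul E (fun w => nb G K w) 2 (fun w hw => (hEnb w hw).1)
      omega
    · rcases hcov c hc with h | ⟨s, hs, _, h⟩
      · rw [h]; simp
      · rw [h]; exact S.six s ((hR0mem s).mp hs).1
  obtain ⟨c, d, hcd, hcdcard⟩ : ∃ c d, c ≠ d ∧ 6 ≤ (cov G K f Kᶜ c ∩ cov G K f Kᶜ d).card := by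
    by_contra hcon
    push Not at hcon
    apply hnc
    apply GH S f hprop
    · intro c
      by_contra hcon2
      push Not at hcon2
      have := Finset.card_le_card (show K ⊆ cov G K f Kᶜ c from hcon2)
      rw [S.card] at this
      have := hle6 c
      omega
    · intro c d hcd
      have := hcon c d hcd
      omega
  have hc6 : 6 ≤ (cov G K f Kᶜ c).card :=
    hcdcard.trans (Finset.card_le_card Finset.inter_subset_left)
  have hd6 : 6 ≤ (cov G K f Kᶜ d).card :=
    hcdcard.trans (Finset.card_le_card Finset.inter_subset_right)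
  have hceq : cov G K f Kᶜ c = cov G K f Kᶜ d := by
    have h1 := hle6 c
    have h2 := hle6 d
    have h3 : cov G K f Kᶜ c ∩ cov G K f Kᶜ d = cov G K f Kᶜ c :=
      Finset.eq_of_subset_of_card_le Finset.inter_subset_left (by omega)
    have h4 : cov G K f Kᶜ c ∩ cov G K f Kᶜ d = cov G K f Kᶜ d :=
      Finset.eq_of_subset_of_card_le Finset.inter_subset_right (by omega)
    exact h3.symm.trans h4
  -- one of the two colours is the last one
  have key : ∀ c d, c ≠ d → d = Fin.last 6 → 6 ≤ (cov G K f Kᶜ c).card →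
      cov G K f Kᶜ c = cov G K f Kᶜ d → False := by
    intro c d hcd hd hc6 hceq
    subst hd
    rcases hcov c hcd with h | ⟨s, hs, hfs, h⟩
    · rw [h] at hc6; simp at hc6
    have hsK : s ∉ K := ((hR0mem s).mp hs).1
    have hsE : s ∉ E := ((hR0mem s).mp hs).2.2
    rw [h] at hc6 hceq
    -- all vertices of `E` have two neighbours in `K`
    have hE2 : ∀ w ∈ E, 2 ≤ (nb G K w).card := by
      intro w hw
      by_contra hlt
      push Not at hlt
      have h1 : E.biUnion (fun w => nb G K w) ⊆ nb G K w ∪ (E.erase w).biUnion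
          (fun w => nb G K w) := by
        intro x hx
        rw [Finset.mem_biUnion] at hx
        obtain ⟨v, hv, hxv⟩ := hx
        rw [Finset.mem_union, Finset.mem_biUnion]
        by_cases hvw : v = w
        · subst hvw; exact Or.inl hxv
        · exact Or.inr ⟨v, Finset.mem_erase.mpr ⟨hvw, hv⟩, hxv⟩
      have h2 := Finset.card_le_card h1
      have h3 := Finset.card_union_le (nb G K w) ((E.erase w).biUnion (fun w => nb G K w))
      have h4 := Finset.card_biUnion_le_card_mul (E.erase w) (fun w => nb G K w) 2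
        (fun v hv => (hEnb v (Finset.mem_of_mem_erase hv)).1)
      rw [Finset.card_erase_of_mem hw, hE3] at h4
      rw [hceq, hcov6] at hc6
      omega
    have hsadj : ∀ w ∈ E, ¬ G.Adj s w := by
      intro w hw hsw
      exact ((hR0mem s).mp hs).2.1 ((hEnb w hw).2 (hE2 w hw) s hsK hsw.symm)
    have hprop' : Proper G (Function.update f s (Fin.last 6)) Kᶜ := by
      apply proper_update hprop
      intro w hw hsw hfw
      rw [Finset.mem_compl] at hw
      rcases hcover w hw with h | h | h
      · exact fT w h hfw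
      · exact hsadj w h hsw
      · exact fR w h hfw
    have k1 : cov G K (Function.update f s (Fin.last 6)) Kᶜ (Fin.last 6) ⊆ nb G K s := by
      intro x hx
      rw [mem_cov] at hx
      obtain ⟨hxK, v, hv, hxv, hfv⟩ := hx
      by_cases hvs : v = s
      · subst hvs; exact mem_nb.mpr ⟨hxK, hxv⟩
      · rw [Function.update_of_ne hvs] at hfv
        rw [hceq]
        exact mem_cov.mpr ⟨hxK, v, hv, hxv, hfv⟩
    have k2 : ∀ e, e ≠ Fin.last 6 →
        cov G K (Function.update f s (Fin.last 6)) Kᶜ e ⊆ K \ nb G K s := by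
      intro e he x hx
      rw [mem_cov] at hx
      obtain ⟨hxK, v, hv, hxv, hfv⟩ := hx
      rw [Finset.mem_compl] at hv
      have hvs : v ≠ s := by
        rintro rfl
        rw [Function.update_self] at hfv
        exact he hfv.symm
      rw [Function.update_of_ne hvs] at hfv
      rw [Finset.mem_sdiff]
      refine ⟨hxK, fun hxs => ?_⟩
      have hx6 : x ∈ E.biUnion (fun w => nb G K w) := by
        rw [← hcov6, ← hceq]; exact hxs
      rw [Finset.mem_biUnion] at hx6
      obtain ⟨w, hw, hxw⟩ := hx6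
      refine three S hxK hv hsK (fun h => Finset.disjoint_left.mp hEK h hw) hxv (mem_nb.mp hxs).2
        (mem_nb.mp hxw).2 hvs ?_ ?_
      · rintro rfl; exact he (hfv.symm.trans (fE v hw))
      · rintro rfl; exact hsE hw
    have hs6 := S.six s hsK
    have hKs : (K \ nb G K s).card = 1 := by
      rw [Finset.card_sdiff_of_subset (nb_subset _), S.card]; omega
    apply hnc
    apply GH S _ hprop'
    · intro e
      by_contra hcon
      push Not at hcon
      have h1 := Finset.card_le_card (show K ⊆ _ from hcon)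
      rw [S.card] at h1
      by_cases he : e = Fin.last 6
      · subst he
        have := Finset.card_le_card k1
        omega
      · have := Finset.card_le_card (k2 e he)
        omega
    · intro e1 e2 he
      by_cases h1 : e1 = Fin.last 6
      · have h2 : e2 ≠ Fin.last 6 := fun h => he (h1.trans h.symm)
        have := Finset.card_le_card (Finset.inter_subset_right.trans (k2 e2 h2) :
          cov G K (Function.update f s (Fin.last 6)) Kᶜ e1 ∩ _ ⊆ _)
        omega
      · have := Finset.card_le_card (Finset.inter_subset_left.trans (k2 e1 h1) :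
          _ ∩ cov G K (Function.update f s (Fin.last 6)) Kᶜ e2 ⊆ _)
        omega
  by_cases hd : d = Fin.last 6
  · exact key c d hcd hd hc6 hceq
  by_cases hc : c = Fin.last 6
  · exact key d c hcd.symm hc hd6 hceq.symm
  -- twins
  rcases hcov c hc with h | ⟨s, hs, hfs, hs'⟩
  · rw [h] at hc6; simp at hc6
  rcases hcov d hd with h | ⟨r, hr, hfr, hr'⟩
  · rw [h] at hd6; simp at hd6
  apply hnc
  refine TL S (b := s) (b' := r) ((hR0mem s).mp hs).1 ((hR0mem r).mp hr).1 ?_ ?_ ?_ (f := f) ?_
  · rintro rfl; exact hcd (hfs.symm.trans hfr)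
  · rw [← hs', ← hr', hceq]
  · rw [← hs']; exact hc6
  · exact fun u hu v hv huv =>
      hprop u (Finset.mem_sdiff.mp hu).1 v (Finset.mem_sdiff.mp hv).1 huv

end Pool.Agent.helper45.BK
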