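import Mathlib
import Pool.Agent.helper45.BK5

/-! Every graph on 21 vertices with maximum degree at most 8, a 7-clique and no 8-clique is
7-colourable. -/

set_option linter.unusedSectionVars false

namespace Pool.Agent.helper45.BK

open Finset

variable {V : Type*} [Fintype V] [DecidableEq V] {G : SimpleGraph V} [DecidableRel G.Adj]
  {K : Finset V}

lemma setup (hdeg : ∀ v, (Finset.univ.filter (fun w => G.Adj v w)).card ≤ 8)
    (hK : K.card = 7) (hcl : ∀ x ∈ K, ∀ y ∈ K, x ≠ y → G.Adj x y)
    (h8 : ∀ T : Finset V, T.card = 8 → ∃ a ∈ T, ∃ b ∈ T, a ≠ b ∧ ¬ G.Adj a b) : Setup G K where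
  card := hK
  clique := hcl
  two := by
    intro x hx
    have h1 : K.erase x ∪ Kᶜ.filter (fun v => G.Adj x v) ⊆
        Finset.univ.filter (fun w => G.Adj x w) := by
      intro w hw
      rw [Finset.mem_union, Finset.mem_erase, Finset.mem_filter] at hw
      rw [Finset.mem_filter]
      rcases hw with ⟨h1, h2⟩ | ⟨_, h⟩
      · exact ⟨Finset.mem_univ _, hcl x hx w h2 h1.symm⟩
      · exact ⟨Finset.mem_univ _, h⟩
    have h2 : Disjoint (K.erase x) (Kᶜ.filter (fun v => G.Adj x v)) := by
      rw [Finset.disjoint_left]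
      intro w hw hw'
      rw [Finset.mem_filter, Finset.mem_compl] at hw'
      exact hw'.1 (Finset.mem_of_mem_erase hw)
    have h3 := Finset.card_le_card h1
    rw [Finset.card_union_of_disjoint h2, Finset.card_erase_of_mem hx, hK] at h3
    have := hdeg x
    omega
  deg := by
    intro v _
    have h1 : nb G K v ∪ Kᶜ.filter (fun w => G.Adj v w) ⊆
        Finset.univ.filter (fun w => G.Adj v w) := by
      intro w hw
      rw [Finset.mem_union, mem_nb, Finset.mem_filter] at hw
      rw [Finset.mem_filter]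
      rcases hw with ⟨_, h⟩ | ⟨_, h⟩
      · exact ⟨Finset.mem_univ _, h.symm⟩
      · exact ⟨Finset.mem_univ _, h⟩
    have h2 : Disjoint (nb G K v) (Kᶜ.filter (fun w => G.Adj v w)) := by
      rw [Finset.disjoint_left]
      intro w hw hw'
      rw [Finset.mem_filter, Finset.mem_compl] at hw'
      exact hw'.1 (nb_subset _ hw)
    have h3 := Finset.card_le_card h1
    rw [Finset.card_union_of_disjoint h2] at h3
    exact h3.trans (hdeg v)
  six := by
    intro v hv
    by_contra hcon
    push Not at hcon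
    have h1 : nb G K v = K := Finset.eq_of_subset_of_card_le (nb_subset _) (by omega)
    obtain ⟨a, ha, b, hb, hab, hnadj⟩ := h8 (insert v K) (by
      rw [Finset.card_insert_of_notMem hv, hK])
    rw [Finset.mem_insert] at ha hb
    rcases ha with rfl | ha <;> rcases hb with rfl | hb
    · exact hab rfl
    · rw [← h1, mem_nb] at hb
      exact hnadj hb.2.symm
    · rw [← h1, mem_nb] at ha
      exact hnadj ha.2
    · exact hnadj (hcl a ha b hb hab)
  twin := by
    intro v w hv hw hvw heq h6 hadj
    obtain ⟨T, hT, hT6⟩ := Finset.exists_subset_card_eq h6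
    obtain ⟨a, ha, b, hb, hab, hnadj⟩ := h8 (insert v (insert w T)) (by
      rw [Finset.card_insert_of_notMem, Finset.card_insert_of_notMem, hT6]
      · exact fun h => hw (nb_subset _ (hT h))
      · rw [Finset.mem_insert, not_or]
        exact ⟨hvw, fun h => hv (nb_subset _ (hT h))⟩)
    have hTK : ∀ x ∈ T, x ∈ K ∧ G.Adj x v ∧ G.Adj x w := by
      intro x hx
      have h1 := hT hx
      have h2 := heq ▸ h1
      exact ⟨(mem_nb.mp h1).1, (mem_nb.mp h1).2, (mem_nb.mp h2).2⟩
    simp only [Finset.mem_insert] at ha hb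
    rcases ha with rfl | rfl | ha <;> rcases hb with rfl | rfl | hb
    · exact hab rfl
    · exact hnadj hadj
    · exact hnadj (hTK b hb).2.1.symm
    · exact hnadj hadj.symm
    · exact hab rfl
    · exact hnadj (hTK b hb).2.2.symm
    · exact hnadj (hTK a ha).2.1
    · exact hnadj (hTK a ha).2.2
    · exact hnadj (hcl a (hTK a ha).1 b (hTK b hb).1 hab)

theorem colorable_21 (hV : Fintype.card V = 21)
    (hdeg : ∀ v, (Finset.univ.filter (fun w => G.Adj v w)).card ≤ 8)
    (hK : K.card = 7) (hcl : ∀ x ∈ K, ∀ y ∈ K, x ≠ y → G.Adj x y)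
    (h8 : ∀ T : Finset V, T.card = 8 → ∃ a ∈ T, ∃ b ∈ T, a ≠ b ∧ ¬ G.Adj a b) :
    G.Colorable 7 := by
  classical
  have S := setup hdeg hK hcl h8
  have hR : (Kᶜ : Finset V).card = 14 := by rw [Finset.card_compl, hV, hK]
  have hW : Fintype.card {v // v ∉ K} = 14 := by
    rw [Fintype.card_subtype_compl, hV, Fintype.card_coe, hK]
  let H : SimpleGraph {v // v ∉ K} :=
    { Adj := fun a b => a ≠ b ∧ ¬ G.Adj a.1 b.1
      symm := ⟨fun a b h => ⟨h.1.symm, fun h' => h.2 h'.symm⟩⟩
      loopless := ⟨fun a h => h.1 rfl⟩ }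
  have hHadj : ∀ a b, H.Adj a b ↔ a ≠ b ∧ ¬ G.Adj a.1 b.1 := fun a b => Iff.rfl
  have hdegH : ∀ w, 5 ≤ (Finset.univ.filter (fun v => H.Adj w v)).card := by
    intro w
    have h1 : (Finset.univ : Finset {v // v ∉ K}) ⊆ (Finset.univ.filter (fun v => H.Adj w v)) ∪
        insert w (Finset.univ.filter (fun v : {v // v ∉ K} => G.Adj w.1 v.1)) := by
      intro v _
      rw [Finset.mem_union, Finset.mem_insert, Finset.mem_filter, Finset.mem_filter, hHadj]
      by_cases h1 : v = w
      · exact Or.inr (Or.inl h1)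
      by_cases h2 : G.Adj w.1 v.1
      · exact Or.inr (Or.inr ⟨Finset.mem_univ _, h2⟩)
      · exact Or.inl ⟨Finset.mem_univ _, Ne.symm h1, h2⟩
    have h2 := Finset.card_le_card h1
    have h3 := Finset.card_union_le (Finset.univ.filter (fun v => H.Adj w v))
      (insert w (Finset.univ.filter (fun v : {v // v ∉ K} => G.Adj w.1 v.1)))
    have h4 := Finset.card_insert_le w (Finset.univ.filter (fun v : {v // v ∉ K} => G.Adj w.1 v.1))
    have h5 : (Finset.univ.filter (fun v : {v // v ∉ K} => G.Adj w.1 v.1)).card ≤ 8 := by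
      rw [← Finset.card_map (Function.Embedding.subtype _)]
      refine (Finset.card_le_card ?_).trans (hdeg w.1)
      intro v hv
      rw [Finset.mem_map] at hv
      obtain ⟨z, hz, rfl⟩ := hv
      rw [Finset.mem_filter] at hz ⊢
      exact ⟨Finset.mem_univ _, hz.2⟩
    rw [Finset.card_univ, hW] at h2
    omega
  have hfree : ∀ T : Finset {v // v ∉ K}, T.card = 8 → ∃ a ∈ T, ∃ b ∈ T, H.Adj a b := by
    intro T hT
    obtain ⟨a, ha, b, hb, hab, hnadj⟩ := h8 (T.map (Function.Embedding.subtype _)) (by
      rw [Finset.card_map, hT])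
    rw [Finset.mem_map] at ha hb
    obtain ⟨x, hx, rfl⟩ := ha
    obtain ⟨y, hy, rfl⟩ := hb
    exact ⟨x, hx, y, hy, fun h => hab (by rw [h]), hnadj⟩
  rcases tutte_structure hW H hdegH hfree with ⟨M, hM1, hM2⟩ | ⟨A, hA7, hA⟩ |
    ⟨T, E, hTE, hT6, hE3, hTT, hTEadj, hEE⟩
  · -- perfect matching
    let f0 : {v // v ∉ K} → Finset {v // v ∉ K} := fun w => {w, M w}
    have hf0 : ∀ v w, f0 v = f0 w → w = v ∨ w = M v := by
      intro v w h
      have : w ∈ f0 w := by simp [f0]
      rw [← h] at this
      simpa [f0] using this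
    have himg : (Finset.univ.image f0).card ≤ 7 := by
      have h1 := Finset.card_eq_sum_card_image f0 (Finset.univ : Finset {v // v ∉ K})
      have h2 : ∑ c ∈ Finset.univ.image f0, 2 ≤ ∑ c ∈ Finset.univ.image f0,
          (Finset.univ.filter (fun w => f0 w = c)).card := by
        apply Finset.sum_le_sum
        intro c hc
        rw [Finset.mem_image] at hc
        obtain ⟨w, _, rfl⟩ := hc
        have h3 : ({w, M w} : Finset {v // v ∉ K}) ⊆ Finset.univ.filter (fun z => f0 z = f0 w) := by
          intro z hz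
          simp only [Finset.mem_insert, Finset.mem_singleton] at hz
          rw [Finset.mem_filter]
          rcases hz with rfl | rfl
          · exact ⟨Finset.mem_univ _, rfl⟩
          · refine ⟨Finset.mem_univ _, ?_⟩
            simp only [f0, hM2]
            exact Finset.pair_comm _ _
        have h4 := Finset.card_le_card h3
        rwa [Finset.card_pair (hM1 w).ne] at h4
      rw [Finset.card_univ, hW] at h1
      rw [Finset.sum_const, smul_eq_mul] at h2
      omega
    obtain ⟨e⟩ : Nonempty ({c // c ∈ Finset.univ.image f0} ↪ Fin 7) := by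
      rw [Function.Embedding.nonempty_iff_card_le, Fintype.card_coe, Fintype.card_fin]
      exact himg
    let f : V → Fin 7 := fun v => if h : v ∉ K then
      e ⟨f0 ⟨v, h⟩, Finset.mem_image_of_mem _ (Finset.mem_univ _)⟩ else 0
    have hfeq : ∀ v w (hv : v ∉ K) (hw : w ∉ K), f v = f w → w = v ∨ w = (M ⟨v, hv⟩).1 := by
      intro v w hv hw h
      simp only [f, hv, hw, not_false_eq_true, dite_true] at h
      have h1 := e.injective h
      have h2 := hf0 ⟨v, hv⟩ ⟨w, hw⟩ (by simpa using h1)
      rcases h2 with h2 | h2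
      · left; simpa using h2
      · right; exact congrArg Subtype.val h2
    refine core S (f := f) ?_ ?_
    · intro v hv w hw hvw heq
      rw [Finset.mem_compl] at hv hw
      rcases hfeq v w hv hw heq with h | h
      · exact hvw.ne h.symm
      · exact (hM1 ⟨v, hv⟩).2 (h ▸ hvw)
    · intro c
      by_contra hcon
      push Not at hcon
      obtain ⟨v, w, z, hv, hw, hz, hvw, hvz, hwz⟩ := Finset.two_lt_card_iff.mp hcon
      rw [Finset.mem_filter, Finset.mem_compl] at hv hw hz
      rcases hfeq v w hv.1 hw.1 (hv.2.trans hw.2.symm) with h | h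
      · exact hvw h.symm
      rcases hfeq v z hv.1 hz.1 (hv.2.trans hz.2.symm) with h' | h'
      · exact hvz h'.symm
      · exact hwz (h.trans h'.symm)
  · -- join of two graphs with seven vertices
    refine caseA (K := K) (A := A.map (Function.Embedding.subtype _))
      (B := Aᶜ.map (Function.Embedding.subtype _)) hdeg hK ?_ ?_ ?_ ?_ ?_ ?_ ?_
    · rw [Finset.card_map, hA7]
    · rw [Finset.card_map, Finset.card_compl, hW, hA7]
    · rw [Finset.disjoint_left]
      intro x hx hxA
      rw [Finset.mem_map] at hxA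
      obtain ⟨y, _, rfl⟩ := hxA
      exact y.2 hx
    · rw [Finset.disjoint_left]
      intro x hx hxA
      rw [Finset.mem_map] at hxA
      obtain ⟨y, _, rfl⟩ := hxA
      exact y.2 hx
    · rw [Finset.disjoint_map]
      exact disjoint_compl_right
    · intro v
      by_cases hv : v ∈ K
      · exact Or.inl hv
      right
      by_cases hvA : (⟨v, hv⟩ : {v // v ∉ K}) ∈ A
      · left; rw [Finset.mem_map]; exact ⟨_, hvA, rfl⟩
      · right; rw [Finset.mem_map]; exact ⟨_, Finset.mem_compl.mpr hvA, rfl⟩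
    · intro a ha b hb
      rw [Finset.mem_map] at ha hb
      obtain ⟨x, hx, rfl⟩ := ha
      obtain ⟨y, hy, rfl⟩ := hb
      rw [Finset.mem_compl] at hy
      by_contra hnadj
      exact hA x hx y hy ⟨fun h => hy (h ▸ hx), hnadj⟩
  · -- six dominating vertices and an independent triple
    have hadj_of : ∀ a b : {v // v ∉ K}, a ≠ b → ¬ H.Adj a b → G.Adj a.1 b.1 := by
      intro a b hab h
      by_contra hnadj
      exact h ⟨hab, hnadj⟩
    refine caseB S hR (T := T.map (Function.Embedding.subtype _))
      (E := E.map (Function.Embedding.subtype _)) ?_ ?_ ?_ ?_ ?_ ?_ ?_ ?_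
    · rw [Finset.disjoint_left]
      intro x hx hxA
      rw [Finset.mem_map] at hxA
      obtain ⟨y, _, rfl⟩ := hxA
      exact y.2 hx
    · rw [Finset.disjoint_left]
      intro x hx hxA
      rw [Finset.mem_map] at hxA
      obtain ⟨y, _, rfl⟩ := hxA
      exact y.2 hx
    · rw [Finset.disjoint_map]; exact hTE
    · rw [Finset.card_map, hT6]
    · rw [Finset.card_map, hE3]
    · intro a ha b hb hab
      rw [Finset.mem_map] at ha hb
      obtain ⟨x, hx, rfl⟩ := ha
      obtain ⟨y, hy, rfl⟩ := hb
      exact hadj_of x y (fun h => hab (by rw [h])) (hTT x hx y hy)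
    · intro a ha b hb
      rw [Finset.mem_map] at ha hb
      obtain ⟨x, hx, rfl⟩ := ha
      obtain ⟨y, hy, rfl⟩ := hb
      exact hadj_of x y (fun h => Finset.disjoint_left.mp hTE hx (h ▸ hy)) (hTEadj x hx y hy)
    · intro a ha b hb hadj
      rw [Finset.mem_map] at ha hb
      obtain ⟨x, hx, rfl⟩ := ha
      obtain ⟨y, hy, rfl⟩ := hb
      exact (hEE x hx y hy (fun h => hadj.ne (by rw [h]))).2 hadj

end Pool.Agent.helper45.BK
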